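import Pool.Agent.Helper28.ND.Spec

/-!
# MP_0c2f33_an, second swarm: the case `p ≥ 2`, `2/p + 1/q > 1`: generic parts (A).
-/

namespace Pool.Agent.Helper28.ND
open MeasureTheory Set Filter Topology
open scoped ENNReal NNReal

noncomputable section

/-- Data of the forward problem on `(0,T)`: bounded divergence-free drift, bounded source. -/
structure FD (d : ℕ) (T : ℝ) (b : ℝ → (Fin d → ℝ) → (Fin d → ℝ)) (f : ℝ → (Fin d → ℝ) → ℝ) :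
    Prop where
  mb : Measurable (U b)
  pb : ∀ t, Per (b t)
  sb : ∀ t, (t ≤ 0 ∨ T ≤ t) → ∀ x i, b t x i = 0
  mf : Measurable (U f)
  pf : ∀ t, Per (f t)
  sf : ∀ t, (t ≤ 0 ∨ T ≤ t) → ∀ x, f t x = 0
  bdd : ∃ B : ℝ, ∀ t x, |f t x| ≤ B ∧ ∀ i, |b t x i| ≤ B
  db : ∀ (t : ℝ) (ζ : (Fin d → ℝ) → ℝ), ContDiff ℝ 1 ζ → Per ζ →
    ∫ x in Q d, ∑ i, b t x i * pd i ζ x = 0

/-- the reversed source -/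
def RF {d : ℕ} (T : ℝ) (b : ℝ → (Fin d → ℝ) → (Fin d → ℝ)) (f : ℝ → (Fin d → ℝ) → ℝ)
    (v : ℝ → (Fin d → ℝ) → (Fin d → ℝ)) (s : ℝ) (y : Fin d → ℝ) : ℝ :=
  f (1 + T - s) y - ∑ j, b (1 + T - s) y j * v (1 + T - s) y j

/-- The solution of `∂u + b·∇u = Δu + f`, `u = 0` for `t ≤ 0`; `v = ∇u`. -/
structure FSol (d : ℕ) (T : ℝ) (b : ℝ → (Fin d → ℝ) → (Fin d → ℝ)) (f : ℝ → (Fin d → ℝ) → ℝ)
    (u : ℝ → (Fin d → ℝ) → ℝ) (v : ℝ → (Fin d → ℝ) → (Fin d → ℝ)) : Prop where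
  dat : FD d T b f
  mv : Measurable (U v)
  pv : ∀ t, Per (v t)
  bv : ∃ C : ℝ, ∀ t x i, |v t x i| ≤ C
  ev : ∀ t x i, v t x i = Vel (1 + T) (RF T b f v) i (1 + T - t) x
  eu : ∀ t x, u t x = Phi (1 + T) (RF T b f v) (1 + T - t) x

/-- A1 (FEX): existence, from `S_PIC` with `c t = - b (1+T-t)`, `h t = f (1+T-t)`, `S = 1+T`. -/
def S_FEX : Prop := ∀ (d : ℕ) (T : ℝ) (b : ℝ → (Fin d → ℝ) → (Fin d → ℝ))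
  (f : ℝ → (Fin d → ℝ) → ℝ), 0 < T → FD d T b f → ∃ u v, FSol d T b f u v

/-- A2 (FREG): regularity: bounded, measurable, periodic, zero for `t ≤ 0`, Lipschitz in space,
continuous in time. -/
def S_FREG : Prop := ∀ (d : ℕ) (T : ℝ) (b : ℝ → (Fin d → ℝ) → (Fin d → ℝ))
  (f : ℝ → (Fin d → ℝ) → ℝ) (u : ℝ → (Fin d → ℝ) → ℝ) (v : ℝ → (Fin d → ℝ) → (Fin d → ℝ)),
  0 < T → FSol d T b f u v →
  BMP u ∧ (∀ t, t ≤ 0 → ∀ x, u t x = 0) ∧ (∃ C : ℝ, ∀ t x y, |u t x - u t y| ≤ C * ‖x - y‖) ∧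
  ∀ x, Continuous (fun t => u t x)

/-- A3 (FTEST): the weak equation against `C²` test functions between any two times. -/
def S_FTEST : Prop := ∀ (d : ℕ) (T : ℝ) (b : ℝ → (Fin d → ℝ) → (Fin d → ℝ))
  (f : ℝ → (Fin d → ℝ) → ℝ) (u : ℝ → (Fin d → ℝ) → ℝ) (v : ℝ → (Fin d → ℝ) → (Fin d → ℝ)),
  0 < T → FSol d T b f u v →
  ∀ g : ℝ → (Fin d → ℝ) → ℝ, ContDiff ℝ 2 (U g) → (∀ t, Per (g t)) →
  ∀ s t : ℝ, 0 ≤ s → s ≤ t → t ≤ T →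
    ∫ x in Q d, u t x * g t x = (∫ x in Q d, u s x * g s x)
      + ∫ r in Ioc s t, ∫ x in Q d, (u r x * (dt g r x + (∑ i, b r x i * pd i (g r) x)
          + lap (g r) x) + f r x * g r x)

/-- A4 (FLOC): locality, uniqueness, and symmetries.  `A x = fun i => e i * x i + a i`. -/
def S_FLOC : Prop := ∀ (d : ℕ) (T : ℝ) (b b' : ℝ → (Fin d → ℝ) → (Fin d → ℝ))
  (f f' : ℝ → (Fin d → ℝ) → ℝ) (u u' : ℝ → (Fin d → ℝ) → ℝ)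
  (v v' : ℝ → (Fin d → ℝ) → (Fin d → ℝ)), 0 < T → FSol d T b f u v → FSol d T b' f' u' v' →
  ∀ (e a : Fin d → ℝ) (c de t0 : ℝ), (∀ i, e i = 1 ∨ e i = -1) → (c = 1 ∨ c = -1) → 0 ≤ de →
  (∀ t, 0 < t → t < t0 → ∀ x, f' (t + de) (fun i => e i * x i + a i) = c * f t x ∧
    ∀ i, b' (t + de) (fun i => e i * x i + a i) i = e i * b t x i) →
  (∀ t, t ≤ de → ∀ x, f' t x = 0) →
  ∀ t, t ≤ t0 → ∀ x, u' (t + de) (fun i => e i * x i + a i) = c * u t x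

/-- A5 (FLIN): linearity. -/
def S_FLIN : Prop := ∀ (d : ℕ) (T : ℝ) (b : ℝ → (Fin d → ℝ) → (Fin d → ℝ)) (n : ℕ)
  (f : Fin n → ℝ → (Fin d → ℝ) → ℝ) (u : Fin n → ℝ → (Fin d → ℝ) → ℝ)
  (v : Fin n → ℝ → (Fin d → ℝ) → (Fin d → ℝ)), 0 < T → 0 < n →
  (∀ j, FSol d T b (f j) (u j) (v j)) →
  FSol d T b (fun t x => ∑ j, f j t x) (fun t x => ∑ j, u j t x) (fun t x i => ∑ j, v j t x i)

/-- A6 (FPOS): positivity between the walls `x 0 = 0` and `x 0 = 1/2` for odd solutions. -/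
def S_FPOS : Prop := ∀ (T : ℝ) (b : ℝ → (Fin 2 → ℝ) → (Fin 2 → ℝ))
  (f : ℝ → (Fin 2 → ℝ) → ℝ) (u : ℝ → (Fin 2 → ℝ) → ℝ) (v : ℝ → (Fin 2 → ℝ) → (Fin 2 → ℝ)),
  0 < T → FSol 2 T b f u v →
  (∀ t x, u t ![-x 0, x 1] = - u t x) →
  (∀ t x, 0 ≤ x 0 → x 0 ≤ 1 / 2 → 0 ≤ f t x) →
  ∀ t x, t ≤ T → 0 ≤ x 0 → x 0 ≤ 1 / 2 → 0 ≤ u t x

/-- A7 (FLQ): the `L^q` norm does not increase when there is no source. -/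
def S_FLQ : Prop := ∀ (d : ℕ) (T : ℝ) (b : ℝ → (Fin d → ℝ) → (Fin d → ℝ))
  (f : ℝ → (Fin d → ℝ) → ℝ) (u : ℝ → (Fin d → ℝ) → ℝ) (v : ℝ → (Fin d → ℝ) → (Fin d → ℝ)),
  0 < T → FSol d T b f u v → ∀ (q : ℝ), 2 ≤ q → ∀ s t : ℝ, 0 ≤ s → s ≤ t → t ≤ T →
  (∀ r, s < r → r < t → ∀ x, f r x = 0) →
  ∫ x in Q d, |u t x| ^ q ≤ ∫ x in Q d, |u s x| ^ q

/-- A8 (FSUP): `|u| ≤ ∫ sup |f|` (maximum principle, as in `S_MAX`). -/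
def S_FSUP : Prop := ∀ (d : ℕ) (T : ℝ) (b : ℝ → (Fin d → ℝ) → (Fin d → ℝ))
  (f : ℝ → (Fin d → ℝ) → ℝ) (u : ℝ → (Fin d → ℝ) → ℝ) (v : ℝ → (Fin d → ℝ) → (Fin d → ℝ)),
  0 < T → FSol d T b f u v → ∀ (H s0 s1 : ℝ), 0 ≤ s0 → s0 ≤ s1 → 0 ≤ H →
  (∀ t x, |f t x| ≤ H) → (∀ t, (t ≤ s0 ∨ s1 ≤ t) → ∀ x, f t x = 0) →
  ∀ t x, t ≤ T → |u t x| ≤ H * (s1 - s0)

/-- The symmetries of the construction: odd in `x 0`, even around `x 0 = 1/4`. -/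
def Sym (u : (Fin 2 → ℝ) → ℝ) : Prop :=
  (∀ x, u ![-x 0, x 1] = - u x) ∧ (∀ x, u ![1 / 2 - x 0, x 1] = u x)

def SymB (b : (Fin 2 → ℝ) → (Fin 2 → ℝ)) : Prop :=
  (∀ x, b ![-x 0, x 1] 0 = - b x 0 ∧ b ![-x 0, x 1] 1 = b x 1) ∧
  (∀ x, b ![1 / 2 - x 0, x 1] 0 = - b x 0 ∧ b ![1 / 2 - x 0, x 1] 1 = b x 1)

/-- The quarter cell. -/
def Q4 : Set (Fin 2 → ℝ) := {x | 0 < x 0 ∧ x 0 < 1 / 4 ∧ 0 < x 1 ∧ x 1 ≤ 1}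

/-- Test functions on the quarter cell: `C²`, `1`-periodic in `x 1`, zero on the wall `x 0 = 0`,
independent of `x 0` for `x 0 ≥ 1/8`. -/
structure T4 (g : ℝ → (Fin 2 → ℝ) → ℝ) : Prop where
  smooth : ContDiff ℝ 2 (U g)
  per : ∀ t x, g t ![x 0, x 1 + 1] = g t x
  wall : ∀ t x, x 0 = 0 → g t x = 0
  flat : ∀ t x, 1 / 8 ≤ x 0 → g t x = g t ![1 / 8, x 1]

/-- A9 (TESTQ): the weak equation on the quarter cell (extend `g` to a function which is odd in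
`x 0`, even around `1/4`; near the wall use a cutoff and `|u| ≤ C |x 0|`, which follows from
oddness and the Lipschitz bound in FREG). -/
def S_TESTQ : Prop := ∀ (T : ℝ) (b : ℝ → (Fin 2 → ℝ) → (Fin 2 → ℝ))
  (f : ℝ → (Fin 2 → ℝ) → ℝ) (u : ℝ → (Fin 2 → ℝ) → ℝ) (v : ℝ → (Fin 2 → ℝ) → (Fin 2 → ℝ)),
  0 < T → FSol 2 T b f u v → (∀ t, Sym (u t)) → (∀ t, Sym (f t)) → (∀ t, SymB (b t)) →
  ∀ g : ℝ → (Fin 2 → ℝ) → ℝ, T4 g → ∀ s t : ℝ, 0 ≤ s → s ≤ t → t ≤ T →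
    ∫ x in Q4, u t x * g t x = (∫ x in Q4, u s x * g s x)
      + ∫ r in Ioc s t, ∫ x in Q4, (u r x * (dt g r x + (∑ i, b r x i * pd i (g r) x)
          + lap (g r) x) + f r x * g r x)

/-- A10 (SMO): smoothing of the heat flow with the small period `ρ` in `x 1`. -/
def S_SMO : Prop := ∃ C0 : ℝ, 0 < C0 ∧ ∀ (T : ℝ) (b : ℝ → (Fin 2 → ℝ) → (Fin 2 → ℝ))
  (f : ℝ → (Fin 2 → ℝ) → ℝ) (u : ℝ → (Fin 2 → ℝ) → ℝ) (v : ℝ → (Fin 2 → ℝ) → (Fin 2 → ℝ)),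
  0 < T → FSol 2 T b f u v → ∀ (s t : ℝ) (n : ℕ), 0 ≤ s → s < t → t ≤ T → t - s ≤ 1 → 0 < n →
  (1 / (n : ℝ)) ^ 2 ≤ t - s → (∀ x, u s ![x 0, x 1 + 1 / (n : ℝ)] = u s x) →
  (∀ r, s < r → r < t → ∀ x, f r x = 0 ∧ ∀ i, b r x i = 0) →
  ∀ x, |u t x| ≤ C0 / Real.sqrt (t - s) * ∫ y in Q 2, |u s y|

/-- A11 (UNP): a parabolic solution with datum `0` and drift in `L²` is zero. -/
def S_UNP : Prop := ∀ (d : ℕ) (T : ℝ) (p q : ℝ≥0∞) (b : ℝ → (Fin d → ℝ) → (Fin d → ℝ))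
  (u : ℝ → (Fin d → ℝ) → ℝ), 0 < T → 2 ≤ p → 2 ≤ q → Drift d T p b →
  Sol d T q b (fun _ => 0) u → Parabolic d T u →
  ∀ᵐ t ∂(volume.restrict (Ioo 0 T)), ∀ᵐ x ∂(volume.restrict (Q d)), u t x = 0

/-- A12 (LIMIT): limits of approximate solutions.  `bK → b` in `L²`, the sources go to `0` in the
sense of distributions, `uK` is bounded in `L^∞ L^q` (uniformly in `K`), and there is a lower bound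
against a fixed bounded function `et`. -/
def S_LIMIT : Prop := ∀ (d : ℕ) (T : ℝ) (p : ℝ≥0∞) (q : ℝ) (b : ℝ → (Fin d → ℝ) → (Fin d → ℝ))
  (bK : ℕ → ℝ → (Fin d → ℝ) → (Fin d → ℝ)) (fK uK : ℕ → ℝ → (Fin d → ℝ) → ℝ)
  (vK : ℕ → ℝ → (Fin d → ℝ) → (Fin d → ℝ)) (et : ℝ → (Fin d → ℝ) → ℝ) (C c : ℝ),
  0 < T → 2 ≤ p → 2 ≤ q → Drift d T p b → (∀ K, FSol d T (bK K) (fK K) (uK K) (vK K)) →
  Tendsto (fun K => ∫⁻ t in Ioo 0 T, ∫⁻ x in Q d, ‖bK K t x - b t x‖ₑ ^ 2) atTop (𝓝 0) →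
  (∀ g : ℝ → (Fin d → ℝ) → ℝ, IsTest T g →
    Tendsto (fun K => ∫ t in Ioo 0 T, ∫ x in Q d, fK K t x * g t x) atTop (𝓝 0)) →
  (∀ K t, 0 < t → t < T → ∫ x in Q d, |uK K t x| ^ q ≤ C) →
  BMP et → 0 < c → (∀ᶠ K in atTop, c ≤ ∫ t in Ioo 0 T, ∫ x in Q d, uK K t x * et t x) →
  ∃ u : ℝ → (Fin d → ℝ) → ℝ, Sol d T (ENNReal.ofReal q) b (fun _ => 0) u ∧
    c ≤ ∫ t in Ioo 0 T, ∫ x in Q d, u t x * et t x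

/-- A13 (EXT): extension from `d = 2` to all `d ≥ 2` (constant in the other variables). -/
def S_EXT : Prop := ∀ (T : ℝ) (p q : ℝ≥0∞), 0 < T → 1 ≤ p → 1 ≤ q → p⁻¹ + q⁻¹ ≤ 1 →
  ∀ (b : ℝ → (Fin 2 → ℝ) → (Fin 2 → ℝ)) (u0 : (Fin 2 → ℝ) → ℝ) (u : ℝ → (Fin 2 → ℝ) → ℝ),
  Drift 2 T p b → Sol 2 T q b u0 u → ¬ Parabolic 2 T u →
  ∀ d : ℕ, 2 ≤ d → ∃ (b' : ℝ → (Fin d → ℝ) → (Fin d → ℝ)) (u0' : (Fin d → ℝ) → ℝ)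
    (u' : ℝ → (Fin d → ℝ) → ℝ), Drift d T p b' ∧ Sol d T q b' u0' u' ∧ ¬ Parabolic d T u'

/-- The full answer. -/
def S_FULL : Prop :=
  (∀ (d : ℕ) (T : ℝ) (p q : ℝ≥0∞), 2 ≤ d → 0 < T → 1 ≤ p → 2 ≤ q → p⁻¹ + q⁻¹ ≤ 1 →
    1 < 2 * p⁻¹ + q⁻¹ →
    ∃ (b : ℝ → (Fin d → ℝ) → (Fin d → ℝ)) (u0 : (Fin d → ℝ) → ℝ) (u : ℝ → (Fin d → ℝ) → ℝ),
      Drift d T p b ∧ Sol d T q b u0 u ∧ ¬ Parabolic d T u) ∧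
  (∀ (d : ℕ) (T : ℝ) (p q : ℝ≥0∞), 0 < T → 2 ≤ q → 2 * p⁻¹ + q⁻¹ ≤ 1 →
    ∀ (b : ℝ → (Fin d → ℝ) → (Fin d → ℝ)) (u0 : (Fin d → ℝ) → ℝ) (u : ℝ → (Fin d → ℝ) → ℝ),
      Drift d T p b → Sol d T q b u0 u → Parabolic d T u)

end

end Pool.Agent.Helper28.ND
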