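import Pool.Agent.Helper28.ND.Spec

namespace Pool.Agent.Helper28.ND.ID
open MeasureTheory Set Filter Topology Pool.Agent.Helper28.ND

noncomputable section

/-- `f` has the gradient `(A, B)` at `z`. -/
def D (f : ℂ → ℝ) (z : ℂ) (A B : ℝ) : Prop :=
  HasFDerivAt f (A • Complex.reCLM + B • Complex.imCLM) z

lemma D.congr {f : ℂ → ℝ} {z : ℂ} {A B A' B' : ℝ} (h : D f z A B) (hA : A = A') (hB : B = B') :
    D f z A' B' := by subst hA; subst hB; exact h

lemma D_re (z : ℂ) : D (fun w => w.re) z 1 0 := by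
  exact (Complex.reCLM.hasFDerivAt (x := z)).congr_fderiv
    (ContinuousLinearMap.ext fun v => by simp)

lemma D_im (z : ℂ) : D (fun w => w.im) z 0 1 := by
  exact (Complex.imCLM.hasFDerivAt (x := z)).congr_fderiv
    (ContinuousLinearMap.ext fun v => by simp)

lemma D_const (c : ℝ) (z : ℂ) : D (fun _ => c) z 0 0 := by
  exact (hasFDerivAt_const (𝕜 := ℝ) c z).congr_fderiv
    (ContinuousLinearMap.ext fun v => by simp)

lemma D.add {f g : ℂ → ℝ} {z : ℂ} {A B A' B' : ℝ} (h : D f z A B) (h' : D g z A' B') :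
    D (fun w => f w + g w) z (A + A') (B + B') := by
  exact (HasFDerivAt.add h h').congr_fderiv
    (ContinuousLinearMap.ext fun v => by simp; ring)

lemma D.sub {f g : ℂ → ℝ} {z : ℂ} {A B A' B' : ℝ} (h : D f z A B) (h' : D g z A' B') :
    D (fun w => f w - g w) z (A - A') (B - B') := by
  exact (HasFDerivAt.sub h h').congr_fderiv
    (ContinuousLinearMap.ext fun v => by simp; ring)

lemma D.mul {f g : ℂ → ℝ} {z : ℂ} {A B A' B' : ℝ} (h : D f z A B) (h' : D g z A' B') :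
    D (fun w => f w * g w) z (f z * A' + g z * A) (f z * B' + g z * B) := by
  exact (HasFDerivAt.mul h h').congr_fderiv
    (ContinuousLinearMap.ext fun v => by simp; ring)

lemma D.comp {f : ℂ → ℝ} {z : ℂ} {A B : ℝ} (h : D f z A B) {φ : ℝ → ℝ} {φ' : ℝ}
    (hφ : HasDerivAt φ φ' (f z)) : D (fun w => φ (f w)) z (φ' * A) (φ' * B) := by
  exact (hφ.comp_hasFDerivAt z h).congr_fderiv
    (ContinuousLinearMap.ext fun v => by simp; ring)

lemma D.inv {f : ℂ → ℝ} {z : ℂ} {A B : ℝ} (h : D f z A B) (h0 : f z ≠ 0) :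
    D (fun w => (f w)⁻¹) z (-A / (f z) ^ 2) (-B / (f z) ^ 2) :=
  (h.comp (hasDerivAt_inv h0)).congr (by ring) (by ring)

lemma D.div {f g : ℂ → ℝ} {z : ℂ} {A B A' B' : ℝ} (h : D f z A B) (h' : D g z A' B')
    (h0 : g z ≠ 0) :
    D (fun w => f w / g w) z ((A * g z - f z * A') / (g z) ^ 2) ((B * g z - f z * B') / (g z) ^ 2) := by
  have := h.mul (h'.inv h0)
  refine D.congr (f := fun w => f w / g w) (by simpa [div_eq_mul_inv] using this) ?_ ?_
  · field_simp; ring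
  · field_simp; ring

lemma D_normSq (z : ℂ) : D (fun w => Complex.normSq w) z (2 * z.re) (2 * z.im) := by
  have h := ((D_re z).mul (D_re z)).add ((D_im z).mul (D_im z))
  have h2 : (fun w : ℂ => w.re * w.re + w.im * w.im) = fun w => Complex.normSq w := by
    funext w; rw [Complex.normSq_apply]
  rw [h2] at h
  exact h.congr (by ring) (by ring)

lemma normSq_pos' {z : ℂ} (hz : z ≠ 0) : 0 < Complex.normSq z := Complex.normSq_pos.2 hz

lemma gf_pos (a k : ℝ) {z : ℂ} (hz : z ≠ 0) : 0 < gf a k z := by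
  unfold gf
  have := normSq_pos' hz
  positivity

/-- The logarithmic gradient of `gf`. -/
def G1 (a k : ℝ) (z : ℂ) : ℝ :=
  (a - 1) * z.re / Complex.normSq z + k * z.re * z.im ^ 2 / (Complex.normSq z) ^ 2
def G2 (a k : ℝ) (z : ℂ) : ℝ :=
  (a - 1) * z.im / Complex.normSq z - k * z.re ^ 2 * z.im / (Complex.normSq z) ^ 2

lemma D_gf (a k : ℝ) {z : ℂ} (hz : z ≠ 0) :
    D (gf a k) z (gf a k z * G1 a k z) (gf a k z * G2 a k z) := by
  have hN := normSq_pos' hz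
  have hN' : Complex.normSq z ≠ 0 := hN.ne'
  have h1 : D (fun w => (Complex.normSq w) ^ ((a - 1) / 2)) z _ _ :=
    (D_normSq z).comp (Real.hasDerivAt_rpow_const (x := Complex.normSq z) (p := (a - 1) / 2)
      (Or.inl hN'))
  have hi2 : D (fun w => w.im ^ 2) z (2 * z.im * 0) (2 * z.im * 1) := by
    have := (D_im z).comp (hasDerivAt_pow 2 z.im)
    simpa using this
  have h2 : D (fun w => -(k / 2) * w.im ^ 2 / Complex.normSq w) z _ _ :=
    ((D_const (-(k / 2)) z).mul hi2).div (D_normSq z) hN'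
  have h3 : D (fun w => Real.exp (-(k / 2) * w.im ^ 2 / Complex.normSq w)) z _ _ :=
    h2.comp (Real.hasDerivAt_exp _)
  have h4 := h1.mul h3
  have hr : (Complex.normSq z) ^ ((a - 1) / 2 - 1)
      = (Complex.normSq z) ^ ((a - 1) / 2) / Complex.normSq z := Real.rpow_sub_one hN' _
  have hxy : Complex.normSq z = z.re ^ 2 + z.im ^ 2 := by rw [Complex.normSq_apply]; ring
  refine D.congr (f := gf a k) h4 ?_ ?_
  · rw [hr]
    unfold gf G1
    field_simp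
    ring
  · rw [hr]
    unfold gf G2
    set E := Real.exp (-(k / 2) * z.im ^ 2 / Complex.normSq z)
    set R := (Complex.normSq z) ^ ((a - 1) / 2)
    have e : Complex.normSq z - z.im ^ 2 = z.re ^ 2 := by rw [hxy]; ring
    rw [← e]
    field_simp
    ring

lemma D_mf (a k : ℝ) {z : ℂ} (hz : z ≠ 0) :
    D (mf a k) z
      (mf a k z * ((1 - z.re ^ 2 * (mf a k z) ^ 2) * G1 a k z - z.re * (mf a k z) ^ 2))
      (mf a k z * ((1 - z.re ^ 2 * (mf a k z) ^ 2) * G2 a k z)) := by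
  have hg := D_gf a k hz
  have hx := D_re z
  have hpos : 0 < 1 + z.re ^ 2 * (gf a k z) ^ 2 := by positivity
  have hx2 : D (fun w => w.re ^ 2) z (2 * z.re * 1) (2 * z.re * 0) := by
    have := hx.comp (hasDerivAt_pow 2 z.re)
    simpa using this
  have hg2 : D (fun w => (gf a k w) ^ 2) z (2 * gf a k z * (gf a k z * G1 a k z))
      (2 * gf a k z * (gf a k z * G2 a k z)) := by
    have := hg.comp (hasDerivAt_pow 2 (gf a k z))
    simpa using this
  have h1 : D (fun w => 1 + w.re ^ 2 * (gf a k w) ^ 2) z _ _ := (D_const 1 z).add (hx2.mul hg2)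
  have h2 : D (fun w => Real.sqrt (1 + w.re ^ 2 * (gf a k w) ^ 2)) z _ _ :=
    h1.comp (Real.hasDerivAt_sqrt hpos.ne')
  have hS : Real.sqrt (1 + z.re ^ 2 * (gf a k z) ^ 2) ≠ 0 := (Real.sqrt_pos.2 hpos).ne'
  have h3 := hg.div h2 hS
  have hSS : Real.sqrt (1 + z.re ^ 2 * (gf a k z) ^ 2) ^ 2 = 1 + z.re ^ 2 * (gf a k z) ^ 2 :=
    Real.sq_sqrt hpos.le
  refine D.congr (f := mf a k) h3 ?_ ?_
  · unfold mf
    set S := Real.sqrt (1 + z.re ^ 2 * (gf a k z) ^ 2)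
    set g := gf a k z
    set x := z.re
    generalize G1 a k z = q
    have : (g * q * S - g * (1 / (2 * S) * (0 + (x ^ 2 * (2 * g * (g * q)) + g ^ 2 * (2 * x * 1))))) / S ^ 2
        - g / S * ((1 - x ^ 2 * (g / S) ^ 2) * q - x * (g / S) ^ 2) = 0 := by
      field_simp
      ring
    linarith
  · unfold mf
    set S := Real.sqrt (1 + z.re ^ 2 * (gf a k z) ^ 2)
    set g := gf a k z
    set x := z.re
    generalize G2 a k z = q
    have : (g * q * S - g * (1 / (2 * S) * (0 + (x ^ 2 * (2 * g * (g * q)) + g ^ 2 * (2 * x * 0))))) / S ^ 2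
        - g / S * ((1 - x ^ 2 * (g / S) ^ 2) * q) = 0 := by
      field_simp
      ring
    linarith

/-- Gradient of `sf`. -/
def S1 (k : ℝ) (z : ℂ) : ℝ :=
  k * (z.im / Complex.normSq z - 2 * z.re ^ 2 * z.im / (Complex.normSq z) ^ 2)
  + (k ^ 2 / 8) * ((3 * z.re ^ 2 * z.im - z.im ^ 3) / (Complex.normSq z) ^ 2
    - 4 * z.re * (z.re * z.im * (z.re ^ 2 - z.im ^ 2)) / (Complex.normSq z) ^ 3)
def S2 (k : ℝ) (z : ℂ) : ℝ :=
  k * (z.re / Complex.normSq z - 2 * z.re * z.im ^ 2 / (Complex.normSq z) ^ 2)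
  + (k ^ 2 / 8) * ((z.re ^ 3 - 3 * z.re * z.im ^ 2) / (Complex.normSq z) ^ 2
    - 4 * z.im * (z.re * z.im * (z.re ^ 2 - z.im ^ 2)) / (Complex.normSq z) ^ 3)

lemma D_pow {f : ℂ → ℝ} {z : ℂ} {A B : ℝ} (h : D f z A B) (n : ℕ) :
    D (fun w => (f w) ^ n) z (n * (f z) ^ (n - 1) * A) (n * (f z) ^ (n - 1) * B) :=
  h.comp (hasDerivAt_pow n (f z))

lemma D_x2 (z : ℂ) : D (fun w => w.re ^ 2) z (2 * z.re) 0 :=
  (D_pow (D_re z) 2).congr (by simp) (by simp)

lemma D_y2 (z : ℂ) : D (fun w => w.im ^ 2) z 0 (2 * z.im) :=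
  (D_pow (D_im z) 2).congr (by simp) (by simp)

lemma D_N2 (z : ℂ) : D (fun w => (Complex.normSq w) ^ 2) z (4 * z.re * Complex.normSq z)
    (4 * z.im * Complex.normSq z) :=
  (D_pow (D_normSq z) 2).congr (by simp; ring) (by simp; ring)

lemma D_q1 (k : ℝ) {z : ℂ} (hz : z ≠ 0) : D (fun w => k * w.re * w.im / Complex.normSq w) z
    (k * (z.im / Complex.normSq z - 2 * z.re ^ 2 * z.im / (Complex.normSq z) ^ 2))
    (k * (z.re / Complex.normSq z - 2 * z.re * z.im ^ 2 / (Complex.normSq z) ^ 2)) := by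
  have hN := (normSq_pos' hz).ne'
  refine ((((D_const k z).mul (D_re z)).mul (D_im z)).div (D_normSq z) hN).congr ?_ ?_
  · field_simp; ring
  · field_simp; ring

lemma D_q2 (k : ℝ) {z : ℂ} (hz : z ≠ 0) :
    D (fun w => (k ^ 2 / 8) * w.re * w.im * (w.re ^ 2 - w.im ^ 2) / (Complex.normSq w) ^ 2) z
    ((k ^ 2 / 8) * ((3 * z.re ^ 2 * z.im - z.im ^ 3) / (Complex.normSq z) ^ 2
      - 4 * z.re * (z.re * z.im * (z.re ^ 2 - z.im ^ 2)) / (Complex.normSq z) ^ 3))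
    ((k ^ 2 / 8) * ((z.re ^ 3 - 3 * z.re * z.im ^ 2) / (Complex.normSq z) ^ 2
      - 4 * z.im * (z.re * z.im * (z.re ^ 2 - z.im ^ 2)) / (Complex.normSq z) ^ 3)) := by
  have hN := (normSq_pos' hz).ne'
  refine (((((D_const (k ^ 2 / 8) z).mul (D_re z)).mul (D_im z)).mul
    ((D_x2 z).sub (D_y2 z))).div (D_N2 z) (pow_ne_zero 2 hN)).congr ?_ ?_
  · field_simp; ring
  · field_simp; ring

lemma D_sf (k : ℝ) {z : ℂ} (hz : z ≠ 0) : D (sf k) z (S1 k z) (S2 k z) :=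
  (D_q1 k hz).add (D_q2 k hz)

/-- Gradient of `mf`. -/
def M1 (a k : ℝ) (z : ℂ) : ℝ :=
  mf a k z * ((1 - z.re ^ 2 * (mf a k z) ^ 2) * G1 a k z - z.re * (mf a k z) ^ 2)
def M2 (a k : ℝ) (z : ℂ) : ℝ :=
  mf a k z * ((1 - z.re ^ 2 * (mf a k z) ^ 2) * G2 a k z)

lemma D_mf' (a k : ℝ) {z : ℂ} (hz : z ≠ 0) : D (mf a k) z (M1 a k z) (M2 a k z) := D_mf a k hz

/-- Gradient of `Wf`. -/
lemma D_Wf (a k : ℝ) {z : ℂ} (hz : z ≠ 0) :
    D (Wf a k) z (mf a k z + z.re * M1 a k z) (z.re * M2 a k z) :=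
  ((D_re z).mul (D_mf' a k hz)).congr (by ring) (by ring)

/-- Gradient of `Pf`. -/
def P1 (a k : ℝ) (z : ℂ) : ℝ :=
  (1 / a) * ((2 * k) * (z.im / Complex.normSq z - 2 * z.re ^ 2 * z.im / (Complex.normSq z) ^ 2)
    + (k ^ 2 / 8) * ((3 * z.re ^ 2 * z.im - z.im ^ 3) / (Complex.normSq z) ^ 2
      - 4 * z.re * (z.re * z.im * (z.re ^ 2 - z.im ^ 2)) / (Complex.normSq z) ^ 3))
  + (3 / a) * (z.im * (mf a k z) ^ 2 + 2 * z.re * z.im * mf a k z * M1 a k z
    - S1 k z * z.re ^ 2 * (mf a k z) ^ 2 - sf k z * (2 * z.re * (mf a k z) ^ 2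
      + 2 * z.re ^ 2 * mf a k z * M1 a k z))
def P2 (a k : ℝ) (z : ℂ) : ℝ :=
  (1 / a) * ((2 * k) * (z.re / Complex.normSq z - 2 * z.re * z.im ^ 2 / (Complex.normSq z) ^ 2)
    + (k ^ 2 / 8) * ((z.re ^ 3 - 3 * z.re * z.im ^ 2) / (Complex.normSq z) ^ 2
      - 4 * z.im * (z.re * z.im * (z.re ^ 2 - z.im ^ 2)) / (Complex.normSq z) ^ 3))
  + (3 / a) * (z.re * (mf a k z) ^ 2 + 2 * z.re * z.im * mf a k z * M2 a k z
    - S2 k z * z.re ^ 2 * (mf a k z) ^ 2 - sf k z * (2 * z.re ^ 2 * mf a k z * M2 a k z))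

lemma D_m2 (a k : ℝ) {z : ℂ} (hz : z ≠ 0) : D (fun w => (mf a k w) ^ 2) z
    (2 * mf a k z * M1 a k z) (2 * mf a k z * M2 a k z) :=
  (D_pow (D_mf' a k hz) 2).congr (by simp) (by simp)

lemma D_m3 (a k : ℝ) {z : ℂ} (hz : z ≠ 0) : D (fun w => (mf a k w) ^ 3) z
    (3 * (mf a k z) ^ 2 * M1 a k z) (3 * (mf a k z) ^ 2 * M2 a k z) :=
  (D_pow (D_mf' a k hz) 3).congr (by simp) (by simp)

lemma D_Pf (a k : ℝ) {z : ℂ} (hz : z ≠ 0) : D (Pf a k) z (P1 a k z) (P2 a k z) := by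
  have hA := (D_q1 (2 * k) hz).add (D_q2 k hz)
  have hB := (((D_re z).mul (D_im z)).mul (D_m2 a k hz)).sub
    (((D_sf k hz).mul (D_x2 z)).mul (D_m2 a k hz))
  have h := ((D_const (1 / a) z).mul hA).add ((D_const (3 / a) z).mul hB)
  refine D.congr (f := Pf a k) h ?_ ?_
  · unfold P1; ring
  · unfold P2; ring

/-- Gradient of `Xf`. -/
def X1 (a k : ℝ) (z : ℂ) : ℝ :=
  (2 / a) * ((-(S1 k z * z.re + sf k z)) * z.re ^ 2 * (mf a k z) ^ 3
    + (z.im - sf k z * z.re) * (2 * z.re) * (mf a k z) ^ 3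
    + (z.im - sf k z * z.re) * z.re ^ 2 * (3 * (mf a k z) ^ 2 * M1 a k z))
  + (1 / a) * ((k * (2 * z.re * z.im / Complex.normSq z
      - 2 * z.re ^ 3 * z.im / (Complex.normSq z) ^ 2)) * mf a k z
    + (z.im + k * z.re ^ 2 * z.im / Complex.normSq z) * M1 a k z)
def X2 (a k : ℝ) (z : ℂ) : ℝ :=
  (2 / a) * ((1 - S2 k z * z.re) * z.re ^ 2 * (mf a k z) ^ 3
    + (z.im - sf k z * z.re) * z.re ^ 2 * (3 * (mf a k z) ^ 2 * M2 a k z))
  + (1 / a) * ((1 + k * (z.re ^ 2 / Complex.normSq z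
      - 2 * z.re ^ 2 * z.im ^ 2 / (Complex.normSq z) ^ 2)) * mf a k z
    + (z.im + k * z.re ^ 2 * z.im / Complex.normSq z) * M2 a k z)

lemma D_Xf (a k : ℝ) {z : ℂ} (hz : z ≠ 0) : D (Xf a k) z (X1 a k z) (X2 a k z) := by
  have hN := (normSq_pos' hz).ne'
  have h1 := (((D_const (2 / a) z).mul ((D_im z).sub ((D_sf k hz).mul (D_re z)))).mul
    (D_x2 z)).mul (D_m3 a k hz)
  have h2 : D (fun w => k * w.re ^ 2 * w.im / Complex.normSq w) z
      (k * (2 * z.re * z.im / Complex.normSq z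
      - 2 * z.re ^ 3 * z.im / (Complex.normSq z) ^ 2))
      (k * (z.re ^ 2 / Complex.normSq z
      - 2 * z.re ^ 2 * z.im ^ 2 / (Complex.normSq z) ^ 2)) := by
    refine ((((D_const k z).mul (D_x2 z)).mul (D_im z)).div (D_normSq z) hN).congr ?_ ?_
    · field_simp; ring
    · field_simp; ring
  have h3 := ((D_const (1 / a) z).mul ((D_im z).add h2)).mul (D_mf' a k hz)
  have h := h1.add h3
  refine D.congr (f := Xf a k) h ?_ ?_
  · unfold X1; ring
  · unfold X2; ring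

lemma ident1 (a k : ℝ) {z : ℂ} (hz : z ≠ 0) (ha : a ≠ 0) :
    X1 a k z - (Wf a k z * P1 a k z - z.re * M2 a k z)
      = -(z.im / Complex.normSq z / a) * ((Wf a k z) ^ 3 - Wf a k z)
        * (a ^ 2 - (1 - k - k ^ 2 / 8)) := by
  have hN := (normSq_pos' hz).ne'
  have hxy : Complex.normSq z = z.re ^ 2 + z.im ^ 2 := by rw [Complex.normSq_apply]; ring
  unfold X1 P1 M1 M2 S1 sf G1 G2 Wf
  generalize Complex.normSq z = N at *
  generalize mf a k z = m
  generalize z.re = x at *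
  generalize z.im = y at *
  field_simp
  subst hxy
  ring

lemma ident2 (a k : ℝ) {z : ℂ} (hz : z ≠ 0) (ha : a ≠ 0) :
    X2 a k z - (Wf a k z * P2 a k z + (mf a k z + z.re * M1 a k z))
      = (z.re / Complex.normSq z / a) * ((Wf a k z) ^ 3 - Wf a k z)
        * (a ^ 2 - (1 - k - k ^ 2 / 8)) := by
  have hN := (normSq_pos' hz).ne'
  have hxy : Complex.normSq z = z.re ^ 2 + z.im ^ 2 := by rw [Complex.normSq_apply]; ring
  unfold X2 P2 M1 M2 S2 sf G1 G2 Wf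
  generalize Complex.normSq z = N at *
  generalize mf a k z = m
  generalize z.re = x at *
  generalize z.im = y at *
  field_simp
  subst hxy
  ring

lemma cd_normSq (z : ℂ) : ContDiffAt ℝ (⊤ : ℕ∞) (fun w : ℂ => Complex.normSq w) z := by
  have h : (fun w : ℂ => Complex.normSq w) = fun w => w.re * w.re + w.im * w.im := by
    funext w; rw [Complex.normSq_apply]
  rw [h]
  exact ((Complex.reCLM.contDiff.mul Complex.reCLM.contDiff).add
    (Complex.imCLM.contDiff.mul Complex.imCLM.contDiff)).contDiffAt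

lemma cd_re (z : ℂ) : ContDiffAt ℝ (⊤ : ℕ∞) (fun w : ℂ => w.re) z :=
  Complex.reCLM.contDiff.contDiffAt

lemma cd_im (z : ℂ) : ContDiffAt ℝ (⊤ : ℕ∞) (fun w : ℂ => w.im) z :=
  Complex.imCLM.contDiff.contDiffAt

lemma cd_gf (a k : ℝ) {z : ℂ} (hz : z ≠ 0) : ContDiffAt ℝ (⊤ : ℕ∞) (gf a k) z := by
  have hN := (normSq_pos' hz).ne'
  exact ((cd_normSq z).rpow_const_of_ne hN).mul
    (((contDiffAt_const.mul ((cd_im z).pow 2)).div (cd_normSq z) hN).exp)

lemma cd_mf (a k : ℝ) {z : ℂ} (hz : z ≠ 0) : ContDiffAt ℝ (⊤ : ℕ∞) (mf a k) z := by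
  have hpos : 0 < 1 + z.re ^ 2 * (gf a k z) ^ 2 := by positivity
  exact (cd_gf a k hz).div ((contDiffAt_const.add (((cd_re z).pow 2).mul
    ((cd_gf a k hz).pow 2))).sqrt hpos.ne') (Real.sqrt_pos.2 hpos).ne'

lemma cd_Wf (a k : ℝ) {z : ℂ} (hz : z ≠ 0) : ContDiffAt ℝ (⊤ : ℕ∞) (Wf a k) z :=
  (cd_re z).mul (cd_mf a k hz)

lemma cd_sf (k : ℝ) {z : ℂ} (hz : z ≠ 0) : ContDiffAt ℝ (⊤ : ℕ∞) (sf k) z := by
  have hN := (normSq_pos' hz).ne'
  exact (((contDiffAt_const.mul (cd_re z)).mul (cd_im z)).div (cd_normSq z) hN).add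
    ((((contDiffAt_const.mul (cd_re z)).mul (cd_im z)).mul
      (((cd_re z).pow 2).sub ((cd_im z).pow 2))).div ((cd_normSq z).pow 2) (pow_ne_zero 2 hN))

lemma cd_Pf (a k : ℝ) {z : ℂ} (hz : z ≠ 0) : ContDiffAt ℝ (⊤ : ℕ∞) (Pf a k) z := by
  have hN := (normSq_pos' hz).ne'
  have hA := (((contDiffAt_const (c := 2 * k)).mul (cd_re z)).mul (cd_im z)).div (cd_normSq z) hN
  have hB := ((((contDiffAt_const (c := k ^ 2 / 8)).mul (cd_re z)).mul (cd_im z)).mul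
      (((cd_re z).pow 2).sub ((cd_im z).pow 2))).div ((cd_normSq z).pow 2) (pow_ne_zero 2 hN)
  exact ((contDiffAt_const (c := 1 / a)).mul (hA.add hB)).add
    ((contDiffAt_const (c := 3 / a)).mul
      ((((cd_re z).mul (cd_im z)).mul ((cd_mf a k hz).pow 2)).sub
        (((cd_sf k hz).mul ((cd_re z).pow 2)).mul ((cd_mf a k hz).pow 2))))

lemma cd_Xf (a k : ℝ) {z : ℂ} (hz : z ≠ 0) : ContDiffAt ℝ (⊤ : ℕ∞) (Xf a k) z := by
  have hN := (normSq_pos' hz).ne'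
  exact ((((contDiffAt_const (c := 2 / a)).mul ((cd_im z).sub ((cd_sf k hz).mul (cd_re z)))).mul
      ((cd_re z).pow 2)).mul ((cd_mf a k hz).pow 3)).add
    (((contDiffAt_const (c := 1 / a)).mul ((cd_im z).add
      (((contDiffAt_const.mul ((cd_re z).pow 2)).mul (cd_im z)).div (cd_normSq z) hN))).mul
      (cd_mf a k hz))

theorem main : S_ID := by
  intro a k ha _ h z hz
  refine ⟨cd_Wf a k hz, cd_Pf a k hz, cd_Xf a k hz, fun v => ?_⟩
  have hX : HasFDerivAt _ _ z := D_Xf a k hz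
  have hP : HasFDerivAt _ _ z := D_Pf a k hz
  have hW : HasFDerivAt _ _ z := D_Wf a k hz
  rw [hX.fderiv, hP.fderiv, hW.fderiv]
  have e1 := ident1 a k hz ha.ne'
  have e2 := ident2 a k hz ha.ne'
  have e1' : X1 a k z = Wf a k z * P1 a k z - z.re * M2 a k z := by
    have : a ^ 2 - (1 - k - k ^ 2 / 8) = 0 := by linarith
    rw [this, mul_zero] at e1; linarith
  have e2' : X2 a k z = Wf a k z * P2 a k z + (mf a k z + z.re * M1 a k z) := by
    have : a ^ 2 - (1 - k - k ^ 2 / 8) = 0 := by linarith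
    rw [this, mul_zero] at e2; linarith
  simp only [add_apply, smul_apply, Complex.reCLM_apply,
    Complex.imCLM_apply, smul_eq_mul, Complex.mul_re, Complex.mul_im, Complex.I_re, Complex.I_im]
  rw [e1', e2']
  ring

end

end Pool.Agent.Helper28.ND.ID
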