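import Pool.Agent.Helper28.ND.BD

namespace Pool.Agent.Helper28.ND.INF
open MeasureTheory Set Filter Topology Pool.Agent.Helper28.ND
open scoped ENNReal

noncomputable section

/-- the function in the plane -/
def F (a k : ℝ) (z : ℂ) : ℝ := Wf a k (wp z)

lemma cdF (hW : S_WPF) (a k : ℝ) {z : ℂ} (hz : z ∉ Bad) : ContDiffAt ℝ (⊤ : ℕ∞) (F a k) z := by
  have h1 : wp z ≠ 0 := hz
  have h2 : ContDiffAt ℝ (⊤ : ℕ∞) wp z :=
    ((hW.2.2.2.2.1 z hz).contDiffAt).restrict_scalars ℝ
  exact (ID.cd_Wf a k h1).comp z h2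

lemma wf_eq (a k : ℝ) (z : ℂ) :
    Wf a k z = (z.re * gf a k z) / Real.sqrt (1 + (z.re * gf a k z) ^ 2) := by
  unfold Wf mf
  rw [mul_pow, mul_div_assoc]

lemma gf_ge (a k : ℝ) {z : ℂ} (hz : z ≠ 0) :
    Real.exp (-|k|) * ‖z‖ ^ (a - 1) ≤ gf a k z := by
  unfold gf
  have hr := BD.rpos hz
  rw [BD.NN hz, ← Real.rpow_natCast ‖z‖ 2, ← Real.rpow_mul hr.le, mul_comm]
  have e1 : ((2 : ℕ) : ℝ) * ((a - 1) / 2) = a - 1 := by push_cast; ring
  rw [e1]
  refine mul_le_mul_of_nonneg_left (Real.exp_le_exp.2 ?_) (by positivity)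
  rw [Real.rpow_natCast]
  have h := neg_le_of_abs_le (BD.mono0 hz (-(k / 2)) 0 2 2 rfl)
  have h3 : |(-(k / 2))| = |k| / 2 := by rw [abs_neg, abs_div, abs_two]
  rw [h3, pow_zero, one_mul] at h
  linarith [abs_nonneg k]

/-- far out in the sector `re ≥ ‖z‖/2` the function is at least `1/2`. -/
lemma far (a k : ℝ) (ha : 0 < a) : ∃ R : ℝ, 0 < R ∧ ∀ z : ℂ, R ≤ ‖z‖ →
    (‖z‖ / 2 ≤ z.re → 1 / 2 ≤ Wf a k z) ∧ (‖z‖ / 2 ≤ -z.re → Wf a k z ≤ -(1 / 2)) := by
  set c := Real.exp (-|k|)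
  have hc : 0 < c := Real.exp_pos _
  have hlim : Tendsto (fun r : ℝ => r ^ a) atTop atTop := tendsto_rpow_atTop ha
  obtain ⟨R, hR⟩ := (hlim.eventually_ge_atTop (2 / c)).exists_forall_of_atTop
  refine ⟨max R 1, by positivity, fun z hz => ?_⟩
  have hr1 : 1 ≤ ‖z‖ := le_trans (le_max_right _ _) hz
  have hr : 0 < ‖z‖ := by linarith
  have hz0 : z ≠ 0 := norm_pos_iff.1 hr
  have hra : 2 / c ≤ ‖z‖ ^ a := hR _ (le_trans (le_max_left _ _) hz)
  have hg := gf_ge a k hz0
  have e : ‖z‖ * ‖z‖ ^ (a - 1) = ‖z‖ ^ a := by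
    nth_rewrite 1 [← Real.rpow_one ‖z‖]
    rw [← Real.rpow_add hr]; congr 1; ring
  have key : ∀ y : ℝ, ‖z‖ / 2 ≤ y → 1 ≤ y * gf a k z := by
    intro y hy
    have hg0 := ID.gf_pos a k hz0
    calc (1:ℝ) = (c / 2) * (2 / c) := by field_simp
      _ ≤ (c / 2) * ‖z‖ ^ a := mul_le_mul_of_nonneg_left hra (by positivity)
      _ = (‖z‖ / 2) * (c * ‖z‖ ^ (a - 1)) := by rw [← e]; ring
      _ ≤ (‖z‖ / 2) * gf a k z := mul_le_mul_of_nonneg_left hg (by positivity)
      _ ≤ y * gf a k z := mul_le_mul_of_nonneg_right hy hg0.le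
  have half : ∀ x : ℝ, 1 ≤ x → 1 / 2 ≤ x / Real.sqrt (1 + x ^ 2) := by
    intro x hx
    have hs : 0 < Real.sqrt (1 + x ^ 2) := Real.sqrt_pos.2 (by positivity)
    rw [div_le_div_iff₀ (by norm_num) hs, one_mul]
    rw [Real.sqrt_le_left (by linarith)]
    nlinarith
  constructor
  · intro h
    rw [wf_eq]
    exact half _ (key _ h)
  · intro h
    have h1 := half _ (key _ h)
    rw [wf_eq]
    have e2 : (z.re * gf a k z) ^ 2 = (-z.re * gf a k z) ^ 2 := by ring
    rw [e2]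
    have e3 : z.re * gf a k z = -(-z.re * gf a k z) := by ring
    rw [e3, neg_div]
    linarith

/-- local facts near zero. -/
lemma near (hW : S_WPF) (a k : ℝ) (ha : 0 < a) : ∃ s0 : ℝ, 0 < s0 ∧ s0 < 1 ∧
    (∀ z : ℂ, z ≠ 0 → ‖z‖ ≤ s0 → z ∉ Bad) ∧
    (∀ s : ℝ, 0 < s → s ≤ s0 → 1 / 2 ≤ F a k (s : ℂ) ∧ F a k (s * Complex.I) ≤ -(1 / 2)) := by
  obtain ⟨R, hR0, hR⟩ := far a k ha
  have ht := hW.2.2.2.2.2.2
  have h1 : ∀ᶠ z : ℂ in 𝓝[≠] 0, ‖z ^ 2 * wp z - 1‖ < 1 / 4 := by
    have := (Metric.tendsto_nhds.1 ht) (1 / 4) (by norm_num)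
    simpa [dist_eq_norm] using this
  rw [eventually_nhdsWithin_iff, Metric.eventually_nhds_iff] at h1
  obtain ⟨e, he, h1⟩ := h1
  have hsq : 0 < Real.sqrt (3 / 4 / R) := Real.sqrt_pos.2 (by positivity)
  refine ⟨min (e / 2) (min (1 / 2) (Real.sqrt (3 / 4 / R))), by positivity, ?_, ?_, ?_⟩
  · exact lt_of_le_of_lt (le_trans (min_le_right _ _) (min_le_left _ _)) (by norm_num)
  · intro z hz hz2 hb
    have h2 : dist z 0 < e := by
      rw [dist_zero_right]
      have := le_trans hz2 (min_le_left _ _)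
      linarith
    have h3 := h1 h2 hz
    have h4 : wp z = 0 := hb
    rw [h4, mul_zero, zero_sub, norm_neg, norm_one] at h3
    norm_num at h3
  · intro s hs hs2
    have hse : s < e := by
      have := le_trans hs2 (min_le_left _ _)
      linarith
    have hsR : s ≤ Real.sqrt (3 / 4 / R) :=
      le_trans hs2 (le_trans (min_le_right _ _) (min_le_right _ _))
    have hsR2 : s ^ 2 ≤ 3 / 4 / R := by
      calc s ^ 2 ≤ (Real.sqrt (3 / 4 / R)) ^ 2 := by gcongr
        _ = _ := Real.sq_sqrt (by positivity)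
    have hRs : R ≤ 3 / 4 / s ^ 2 := by
      rw [le_div_iff₀ (by positivity)] at *
      nlinarith
    have hs2pos : 0 < s ^ 2 := by positivity
    -- generic statement
    have gen : ∀ ζ w : ℂ, ‖w - 1‖ < 1 / 4 → ((s ^ 2 : ℝ) : ℂ) * ζ = w →
        R ≤ ‖ζ‖ ∧ ‖ζ‖ / 2 ≤ ζ.re := by
      intro ζ w hw hζ
      have e1 : ζ.re = w.re / s ^ 2 := by
        rw [← hζ, Complex.re_ofReal_mul]; field_simp
      have e2 : ‖ζ‖ = ‖w‖ / s ^ 2 := by
        rw [← hζ, norm_mul, Complex.norm_real, Real.norm_of_nonneg hs2pos.le]; field_simp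
      have w1 : 3 / 4 ≤ w.re := by
        have := neg_le_of_abs_le (le_trans (Complex.abs_re_le_norm (w - 1)) hw.le)
        simp at this; linarith
      have w2 : ‖w‖ ≤ 5 / 4 := by
        calc ‖w‖ = ‖(w - 1) + 1‖ := by ring_nf
          _ ≤ ‖w - 1‖ + ‖(1:ℂ)‖ := norm_add_le _ _
          _ ≤ _ := by rw [norm_one]; linarith
      have w3 : 3 / 4 ≤ ‖w‖ := le_trans w1 (le_trans (le_abs_self _) (Complex.abs_re_le_norm w))
      constructor
      · rw [e2]; exact le_trans hRs (by gcongr)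
      · rw [e1, e2, div_div, div_le_div_iff₀ (by positivity) hs2pos]
        nlinarith
    constructor
    · have hd : dist (s : ℂ) 0 < e := by
        rw [dist_zero_right, Complex.norm_real, Real.norm_of_nonneg hs.le]; exact hse
      have h3 := h1 hd (by simpa using hs.ne')
      have g := gen (wp s) (((s : ℂ)) ^ 2 * wp s) h3 (by push_cast; ring)
      exact (hR _ g.1).1 g.2
    · have hd : dist ((s : ℂ) * Complex.I) 0 < e := by
        rw [dist_zero_right, norm_mul, Complex.norm_real, Real.norm_of_nonneg hs.le,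
          Complex.norm_I, mul_one]; exact hse
      have h3 := h1 hd (by simpa using hs.ne')
      have g := gen (-wp ((s : ℂ) * Complex.I)) (((s : ℂ) * Complex.I) ^ 2 * wp ((s : ℂ) * Complex.I)) h3
        (by rw [mul_pow, Complex.I_sq]; push_cast; ring)
      rw [norm_neg] at g
      exact (hR _ g.1).2 (by simpa using g.2)

/-- the squared gradient. -/
def gg (a k : ℝ) (z : ℂ) : ℝ :=
  (fderiv ℝ (F a k) z 1) ^ 2 + (fderiv ℝ (F a k) z Complex.I) ^ 2

def path (s t : ℝ) : ℂ := ⟨s - t, t⟩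

lemma path_norm {s t : ℝ} (hs : 0 < s) (h0 : 0 ≤ t) (h1 : t ≤ s) :
    path s t ≠ 0 ∧ ‖path s t‖ ≤ s := by
  constructor
  · intro h
    have e1 := congrArg Complex.re h
    have e2 := congrArg Complex.im h
    simp [path] at e1 e2
    linarith
  · have : ‖path s t‖ ^ 2 ≤ s ^ 2 := by
      rw [← Complex.normSq_eq_norm_sq, Complex.normSq_apply]
      simp only [path]
      nlinarith
    exact (sq_le_sq₀ (norm_nonneg _) hs.le).1 this

lemma seg (hW : S_WPF) (a k : ℝ) {s0 : ℝ}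
    (hB : ∀ z : ℂ, z ≠ 0 → ‖z‖ ≤ s0 → z ∉ Bad) {s : ℝ} (hs : 0 < s) (hs0 : s ≤ s0)
    (h1 : 1 / 2 ≤ F a k (s : ℂ)) (h2 : F a k (s * Complex.I) ≤ -(1 / 2)) :
    ENNReal.ofReal (1 / (2 * s)) ≤ ∫⁻ t in Ioo 0 s, ENNReal.ofReal (gg a k (path s t)) := by
  have hcd : ∀ t ∈ Icc 0 s, ContDiffAt ℝ (⊤ : ℕ∞) (F a k) (path s t) := by
    intro t ht
    have := path_norm hs ht.1 ht.2
    exact cdF hW a k (hB _ this.1 (le_trans this.2 hs0))
  have hpath : ∀ t : ℝ, HasDerivAt (path s) (-1 + Complex.I) t := by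
    intro t
    have e : path s = fun t : ℝ => (s : ℂ) - (t : ℂ) + (t : ℂ) * Complex.I := by
      funext t; apply Complex.ext <;> simp [path]
    rw [e]
    have h1 : HasDerivAt (fun t : ℝ => (t : ℂ)) 1 t := by
      simpa using (hasDerivAt_id t).ofReal_comp
    exact (((hasDerivAt_const t (s : ℂ)).sub h1).add (h1.mul_const Complex.I)).congr_deriv
      (by simp)
  have hpc : Continuous (path s) := continuous_iff_continuousAt.2 fun t => (hpath t).continuousAt
  set h : ℝ → ℝ := fun t => fderiv ℝ (F a k) (path s t) (-1 + Complex.I) with hh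
  have hder : ∀ t ∈ uIcc 0 s, HasDerivAt (fun t => F a k (path s t)) (h t) t := by
    intro t ht
    rw [uIcc_of_le hs.le] at ht
    have h3 := ((hcd t ht).differentiableAt (by simp)).hasFDerivAt
    exact h3.comp_hasDerivAt t (hpath t)
  have hfdc : ContinuousOn (fun t => fderiv ℝ (F a k) (path s t)) (Icc 0 s) := by
    intro t ht
    have h3 : ContinuousAt (fderiv ℝ (F a k)) (path s t) :=
      ((hcd t ht).fderiv_right (m := 0) (by simp)).continuousAt
    exact (ContinuousAt.comp (f := path s) h3 hpc.continuousAt).continuousWithinAt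
  have hc : ContinuousOn h (Icc 0 s) := hfdc.clm_apply continuousOn_const
  have hg : ContinuousOn (fun t => gg a k (path s t)) (Icc 0 s) :=
    ((hfdc.clm_apply continuousOn_const).pow 2).add ((hfdc.clm_apply continuousOn_const).pow 2)
  have hint : ∫ t in (0:ℝ)..s, h t = F a k (path s s) - F a k (path s 0) :=
    intervalIntegral.integral_eq_sub_of_hasDerivAt hder
      (hc.mono (by rw [uIcc_of_le hs.le])).intervalIntegrable
  have p0 : path s 0 = (s : ℂ) := by apply Complex.ext <;> simp [path]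
  have p1 : path s s = (s : ℂ) * Complex.I := by apply Complex.ext <;> simp [path]
  rw [p0, p1] at hint
  -- -h ≤ (s/2) h^2 + 1/(2s) ≤ s g + 1/(2s)
  have hpt : ∀ t ∈ Icc 0 s, -h t ≤ s * gg a k (path s t) + 1 / (2 * s) := by
    intro t _
    have e : h t = -(fderiv ℝ (F a k) (path s t) 1) + fderiv ℝ (F a k) (path s t) Complex.I := by
      simp only [hh]; rw [map_add, map_neg]
    rw [e]
    unfold gg
    set p := fderiv ℝ (F a k) (path s t) 1
    set q := fderiv ℝ (F a k) (path s t) Complex.I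
    have h5 : 0 ≤ s / 2 * (p - q - 1 / s) ^ 2 := by positivity
    have h6 : s / 2 * (p - q - 1 / s) ^ 2 = s / 2 * (p - q) ^ 2 - (p - q) + 1 / (2 * s) := by
      field_simp
      ring
    have h7 : s / 2 * (p - q) ^ 2 ≤ s * (p ^ 2 + q ^ 2) := by
      nlinarith [mul_nonneg hs.le (sq_nonneg (p + q))]
    linarith
  have hI1 : IntervalIntegrable (fun t => -h t) volume 0 s :=
    (hc.mono (by rw [uIcc_of_le hs.le])).intervalIntegrable.neg
  have hI2 : IntervalIntegrable (fun t => gg a k (path s t)) volume 0 s :=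
    (hg.mono (by rw [uIcc_of_le hs.le])).intervalIntegrable
  have hI3 : IntervalIntegrable (fun t => s * gg a k (path s t) + 1 / (2 * s)) volume 0 s :=
    (hI2.const_mul s).add intervalIntegrable_const
  have hmono := intervalIntegral.integral_mono_on hs.le hI1 hI3 hpt
  rw [intervalIntegral.integral_neg, hint, intervalIntegral.integral_add (hI2.const_mul s)
    intervalIntegrable_const, intervalIntegral.integral_const_mul,
    intervalIntegral.integral_const, smul_eq_mul, sub_zero] at hmono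
  have e9 : s * (1 / (2 * s)) = 1 / 2 := by field_simp
  rw [e9] at hmono
  have hlow : 1 / (2 * s) ≤ ∫ t in (0:ℝ)..s, gg a k (path s t) := by
    rw [div_le_iff₀ (by positivity)]
    nlinarith
  rw [intervalIntegral.integral_of_le hs.le] at hlow
  have hgi : IntegrableOn (fun t => gg a k (path s t)) (Ioc 0 s) :=
    (intervalIntegrable_iff_integrableOn_Ioc_of_le hs.le).1 hI2
  have hnn : ∀ t, 0 ≤ gg a k (path s t) := fun t => by unfold gg; positivity
  calc ENNReal.ofReal (1 / (2 * s)) ≤ ENNReal.ofReal (∫ t in Ioc 0 s, gg a k (path s t)) :=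
        ENNReal.ofReal_le_ofReal hlow
    _ = ∫⁻ t in Ioc 0 s, ENNReal.ofReal (gg a k (path s t)) :=
        ofReal_integral_eq_lintegral_ofReal hgi (Eventually.of_forall hnn)
    _ = ∫⁻ t in Ioo 0 s, ENNReal.ofReal (gg a k (path s t)) := by
        rw [restrict_Ioo_eq_restrict_Ioc]

/-- the projection as a continuous linear map -/
def prjL {d : ℕ} (hd : 2 ≤ d) : (Fin d → ℝ) →L[ℝ] ℂ :=
  (ContinuousLinearMap.proj (R := ℝ) (φ := fun _ : Fin d => ℝ) (i0 hd)).smulRight (1 : ℂ)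
    + (ContinuousLinearMap.proj (R := ℝ) (φ := fun _ : Fin d => ℝ) (i1 hd)).smulRight Complex.I

lemma prjL_apply {d : ℕ} (hd : 2 ≤ d) (x : Fin d → ℝ) : prjL hd x = prj hd x := by
  apply Complex.ext <;> simp [prjL, prj, i0, i1]

lemma hasF_prj {d : ℕ} (hd : 2 ≤ d) (x : Fin d → ℝ) : HasFDerivAt (prj hd) (prjL hd) x := by
  have h : prj hd = fun x => prjL hd x := by funext x; rw [prjL_apply]
  rw [h]
  exact (prjL hd).hasFDerivAt

lemma i0_ne_i1 {d : ℕ} (hd : 2 ≤ d) : i0 hd ≠ i1 hd := by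
  intro h; simp [i0, i1] at h

lemma pd_cp {d : ℕ} (hd : 2 ≤ d) (H : ℂ → ℝ) (x : Fin d → ℝ)
    (hH : DifferentiableAt ℝ H (prj hd x)) :
    pd (i0 hd) (fun y => H (prj hd y)) x = fderiv ℝ H (prj hd x) 1 ∧
    pd (i1 hd) (fun y => H (prj hd y)) x = fderiv ℝ H (prj hd x) Complex.I := by
  have h := (hH.hasFDerivAt.comp x (hasF_prj hd x)).fderiv
  have h' : fderiv ℝ (fun y => H (prj hd y)) x = (fderiv ℝ H (prj hd x)).comp (prjL hd) := h
  unfold pd
  rw [h', ContinuousLinearMap.comp_apply, ContinuousLinearMap.comp_apply]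
  constructor
  · congr 1
    simp [prjL, (i0_ne_i1 hd).symm]
  · congr 1
    simp [prjL, (i0_ne_i1 hd)]

lemma gg_meas (a k : ℝ) : Measurable (gg a k) :=
  ((measurable_fderiv_apply_const ℝ (F a k) 1).pow_const 2).add
    ((measurable_fderiv_apply_const ℝ (F a k) Complex.I).pow_const 2)

def Tri (s0 : ℝ) : Set ℂ := {z | 0 < z.re ∧ 0 < z.im ∧ z.re + z.im < s0}

lemma Tri_meas (s0 : ℝ) : MeasurableSet (Tri s0) := by
  have h1 : IsOpen {z : ℂ | 0 < z.re} := isOpen_lt continuous_const Complex.continuous_re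
  have h2 : IsOpen {z : ℂ | 0 < z.im} := isOpen_lt continuous_const Complex.continuous_im
  have h3 : IsOpen {z : ℂ | z.re + z.im < s0} :=
    isOpen_lt (Complex.continuous_re.add Complex.continuous_im) continuous_const
  exact (h1.inter (h2.inter h3)).measurableSet

lemma tri_int (H : ℂ → ℝ≥0∞) (hH : Measurable H) :
    ∫⁻ z, H z = ∫⁻ s : ℝ, ∫⁻ t : ℝ, H (path s t) := by
  have e1 : ∫⁻ z, H z = ∫⁻ p : ℝ × ℝ, H (Complex.measurableEquivRealProd.symm p) :=
    (Complex.volume_preserving_equiv_real_prod.symm.lintegral_comp hH).symm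
  have hm : Measurable fun p : ℝ × ℝ => H (Complex.measurableEquivRealProd.symm p) :=
    hH.comp Complex.measurableEquivRealProd.symm.measurable
  rw [e1]
  rw [show (volume : Measure (ℝ × ℝ)) = (volume : Measure ℝ).prod (volume : Measure ℝ) from rfl]
  rw [lintegral_prod_symm _ hm.aemeasurable]
  have e2 : ∀ y : ℝ, ∫⁻ x : ℝ, H (Complex.measurableEquivRealProd.symm (x, y))
      = ∫⁻ s : ℝ, H (path s y) := by
    intro y
    rw [← lintegral_sub_right_eq_self (fun x : ℝ => H (Complex.measurableEquivRealProd.symm (x, y))) y]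
    rfl
  simp_rw [e2]
  have hpm : Measurable fun p : ℝ × ℝ => path p.2 p.1 := by
    have : Continuous fun p : ℝ × ℝ => path p.2 p.1 := by
      have e : (fun p : ℝ × ℝ => path p.2 p.1)
          = fun p => (((p.2 - p.1 : ℝ)) : ℂ) + ((p.1 : ℝ) : ℂ) * Complex.I := by
        funext p; apply Complex.ext <;> simp [path]
      rw [e]
      fun_prop
    exact this.measurable
  rw [lintegral_lintegral_swap]
  exact (hH.comp hpm).aemeasurable

lemma inv_top {s0 : ℝ} (hs0 : 0 < s0) : ∫⁻ s in Ioo 0 s0, ENNReal.ofReal (1 / (2 * s)) = ⊤ := by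
  by_contra hne
  have hlt : ∫⁻ s in Ioo 0 s0, ENNReal.ofReal (1 / (2 * s)) < ⊤ := lt_top_iff_ne_top.2 hne
  have hI : IntegrableOn (fun s : ℝ => 1 / (2 * s)) (Ioo 0 s0) := by
    refine ⟨(by fun_prop : Measurable fun s : ℝ => 1 / (2 * s)).aestronglyMeasurable, ?_⟩
    rw [hasFiniteIntegral_iff_norm]
    refine lt_of_eq_of_lt ?_ hlt
    refine setLIntegral_congr_fun measurableSet_Ioo fun s hs => ?_
    have : 0 ≤ 1 / (2 * s) := by have := hs.1; positivity
    simp only [Real.norm_of_nonneg this]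
  have hI2 : IntegrableOn (fun s : ℝ => s⁻¹) (Ioc 0 s0) := by
    rw [integrableOn_Ioc_iff_integrableOn_Ioo]
    have := hI.const_mul 2
    refine this.congr ?_
    refine (ae_restrict_iff' measurableSet_Ioo).2 (Eventually.of_forall fun s hs => ?_)
    have := hs.1
    field_simp
  have hI3 : IntervalIntegrable (fun s : ℝ => s⁻¹) volume 0 s0 :=
    (intervalIntegrable_iff_integrableOn_Ioc_of_le hs0.le).2 hI2
  rw [intervalIntegrable_inv_iff] at hI3
  rcases hI3 with h | h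
  · exact hs0.ne h
  · exact h (left_mem_uIcc)

theorem main (hW : S_WPF) (hP : S_PRJ) : S_INF := by
  intro a k ha _ _ d hd
  obtain ⟨s0, hs0, hs1, hB, hF⟩ := near hW a k ha
  have hBm : MeasurableSet (Badᶜ : Set ℂ) := hW.2.2.1.isOpen_compl.measurableSet
  set G : ℂ → ℝ≥0∞ := (Badᶜ : Set ℂ).indicator fun z => ENNReal.ofReal (gg a k z) with hG
  have hGm : Measurable G := ((gg_meas a k).ennreal_ofReal).indicator hBm
  rw [eq_top_iff]
  have hle : ∫⁻ x in Q d, G (prj hd x) ≤ ∫⁻ x in Q d, ENNReal.ofReal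
      ((pd (i0 hd) (cp hd (Wf a k)) x) ^ 2 + (pd (i1 hd) (cp hd (Wf a k)) x) ^ 2) := by
    refine lintegral_mono fun x => ?_
    by_cases hx : prj hd x ∈ (Badᶜ : Set ℂ)
    · rw [hG, indicator_of_mem hx]
      have h2 := pd_cp hd (F a k) x ((cdF hW a k hx).differentiableAt (by simp))
      have e0 : pd (i0 hd) (cp hd (Wf a k)) x = fderiv ℝ (F a k) (prj hd x) 1 := h2.1
      have e1 : pd (i1 hd) (cp hd (Wf a k)) x = fderiv ℝ (F a k) (prj hd x) Complex.I := h2.2
      rw [e0, e1]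
      exact le_rfl
    · rw [hG, indicator_of_notMem hx]; exact bot_le
  refine le_trans ?_ hle
  rw [hP d hd G hGm]
  have hTS : Tri s0 ⊆ Sq := by
    intro z hz
    obtain ⟨h1, h2, h3⟩ := hz
    exact ⟨⟨h1, by linarith⟩, ⟨h2, by linarith⟩⟩
  refine le_trans ?_ (lintegral_mono_set hTS)
  rw [← lintegral_indicator (Tri_meas s0), tri_int _ (hGm.indicator (Tri_meas s0)),
    ← inv_top hs0, ← lintegral_indicator measurableSet_Ioo]
  refine lintegral_mono fun s => ?_
  by_cases hs : s ∈ Ioo 0 s0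
  · rw [indicator_of_mem hs]
    refine le_trans (seg hW a k hB hs.1 hs.2.le (hF s hs.1 hs.2.le).1 (hF s hs.1 hs.2.le).2) ?_
    rw [← lintegral_indicator measurableSet_Ioo]
    refine lintegral_mono fun t => ?_
    by_cases ht : t ∈ Ioo 0 s
    · rw [indicator_of_mem ht]
      have hT : path s t ∈ Tri s0 := by
        refine ⟨?_, ?_, ?_⟩ <;> simp only [path] <;> linarith [ht.1, ht.2, hs.2]
      rw [indicator_of_mem hT, hG]
      have hp := path_norm hs.1 ht.1.le ht.2.le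
      rw [indicator_of_mem (show path s t ∈ (Badᶜ : Set ℂ) from
        hB _ hp.1 (le_trans hp.2 hs.2.le))]
    · rw [indicator_of_notMem ht]; exact bot_le
  · rw [indicator_of_notMem hs]; exact bot_le

end

end Pool.Agent.Helper28.ND.INF
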