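import Pool.Agent.Helper84.ND.IBPW
import Pool.Agent.Helper98.ND.INTG

namespace Pool.Agent.Helper28.ND.NSO
open MeasureTheory Set Filter Topology Pool.Agent.Helper28.ND Pool.Agent.Helper84.ND
open scoped ENNReal NNReal

noncomputable section

lemma slice {d : ℕ} {f : ℝ → (Fin d → ℝ) → ℝ} (hf : SmoothPer f) (t : ℝ) :
    ContDiff ℝ (⊤ : ℕ∞) (f t) :=
  hf.smooth.comp (contDiff_const.prodMk contDiff_id)

lemma cd_pd {d : ℕ} {f : (Fin d → ℝ) → ℝ} (hf : ContDiff ℝ (⊤ : ℕ∞) f) (i : Fin d) :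
    ContDiff ℝ (⊤ : ℕ∞) (pd i f) :=
  (hf.fderiv_right (m := (⊤ : ℕ∞)) (by simp)).clm_apply contDiff_const

lemma per_pd {d : ℕ} {f : (Fin d → ℝ) → ℝ} (pf : Per f) (i : Fin d) : Per (pd i f) := by
  intro x k
  have h1 : (fun y : Fin d → ℝ => f (y + fun i => (k i : ℝ))) = f := by
    funext y; exact pf y k
  have h2 : fderiv ℝ (fun y : Fin d → ℝ => f (y + fun i => (k i : ℝ))) x
      = fderiv ℝ f (x + fun i => (k i : ℝ)) := fderiv_comp_add_right _
  rw [h1] at h2
  unfold pd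
  rw [h2]
  rfl

lemma mul_int {d : ℕ} {g h : (Fin d → ℝ) → ℝ} (hg : IntegrableOn g (Q d)) (hh : Continuous h) :
    IntegrableOn (fun x => g x * h x) (Q d) := by
  obtain ⟨M, hM0, hM⟩ := bounded_on_Q h hh
  refine Integrable.mono' (hg.norm.mul_const M)
    (hg.aestronglyMeasurable.mul hh.aestronglyMeasurable) ?_
  filter_upwards [ae_restrict_mem (measurableSet_Q d)] with x hx
  rw [norm_mul]
  exact mul_le_mul_of_nonneg_left (hM x hx) (norm_nonneg _)

lemma prj_single_other {d : ℕ} (hd : 2 ≤ d) (i : Fin d) (h0 : i ≠ i0 hd) (h1 : i ≠ i1 hd) :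
    prj hd (Pi.single i 1) = 0 := by
  apply Complex.ext
  · show (Pi.single i (1:ℝ) : Fin d → ℝ) (i0 hd) = 0
    rw [Pi.single_eq_of_ne h0.symm]
  · show (Pi.single i (1:ℝ) : Fin d → ℝ) (i1 hd) = 0
    rw [Pi.single_eq_of_ne h1.symm]

lemma ne01 {d : ℕ} (hd : 2 ≤ d) : i0 hd ≠ i1 hd := by
  intro h; simp [i0, i1] at h

/-- the static identity -/
lemma static (hBD : S_BD) (hI : S_IBPW) (hC : S_CURL) (hCh : S_CHAIN) (hW : S_WPF) (hP : S_PRJ)
    {a k : ℝ} (ha : 0 < a) (ha4 : a < 1 / 4) (h : a ^ 2 = 1 - k - k ^ 2 / 8)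
    {d : ℕ} (hd : 2 ≤ d) (t : ℝ) (φ : (Fin d → ℝ) → ℝ) (hφ : ContDiff ℝ (⊤ : ℕ∞) φ) (pφ : Per φ) :
    IntegrableOn (fun x => cp hd (Wf a k) x * ((∑ i, bN a k hd t x i * pd i φ x) + lap φ x)) (Q d) ∧
    ∫ x in Q d, cp hd (Wf a k) x * ((∑ i, bN a k hd t x i * pd i φ x) + lap φ x) = 0 := by
  have ha1 : a < 1 := by linarith
  obtain ⟨gW, gP, gX, hW1⟩ := hBD a k ha ha1 h
  obtain ⟨wm, wp', wi, wpi, wibp⟩ := hI a ha ha4 _ gW d hd
  obtain ⟨xm, xp', xi, xpi, xibp⟩ := hI a ha ha4 _ gX d hd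
  set w := cp hd (Wf a k) with hw
  set χ := cp hd (Xf a k) with hχ
  have hcurl := hC a ha ha4 _ gX d hd φ
    (contDiff_infty.1 hφ 2) pφ
  have hpφ : ∀ i, Continuous (pd i φ) := fun i => (cd_pd hφ i).continuous
  have hppφ : ∀ i, Continuous (pd i (pd i φ)) := fun i => (cd_pd (cd_pd hφ i) i).continuous
  have i1' : ∀ i, IntegrableOn (fun x => pd i w x * pd i φ x) (Q d) := fun i =>
    mul_int (wpi i) (hpφ i)
  have i2' : ∀ i, IntegrableOn (fun x => w x * pd i (pd i φ) x) (Q d) := fun i =>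
    mul_int wi (hppφ i)
  have i3 : IntegrableOn (fun x => pd (i0 hd) χ x * pd (i1 hd) φ x
      - pd (i1 hd) χ x * pd (i0 hd) φ x) (Q d) :=
    (mul_int (xpi _) (hpφ _)).sub (mul_int (xpi _) (hpφ _))
  have i4 : IntegrableOn (fun x => ∑ i, (pd i w x * pd i φ x + w x * pd i (pd i φ) x)) (Q d) :=
    integrable_finsetSum (f := fun i x => pd i w x * pd i φ x + w x * pd i (pd i φ) x) _
      fun i _ => (i1' i).add (i2' i)
  have hae : (fun x => w x * ((∑ i, bN a k hd t x i * pd i φ x) + lap φ x))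
      =ᵐ[volume.restrict (Q d)] fun x => (pd (i0 hd) χ x * pd (i1 hd) φ x
      - pd (i1 hd) χ x * pd (i0 hd) φ x) + ∑ i, (pd i w x * pd i φ x + w x * pd i (pd i φ) x) := by
    filter_upwards [ae_not_bad hW hP hd] with x hx
    obtain ⟨c0, c1⟩ := hCh a k ha ha1 h d hd x hx
    have hw0 : wp (prj hd x) ≠ 0 := hx
    have oth : ∀ i, i ≠ i0 hd ∧ i ≠ i1 hd → pd i w x = 0 := by
      intro i hi
      rw [hw, pd_cp hd (Wf a k) x i (hW.2.2.2.2.1 _ hx)
        ((gW.smooth _ hw0).differentiableAt (by simp)), prj_single_other hd i hi.1 hi.2]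
      simp
    have s1 : ∑ i, bN a k hd t x i * pd i φ x
        = -pd (i1 hd) (cp hd (Pf a k)) x * pd (i0 hd) φ x
          + pd (i0 hd) (cp hd (Pf a k)) x * pd (i1 hd) φ x := by
      rw [Fintype.sum_eq_add (i0 hd) (i1 hd) (ne01 hd)]
      · simp [bN, (ne01 hd).symm]
      · intro i hi
        simp [bN, hi.1, hi.2]
    have s2 : ∑ i, pd i w x * pd i φ x
        = pd (i0 hd) w x * pd (i0 hd) φ x + pd (i1 hd) w x * pd (i1 hd) φ x := by
      rw [Fintype.sum_eq_add (i0 hd) (i1 hd) (ne01 hd)]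
      intro i hi
      rw [oth i hi, zero_mul]
    rw [Finset.sum_add_distrib, s2, s1]
    unfold lap
    rw [mul_add, Finset.mul_sum]
    simp only [← hw, ← hχ] at c0 c1
    rw [c0, c1]
    ring
  refine ⟨(i3.add i4).congr hae.symm, ?_⟩
  rw [integral_congr_ae hae, integral_add i3 i4, hcurl,
    integral_finsetSum (f := fun i x => pd i w x * pd i φ x + w x * pd i (pd i φ) x) _
      (fun i _ => (i1' i).add (i2' i)), zero_add]
  refine Finset.sum_eq_zero fun i _ => ?_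
  rw [integral_add (i1' i) (i2' i), wibp i (pd i φ) ((cd_pd hφ i).of_le
    (by exact_mod_cast (le_top : (1 : ℕ∞) ≤ ⊤)))
    (per_pd pφ i)]
  ring

lemma hasDeriv_time {d : ℕ} {f : ℝ → (Fin d → ℝ) → ℝ} (hf : SmoothPer f) (t : ℝ)
    (x : Fin d → ℝ) :
    HasDerivAt (fun s => f s x) (fderiv ℝ (U f) (t, x) (1, 0)) t := by
  have h1 : HasFDerivAt (U f) (fderiv ℝ (U f) (t, x)) (t, x) :=
    (hf.smooth.differentiable (by simp) (t, x)).hasFDerivAt
  have h2 : HasDerivAt (fun s : ℝ => (s, x)) ((1 : ℝ), (0 : Fin d → ℝ)) t :=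
    (hasDerivAt_id t).prodMk (hasDerivAt_const t x)
  exact h1.comp_hasDerivAt t h2

lemma dt_eq {d : ℕ} {f : ℝ → (Fin d → ℝ) → ℝ} (hf : SmoothPer f) (t : ℝ) (x : Fin d → ℝ) :
    dt f t x = fderiv ℝ (U f) (t, x) (1, 0) := (hasDeriv_time hf t x).deriv

lemma dt_cont {d : ℕ} {f : ℝ → (Fin d → ℝ) → ℝ} (hf : SmoothPer f) :
    Continuous (fun z : ℝ × (Fin d → ℝ) => dt f z.1 z.2) := by
  have : (fun z : ℝ × (Fin d → ℝ) => dt f z.1 z.2) = fun z => fderiv ℝ (U f) z (1, 0) := by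
    funext z; exact dt_eq hf z.1 z.2
  rw [this]
  exact (hf.smooth.continuous_fderiv (by simp)).clm_apply continuous_const

theorem main (hBD : S_BD) (hI : S_IBPW) (hC : S_CURL) (hCh : S_CHAIN) (hW : S_WPF) (hP : S_PRJ) :
    S_NSO := by
  intro a k ha ha4 h d hd T q hT
  have ha1 : a < 1 := by linarith
  obtain ⟨gW, gP, gX, hW1⟩ := hBD a k ha ha1 h
  obtain ⟨wm, wper, wi, wpi, wibp⟩ := hI a ha ha4 _ gW d hd
  have hw1 : ∀ x, |cp hd (Wf a k) x| ≤ 1 := fun x => hW1 _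
  have : IsFiniteMeasure (volume.restrict (Q d)) := ⟨by
    rw [Measure.restrict_apply_univ, Pool.Agent.Helper98.ND.INTG.vol_Q]; exact ENNReal.one_lt_top⟩
  have hLq : eLpNorm (cp hd (Wf a k)) q (volume.restrict (Q d)) < ⊤ :=
    (MemLp.of_bound wm.aestronglyMeasurable 1 (Eventually.of_forall hw1)).2
  refine ⟨wm.comp measurable_snd, fun _ => wper, ?_, wm, wper, hLq, ?_⟩
  · refine ⟨(eLpNorm (cp hd (Wf a k)) q (volume.restrict (Q d))).toNNReal, ?_⟩
    refine Eventually.of_forall fun t => ?_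
    rw [ENNReal.coe_toNNReal hLq.ne]
  · intro f hf
    obtain ⟨hfs, S, hST, hfS⟩ := hf
    set w := cp hd (Wf a k) with hw
    -- split
    have hsplit : ∀ t : ℝ, ∫ x in Q d, w x * (dt f t x + (∑ i, bN a k hd t x i * pd i (f t) x)
        + lap (f t) x) = ∫ x in Q d, w x * dt f t x := by
      intro t
      obtain ⟨hs1, hs2⟩ := static hBD hI hC hCh hW hP ha ha4 h hd t (f t) (slice hfs t) (hfs.per t)
      have hd1 : IntegrableOn (fun x => w x * dt f t x) (Q d) :=
        mul_int wi ((dt_cont hfs).comp (Continuous.prodMk continuous_const continuous_id))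
      have e : ∀ x, w x * (dt f t x + (∑ i, bN a k hd t x i * pd i (f t) x) + lap (f t) x)
          = w x * dt f t x + w x * ((∑ i, bN a k hd t x i * pd i (f t) x) + lap (f t) x) := by
        intro x; ring
      simp_rw [e]
      rw [integral_add hd1 hs1, hs2, add_zero]
    simp_rw [hsplit]
    -- product integrability
    obtain ⟨M, hM⟩ := ((isCompact_Icc (a := (0:ℝ)) (b := T)).prod
      (isCompact_Icc (a := (0 : Fin d → ℝ)) (b := 1))).exists_bound_of_continuousOn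
      (dt_cont hfs).continuousOn
    have hprod : Integrable (fun z : ℝ × (Fin d → ℝ) => w z.2 * dt f z.1 z.2)
        ((volume.restrict (Ioo 0 T)).prod (volume.restrict (Q d))) := by
      refine Integrable.mono' (integrable_const (|M|))
        ((wm.comp measurable_snd).mul (dt_cont hfs).measurable).aestronglyMeasurable ?_
      rw [Measure.prod_restrict]
      filter_upwards [ae_restrict_mem (measurableSet_Ioo.prod (measurableSet_Q d))] with z hz
      rw [norm_mul]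
      have h1 : ‖dt f z.1 z.2‖ ≤ M :=
        hM z ⟨⟨hz.1.1.le, hz.1.2.le⟩, Q_subset d hz.2⟩
      calc ‖w z.2‖ * ‖dt f z.1 z.2‖ ≤ 1 * M :=
            mul_le_mul (hw1 _) h1 (norm_nonneg _) (by norm_num)
        _ ≤ |M| := by rw [one_mul]; exact le_abs_self M
    rw [integral_integral_swap hprod]
    have hin : ∀ x : Fin d → ℝ, ∫ t in Ioo 0 T, w x * dt f t x = - (w x * f 0 x) := by
      intro x
      rw [integral_const_mul]
      have h1 : ∫ t in Ioo 0 T, dt f t x = f T x - f 0 x := by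
        rw [← integral_Ioc_eq_integral_Ioo, ← intervalIntegral.integral_of_le hT.le]
        refine intervalIntegral.integral_eq_sub_of_hasDerivAt (f := fun s => f s x)
          (f' := fun s => dt f s x) (fun t _ => ?_) ?_
        · rw [dt_eq hfs]; exact hasDeriv_time hfs t x
        · exact ((dt_cont hfs).comp
            (Continuous.prodMk continuous_id continuous_const)).intervalIntegrable _ _
      rw [h1, hfS T hST.le x]
      ring
    simp_rw [hin]
    rw [integral_neg]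
    ring

end

end Pool.Agent.Helper28.ND.NSO
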