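import Pool.Agent.Helper28.ND.BD
import Pool.Agent.Helper28.ND.ID
import Pool.Agent.Helper28.ND.INF
import Pool.Agent.Helper28.ND.NSO
import Pool.Agent.Helper18.ND.KEY
import Pool.Agent.Helper19.ND.GRAD
import Pool.Agent.Helper19.ND.MAX
import Pool.Agent.Helper19.ND.PIC
import Pool.Agent.Helper32.ND.NDR
import Pool.Agent.Helper32.ND.WPF
import Pool.Agent.Helper32.ND.WPI
import Pool.Agent.Helper33.ND.CHAIN
import Pool.Agent.Helper33.ND.NFIN
import Pool.Agent.Helper33.ND.NPA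
import Pool.Agent.Helper33.ND.PFIN
import Pool.Agent.Helper4.ND.FUND
import Pool.Agent.Helper4.ND.PRJ
import Pool.Agent.Helper4.ND.STEIN
import Pool.Agent.Helper70.ND.LPB
import Pool.Agent.Helper75.ND.CUT
import Pool.Agent.Helper75.ND.DIV2
import Pool.Agent.Helper75.ND.KEY3
import Pool.Agent.Helper75.ND.UNIQ
import Pool.Agent.Helper84.ND.IBPW
import Pool.Agent.Helper86.ND.HEAT
import Pool.Agent.Helper86.ND.KB
import Pool.Agent.Helper86.ND.WEQ
import Pool.Agent.Helper87.ND.MOLD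
import Pool.Agent.Helper87.ND.MOLG
import Pool.Agent.Helper89.ND.ENER
import Pool.Agent.Helper89.ND.RIESZ
import Pool.Agent.Helper98.ND.EST
import Pool.Agent.Helper98.ND.IBP
import Pool.Agent.Helper98.ND.INTG
import Pool.Agent.Helper98.ND.TAIL
import Pool.Agent.H62.ND.KEY1
import Pool.Agent.H62.ND.KEY2

/-!
# MP_0c2f33_an: assembly of the first swarm.
-/

namespace Pool.Agent.Helper28.ND

theorem p_ID : S_ID := ID.main
theorem p_BD : S_BD := BD.main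
theorem p_WPF : S_WPF := Pool.Agent.Helper32.ND.WPF.main
theorem p_WPI : S_WPI := Pool.Agent.Helper32.ND.WPI.main
theorem p_PRJ : S_PRJ := Pool.Agent.Helper4.ND.PRJ.main
theorem p_IBP : S_IBP := Pool.Agent.Helper98.ND.IBP.main
theorem p_IBPW : S_IBPW := Pool.Agent.Helper84.ND.IBPW.main p_IBP p_WPF p_WPI p_PRJ
theorem p_CURL : S_CURL := Pool.Agent.Helper84.ND.CURL.main p_IBPW
theorem p_LPB : S_LPB := Pool.Agent.Helper70.ND.LPB.main p_WPF p_WPI p_PRJ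
theorem p_CHAIN : S_CHAIN := Pool.Agent.Helper33.ND.CHAIN.main p_ID p_WPF
theorem p_NDR : S_NDR := Pool.Agent.Helper32.ND.NDR.main p_BD p_LPB p_CURL p_IBPW
theorem p_NSO : S_NSO := NSO.main p_BD p_IBPW p_CURL p_CHAIN p_WPF p_PRJ
theorem p_INF : S_INF := INF.main p_WPF p_PRJ
theorem p_FUND : S_FUND := Pool.Agent.Helper4.ND.FUND.main
theorem p_NPA : S_NPA := Pool.Agent.Helper33.ND.NPA.main p_IBPW p_BD p_INF p_FUND
theorem p_NFIN : S_NFIN := Pool.Agent.Helper33.ND.NFIN.main p_NDR p_NSO p_NPA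

theorem p_STEIN : S_STEIN := Pool.Agent.Helper4.ND.STEIN.main
theorem p_HEAT : S_HEAT := Pool.Agent.Helper86.ND.HEAT.main p_STEIN
theorem p_KB : S_KB := Pool.Agent.Helper86.ND.KB.main
theorem p_WEQ : S_WEQ := Pool.Agent.Helper86.ND.WEQ.main p_HEAT p_STEIN
theorem p_MOLG : S_MOLG := Pool.Agent.Helper87.ND.MOLG.main
theorem p_MOLD : S_MOLD := Pool.Agent.Helper87.ND.MOLD.main
theorem p_ENER : S_ENER := Pool.Agent.Helper89.ND.ener p_IBP
theorem p_RIESZ : S_RIESZ := Pool.Agent.Helper89.ND.riesz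
theorem p_UNIQ : S_UNIQ := Pool.Agent.Helper75.ND.UNIQ.main p_MOLG p_MOLD p_ENER
theorem p_CUT : S_CUT := Pool.Agent.Helper75.ND.CUT.main p_WEQ p_KB p_UNIQ
theorem p_PIC : S_PIC := Pool.Agent.Helper19.ND.PIC.main p_KB
theorem p_MAX : S_MAX := Pool.Agent.Helper19.ND.MAX.main p_WEQ p_KB p_MOLG p_MOLD p_ENER
theorem p_GRAD : S_GRAD := Pool.Agent.Helper19.ND.GRAD.main p_KB p_CUT p_MAX
theorem p_DIV2 : S_DIV2 := Pool.Agent.Helper75.ND.DIV2.main
theorem p_KEY3 : S_KEY3 := Pool.Agent.Helper75.ND.KEY3.main p_WEQ p_KB p_MOLG p_MOLD p_DIV2 p_IBP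
theorem p_INTG : S_INTG := Pool.Agent.Helper98.ND.INTG.main
theorem p_KEY1 : S_KEY1 := Pool.Agent.H62.ND.KEY1.main p_WEQ p_KB p_MOLG p_MOLD p_INTG
theorem p_KEY2 : S_KEY2 := Pool.Agent.H62.ND.KEY2.main p_WEQ p_KB p_MOLG p_MOLD p_ENER
theorem p_KEY : S_KEY :=
  Pool.Agent.Helper18.ND.KEY.main p_PIC p_GRAD p_MAX p_KEY1 p_KEY2 p_KEY3 p_INTG p_KB
theorem p_TAIL : S_TAIL := Pool.Agent.Helper98.ND.TAIL.main p_INTG
theorem p_EST : S_EST := Pool.Agent.Helper98.ND.EST.main p_KEY p_TAIL p_INTG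
theorem p_PFIN : S_PFIN := Pool.Agent.Helper33.ND.PFIN.main p_EST p_INTG p_RIESZ

theorem p_RESULT : S_RESULT := ⟨p_NFIN, p_PFIN⟩

end Pool.Agent.Helper28.ND
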