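import Pool.Agent.Helper28.ND.All1
import Pool.Agent.Helper12.ND.GP
import Pool.Agent.Helper19.ND.FPOS
import Pool.Agent.Helper20.ND.FLQ
import Pool.Agent.Helper21.ND.EXT
import Pool.Agent.Helper4.ND.LIMIT
import Pool.Agent.Helper46.ND.INJ
import Pool.Agent.Helper46.ND.WST
import Pool.Agent.Helper47.ND.SCAL
import Pool.Agent.Helper47.ND.TESTQ
import Pool.Agent.Helper57.ND.SIT
import Pool.Agent.Helper57.ND.SUB
import Pool.Agent.Helper66.ND.NUM
import Pool.Agent.Helper70.ND.FREG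
import Pool.Agent.Helper70.ND.FTEST
import Pool.Agent.Helper72.ND.PARM
import Pool.Agent.Helper79.ND.FEX
import Pool.Agent.Helper79.ND.SMO
import Pool.Agent.Helper87.ND.RE1
import Pool.Agent.Helper87.ND.RE2
import Pool.Agent.Helper9.ND.FLIN
import Pool.Agent.Helper9.ND.FSUP
import Pool.Agent.Helper92.ND.FLOC

/-!
# MP_0c2f33_an: assembly of the second swarm, generic parts and test functions.
-/

namespace Pool.Agent.Helper28.ND

theorem p_FEX : S_FEX := Pool.Agent.Helper79.ND.FEX.main p_PIC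
theorem p_FREG : S_FREG := Pool.Agent.Helper70.ND.FREG.main p_STEIN p_MOLG p_MOLD
theorem p_FTEST : S_FTEST := Pool.Agent.Helper70.ND.FTEST.main p_IBP p_STEIN p_MOLG p_MOLD p_WEQ
theorem p_FLOC : S_FLOC := Pool.Agent.Helper92.ND.FLOC.main
theorem p_FLIN : S_FLIN := Pool.Agent.Helper9.ND.FLIN.main
theorem p_FPOS : S_FPOS := Pool.Agent.Helper19.ND.FPOS.main p_WEQ p_KB p_MOLG p_MOLD p_ENER p_FREG
theorem p_FLQ : S_FLQ := Pool.Agent.Helper20.ND.FLQ.main p_WEQ p_KB p_MOLG p_MOLD p_ENER p_FREG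
theorem p_FSUP : S_FSUP := Pool.Agent.Helper9.ND.FSUP.main p_WEQ p_KB p_MOLG p_MOLD p_ENER p_FREG
theorem p_TESTQ : S_TESTQ := Pool.Agent.Helper47.ND.TESTQ.main p_FTEST p_FREG
theorem p_SMO : S_SMO := Pool.Agent.Helper79.ND.SMO.main p_KB
theorem p_LIMIT : S_LIMIT := Pool.Agent.Helper4.ND.LIMIT.main p_FTEST p_FREG
theorem p_EXT : S_EXT := Pool.Agent.Helper21.ND.EXT.main p_IBP
theorem p_GP : S_GP := Pool.Agent.Helper12.ND.t_GP
theorem p_SUB : S_SUB := Pool.Agent.Helper57.ND.SUB.main p_TESTQ p_FREG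
theorem p_RE1 : S_RE1 := Pool.Agent.Helper87.ND.RE1.main p_SUB p_GP p_FREG
theorem p_RE2 : S_RE2 := Pool.Agent.Helper87.ND.RE2.main p_SUB p_GP p_FREG
theorem p_INJ : S_INJ := Pool.Agent.Helper46.ND.INJ.main p_SUB p_GP
theorem p_WST : S_WST := Pool.Agent.Helper46.ND.WST.main p_SUB p_GP
theorem p_SIT : S_SIT := Pool.Agent.Helper57.ND.SIT.main p_FLOC p_FPOS
theorem p_NUM : S_NUM := Pool.Agent.Helper66.ND.NUM.main
theorem p_PARM : S_PARM := Pool.Agent.Helper72.ND.PARM.main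
theorem p_SCAL : S_SCAL := Pool.Agent.Helper47.ND.SCAL.main

end Pool.Agent.Helper28.ND
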