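import Pool.Agent.Helper28.ND.Spec3

/-!
# MP_0c2f33_an, second swarm: the hierarchy (C parts).
-/

namespace Pool.Agent.Helper28.ND
open MeasureTheory Set Filter Topology
open scoped ENNReal NNReal

noncomputable section

/-- Scales `r_k = 1/(n0 N^k)`. -/
def rr (n0 N k : ℕ) : ℝ := 1 / ((n0 * N ^ k : ℕ) : ℝ)
/-- Durations of the blocks, `L_k = 16 r_k²`. -/
def LL (n0 N k : ℕ) : ℝ := 16 * (rr n0 N k) ^ 2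
/-- Duration of the creation stage of a block of level `k`: `2 M L_{k+1}`. -/
def KC (n0 N M k : ℕ) : ℝ := 2 * M * LL n0 N (k + 1)
/-- Velocity of the pulses of level `k`. -/
def VV (n0 N M k : ℕ) : ℝ := (rr n0 N k / (64 * M)) / LL n0 N (k + 1)

/-- `t` modulo `2 L`. -/
def loc (L t : ℝ) : ℝ := t - 2 * L * (⌊t / (2 * L)⌋ : ℝ)

/-- The elementary source: odd, `±1` at distance between `r` and `2r` from the walls. -/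
def gi (r : ℝ) (x : Fin 2 → ℝ) : ℝ :=
  if r ≤ |sd (x 0)| ∧ |sd (x 0)| ≤ 2 * r then (if 0 < Real.sin (2 * Real.pi * x 0) then 1 else -1)
  else 0

/-- The drift of a block of level `k` with `n` more levels. -/
def bt (n0 N M : ℕ) : ℕ → ℕ → ℝ → (Fin 2 → ℝ) → (Fin 2 → ℝ)
  | 0, _, _ => fun _ _ => 0
  | (n + 1), k, t => if t ≤ 0 ∨ KC n0 N M k ≤ t then fun _ _ => 0 else
      if loc (LL n0 N (k + 1)) t < LL n0 N (k + 1) then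
        bt n0 N M n (k + 1) (loc (LL n0 N (k + 1)) t)
      else fun x i => VV n0 N M k * bet (rr n0 N k) N x i

/-- The source of a block of level `k` with `n` more levels. -/
def ft (n0 N M : ℕ) : ℕ → ℕ → ℝ → (Fin 2 → ℝ) → ℝ
  | 0, k, t => if 0 < t ∧ t < KC n0 N M k then gi (rr n0 N k) else fun _ => 0
  | (n + 1), k, t => if t ≤ 0 ∨ KC n0 N M k ≤ t then fun _ => 0 else
      if loc (LL n0 N (k + 1)) t < LL n0 N (k + 1) then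
        ft n0 N M n (k + 1) (loc (LL n0 N (k + 1)) t)
      else fun _ => 0

/-- Admissible parameters. -/
structure Par (T : ℝ) (n0 N M : ℕ) : Prop where
  hT : 0 < T
  hN : 12 ∣ N
  hN2 : 4 * 10 ^ 7 ≤ N
  hM : 1 ≤ M
  hNM : 24576 * M ≤ N
  hn : 160 ≤ n0
  hL : LL n0 N 0 ≤ T / 2

/-- C1 (BLK): the time structure. -/
def S_BLK : Prop := ∀ (T : ℝ) (n0 N M : ℕ), Par T n0 N M → ∀ n k : ℕ,
  FD 2 T (bt n0 N M n k) (ft n0 N M n k) ∧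
  (∀ t, Sym (ft n0 N M n k t) ∧ SymB (bt n0 N M n k t)) ∧
  (∀ t x, |ft n0 N M n k t x| ≤ 1) ∧
  (∀ t x, 0 ≤ x 0 → x 0 ≤ 1 / 4 → 0 ≤ ft n0 N M n k t x) ∧
  (∀ t x, bt n0 N M n k t ![x 0, x 1 + rr n0 N k] = bt n0 N M n k t x ∧
    ft n0 N M n k t ![x 0, x 1 + rr n0 N k] = ft n0 N M n k t x) ∧
  (∀ t, (t ≤ 0 ∨ KC n0 N M k ≤ t) → ∀ x, ft n0 N M n k t x = 0 ∧ ∀ i, bt n0 N M n k t x i = 0) ∧
  (∀ t x, rr n0 N k ≤ |sd (x 0)| → ∀ i, bt n0 N M n k t x i = 0) ∧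
  (∀ j : ℕ, j < M → ∀ t, 0 < t → t < LL n0 N (k + 1) → ∀ x,
    ft n0 N M (n + 1) k (t + 2 * j * LL n0 N (k + 1)) x = ft n0 N M n (k + 1) t x ∧
    ∀ i, bt n0 N M (n + 1) k (t + 2 * j * LL n0 N (k + 1)) x i = bt n0 N M n (k + 1) t x i) ∧
  (∀ j : ℕ, j < M → ∀ t, (2 * j + 1) * LL n0 N (k + 1) < t → t < (2 * j + 2) * LL n0 N (k + 1) →
    ∀ x, ft n0 N M (n + 1) k t x = 0 ∧
    ∀ i, bt n0 N M (n + 1) k t x i = VV n0 N M k * bet (rr n0 N k) N x i)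

/-- the numerical facts on the scales that are used everywhere -/
def S_NUM : Prop := ∀ (T : ℝ) (n0 N M : ℕ), Par T n0 N M → ∀ k : ℕ,
  0 < rr n0 N k ∧ rr n0 N (k + 1) = rr n0 N k / N ∧ rr n0 N k ≤ 1 / 160 ∧
  0 < LL n0 N k ∧ LL n0 N k ≤ T / 2 ∧ LL n0 N (k + 1) = 16 * (rr n0 N k / N) ^ 2 ∧
  0 < KC n0 N M k ∧ KC n0 N M k ≤ (rr n0 N k) ^ 2 / 1000 ∧ 0 < VV n0 N M k ∧
  15 * (rr n0 N k) ^ 2 ≤ LL n0 N k - KC n0 N M k ∧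
  16 * rr n0 N k ≤ RR (LL n0 N k - KC n0 N M k) ∧
  RR (LL n0 N k - KC n0 N M k) ≤ 20 * rr n0 N k ∧
  RR (LL n0 N k - KC n0 N M k) ≤ 1 / 8

/-- The far mass at the end of a block of level `k`. -/
def far (n0 N M k : ℕ) (w : (Fin 2 → ℝ) → ℝ) : ℝ :=
  ∫ x in Q4, (if 15 / 100 * RR (LL n0 N k - KC n0 N M k) ≤ x 0 then w x else 0)

/-- C2 (PERX): symmetry, positivity, and the small period in `x 1`. -/
def S_PERX : Prop := ∀ (T : ℝ) (n0 N M : ℕ), Par T n0 N M → ∀ (n k : ℕ) u v,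
  FSol 2 T (bt n0 N M n k) (ft n0 N M n k) u v →
  Sit T (bt n0 N M n k) (ft n0 N M n k) u v ∧
  ∀ t x, u t ![x 0, x 1 + rr n0 N k] = u t x

/-- C3 (REC): decomposition into the contributions of the `M` sub-blocks. -/
def S_REC : Prop := ∀ (T : ℝ) (n0 N M : ℕ), Par T n0 N M → ∀ (n k : ℕ) u v w wv,
  FSol 2 T (bt n0 N M (n + 1) k) (ft n0 N M (n + 1) k) u v →
  FSol 2 T (bt n0 N M n (k + 1)) (ft n0 N M n (k + 1)) w wv →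
  ∃ (uj : Fin M → ℝ → (Fin 2 → ℝ) → ℝ) (vj : Fin M → ℝ → (Fin 2 → ℝ) → (Fin 2 → ℝ)),
    (∀ j : Fin M, Sit T (bt n0 N M (n + 1) k)
      (fun t x => if 2 * (j : ℕ) * LL n0 N (k + 1) < t ∧ t < (2 * (j : ℕ) + 1) * LL n0 N (k + 1)
        then ft n0 N M (n + 1) k t x else 0) (uj j) (vj j)) ∧
    (∀ t x, u t x = ∑ j, uj j t x) ∧
    (∀ (j : Fin M) t x, t ≤ 2 * (j : ℕ) * LL n0 N (k + 1) → uj j t x = 0) ∧
    (∀ (j : Fin M) t x, t ≤ LL n0 N (k + 1) →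
      uj j (t + 2 * (j : ℕ) * LL n0 N (k + 1)) x = w t x)

/-- C4 (LOW): the far mass grows by the factor `M/(2·10^7)` from one level to the next. -/
def S_LOW : Prop := ∀ (T : ℝ) (n0 N M : ℕ), Par T n0 N M → ∀ (n k : ℕ) u v w wv,
  FSol 2 T (bt n0 N M (n + 1) k) (ft n0 N M (n + 1) k) u v →
  FSol 2 T (bt n0 N M n (k + 1)) (ft n0 N M n (k + 1)) w wv →
  ((M : ℝ) / 2) / 10 ^ 7 * far n0 N M (k + 1) (w (LL n0 N (k + 1)))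
    ≤ far n0 N M k (u (LL n0 N k))

/-- C5 (UPP): after the end of the block the `L^q` norm is bounded by the far mass. -/
def S_UPP : Prop := ∃ C1 : ℝ, 1 ≤ C1 ∧ ∀ (T : ℝ) (n0 N M : ℕ), Par T n0 N M → ∀ (n k : ℕ) u v,
  FSol 2 T (bt n0 N M n k) (ft n0 N M n k) u v → ∀ q : ℝ, 2 ≤ q → ∀ t, LL n0 N k ≤ t → t ≤ T →
  ∫ x in Q 2, |u t x| ^ q
    ≤ (C1 * far n0 N M k (u (LL n0 N k))) ^ q * (rr n0 N k) ^ (-(q - 1))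

/-- C6 (BASE): the smallest level. -/
def S_BASE : Prop := ∃ C1 : ℝ, 1 ≤ C1 ∧ ∀ (T : ℝ) (n0 N M : ℕ), Par T n0 N M → ∀ (k : ℕ) u v,
  FSol 2 T (bt n0 N M 0 k) (ft n0 N M 0 k) u v →
  0 < far n0 N M k (u (LL n0 N k)) ∧
  KC n0 N M k * rr n0 N k ≤ C1 * far n0 N M k (u (LL n0 N k)) ∧
  ∀ q : ℝ, 2 ≤ q → ∀ t, 0 ≤ t → t ≤ LL n0 N k →
  ∫ x in Q 2, |u t x| ^ q
    ≤ (C1 * far n0 N M k (u (LL n0 N k))) ^ q * (rr n0 N k) ^ (-(q - 1))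

/-- C7 (QN): uniform bounds in terms of the far mass of the top block. -/
def S_QN : Prop := ∀ (T : ℝ) (n0 N M : ℕ) (q : ℝ), Par T n0 N M → 2 ≤ q →
  (N : ℝ) ^ (1 - 1 / q) < ((M : ℝ) / 2) / 10 ^ 7 →
  ∃ C : ℝ, 0 < C ∧ ∀ (K : ℕ) u v, FSol 2 T (bt n0 N M K 0) (ft n0 N M K 0) u v →
    0 < far n0 N M 0 (u (LL n0 N 0)) ∧
    (M : ℝ) ^ K * KC n0 N M K * rr n0 N K * rr n0 N K
      ≤ C * (1 / 2) ^ K * far n0 N M 0 (u (LL n0 N 0)) ∧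
    ∀ t, 0 ≤ t → t ≤ T → ∫ x in Q 2, |u t x| ^ q ≤ (C * far n0 N M 0 (u (LL n0 N 0))) ^ q

/-- C8 (DRI): the limit drift. -/
def S_DRI : Prop := ∀ (T : ℝ) (n0 N M : ℕ) (p : ℝ≥0∞), Par T n0 N M → 2 ≤ p → p ≠ ⊤ →
  (M : ℝ) < (N : ℝ) ^ (2 / p.toReal) →
  ∃ b : ℝ → (Fin 2 → ℝ) → (Fin 2 → ℝ), Drift 2 T p b ∧
    Tendsto (fun K => ∫⁻ t in Ioo 0 T, ∫⁻ x in Q 2, ‖bt n0 N M K 0 t x - b t x‖ₑ ^ 2) atTop (𝓝 0)

/-- C9 (SRC): the sources in the sense of distributions. -/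
def S_SRC : Prop := ∀ (T : ℝ) (n0 N M : ℕ), Par T n0 N M →
  ∀ g : ℝ → (Fin 2 → ℝ) → ℝ, IsTest T g → ∃ C : ℝ, 0 ≤ C ∧ ∀ K : ℕ,
    |∫ t in Ioo 0 T, ∫ x in Q 2, ft n0 N M K 0 t x * g t x|
      ≤ C * ((M : ℝ) ^ K * KC n0 N M K * rr n0 N K * rr n0 N K)

/-- C10 (LBD): lower bound after the top block. -/
def S_LBD : Prop := ∀ (T : ℝ) (n0 N M : ℕ), Par T n0 N M →
  ∃ (et : ℝ → (Fin 2 → ℝ) → ℝ) (c : ℝ), BMP et ∧ 0 < c ∧ ∀ (K : ℕ) u v,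
    FSol 2 T (bt n0 N M K 0) (ft n0 N M K 0) u v →
    c * far n0 N M 0 (u (LL n0 N 0)) ≤ ∫ t in Ioo 0 T, ∫ x in Q 2, u t x * et t x

/-- C11 (PARM): choice of the parameters. -/
def S_PARM : Prop := ∀ (al be T : ℝ), 0 ≤ al → al < be → be ≤ 1 → 0 < T → ∃ n0 N M : ℕ,
  Par T n0 N M ∧ (N : ℝ) ^ al < ((M : ℝ) / 2) / 10 ^ 7 ∧ (M : ℝ) < (N : ℝ) ^ be

/-- C12 (SCAL): scaling of a solution. -/
def S_SCAL : Prop := ∀ (d : ℕ) (T c : ℝ) (b : ℝ → (Fin d → ℝ) → (Fin d → ℝ))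
  (f : ℝ → (Fin d → ℝ) → ℝ) (u : ℝ → (Fin d → ℝ) → ℝ) (v : ℝ → (Fin d → ℝ) → (Fin d → ℝ)),
  0 < T → FSol d T b f u v →
  FSol d T b (fun t x => c * f t x) (fun t x => c * u t x) (fun t x i => c * v t x i)

/-- C13 (FIN2): the case `d = 2`, `p ≥ 2`. -/
def S_FIN2 : Prop := ∀ (T : ℝ) (p q : ℝ≥0∞), 0 < T → 2 ≤ p → 2 ≤ q → 1 < 2 * p⁻¹ + q⁻¹ →
  ∃ (b : ℝ → (Fin 2 → ℝ) → (Fin 2 → ℝ)) (u0 : (Fin 2 → ℝ) → ℝ) (u : ℝ → (Fin 2 → ℝ) → ℝ),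
    Drift 2 T p b ∧ Sol 2 T q b u0 u ∧ ¬ Parabolic 2 T u

end

end Pool.Agent.Helper28.ND
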