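import Pool.Agent.Helper28.ND.All2
import Pool.Agent.Helper11.ND.BETA
import Pool.Agent.Helper18.ND.UNPfin
import Pool.Agent.Helper27.ND.UPP
import Pool.Agent.Helper39.ND.SRC
import Pool.Agent.Helper45.ND.PST
import Pool.Agent.Helper47.ND.FIN2
import Pool.Agent.Helper47.ND.FULL
import Pool.Agent.Helper53.ND.DRI
import Pool.Agent.Helper57.ND.LBD
import Pool.Agent.Helper59.ND.LOW
import Pool.Agent.Helper72.ND.REC
import Pool.Agent.Helper78.ND.CRE
import Pool.Agent.Helper79.ND.PERX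
import Pool.Agent.Helper79.ND.QN
import Pool.Agent.Helper8.ND.BASE
import Pool.Agent.Helper98.ND.BLK

/-!
# MP_0c2f33_an: assembly of the second swarm, the hierarchy.
-/

namespace Pool.Agent.Helper28.ND

theorem p_BETA : S_BETA := Pool.Agent.Helper11.ND.BETA.main
theorem p_BLK : S_BLK := Pool.Agent.Helper98.ND.BLK.main p_BETA p_NUM
theorem p_PERX : S_PERX := Pool.Agent.Helper79.ND.PERX.main p_SIT p_FLOC p_BLK
theorem p_REC : S_REC :=
  Pool.Agent.Helper72.ND.REC.main p_FEX p_FLIN p_FLOC p_FREG p_SIT p_BLK p_NUM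
theorem p_PST : S_PST := Pool.Agent.Helper45.ND.PST.main p_SUB p_GP
theorem p_CRE : S_CRE := Pool.Agent.Helper78.ND.CRE.main p_FREG p_WST p_PST p_GP
theorem p_LOW : S_LOW :=
  Pool.Agent.Helper59.ND.LOW.main p_CRE p_RE2 p_REC p_PERX p_BLK p_BETA p_NUM p_FREG
theorem p_UPP : S_UPP :=
  Pool.Agent.Helper27.ND.UPP.main p_RE1 p_RE2 p_SMO p_FLQ p_PERX p_BLK p_NUM p_FREG
theorem p_BASE : S_BASE :=
  Pool.Agent.Helper8.ND.BASE.main p_INJ p_RE2 p_FSUP p_SUB p_NUM p_PERX p_BLK p_FREG p_GP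
theorem p_QN : S_QN :=
  Pool.Agent.Helper79.ND.QN.main p_REC p_LOW p_UPP p_BASE p_FLQ p_FEX p_BLK p_NUM p_FREG
theorem p_DRI : S_DRI := Pool.Agent.Helper53.ND.DRI.main p_BLK p_BETA
theorem p_SRC : S_SRC := Pool.Agent.Helper39.ND.SRC.main
theorem p_LBD : S_LBD := Pool.Agent.Helper57.ND.LBD.main p_INJ p_PERX p_BLK p_NUM p_GP p_FREG
theorem p_UNP : S_UNP := Pool.Agent.Helper18.ND.UNP.unp
theorem p_FIN2 : S_FIN2 :=
  Pool.Agent.Helper47.ND.FIN2.main p_PARM p_QN p_DRI p_SRC p_LBD p_LIMIT p_UNP p_FEX p_BLK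
theorem p_FULL : S_FULL := Pool.Agent.Helper47.ND.FULL.main p_NFIN p_FIN2 p_EXT p_PFIN

end Pool.Agent.Helper28.ND
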