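import Pool.Agent.Helper28.ND.ID

namespace Pool.Agent.Helper28.ND.BD
open MeasureTheory Set Filter Topology Pool.Agent.Helper28.ND Pool.Agent.Helper28.ND.ID

noncomputable section

/-- The size functional. -/
def tt (r m : ℝ) : ℝ := 1 / r + m + r * m ^ 2

lemma tt_ge1 {r m : ℝ} (hr : 0 < r) (hm : 0 ≤ m) : 1 / r ≤ tt r m := by
  unfold tt; nlinarith [mul_nonneg hr.le (sq_nonneg m)]
lemma tt_ge2 {r m : ℝ} (hr : 0 < r) (hm : 0 ≤ m) : m ≤ tt r m := by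
  unfold tt; nlinarith [mul_nonneg hr.le (sq_nonneg m), one_div_pos.2 hr]
lemma tt_ge3 {r m : ℝ} (hr : 0 < r) (hm : 0 ≤ m) : r * m ^ 2 ≤ tt r m := by
  unfold tt; nlinarith [mul_nonneg hr.le (sq_nonneg m), one_div_pos.2 hr]
lemma tt_nonneg {r m : ℝ} (hr : 0 < r) (hm : 0 ≤ m) : 0 ≤ tt r m :=
  le_trans hm (tt_ge2 hr hm)

section
variable {z : ℂ} (hz : z ≠ 0)
include hz

lemma rpos : 0 < ‖z‖ := norm_pos_iff.2 hz

lemma NN : Complex.normSq z = ‖z‖ ^ 2 := Complex.normSq_eq_norm_sq z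

omit hz in
lemma hx (z : ℂ) : |z.re| ≤ ‖z‖ := Complex.abs_re_le_norm z
omit hz in
lemma hy (z : ℂ) : |z.im| ≤ ‖z‖ := Complex.abs_im_le_norm z

omit hz in
lemma mono (z : ℂ) (i j : ℕ) : |z.re ^ i * z.im ^ j| ≤ ‖z‖ ^ (i + j) := by
  rw [abs_mul, abs_pow, abs_pow, pow_add]
  have := hx z
  have := hy z
  gcongr

lemma mono1 (c : ℝ) (i j n : ℕ) (h : i + j + 1 = n) :
    |c * (z.re ^ i * z.im ^ j) / ‖z‖ ^ n| ≤ |c| * (1 / ‖z‖) := by
  have hr := rpos hz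
  rw [abs_div, abs_mul, abs_of_pos (pow_pos hr n), mul_div_assoc]
  refine mul_le_mul_of_nonneg_left ?_ (abs_nonneg c)
  rw [div_le_div_iff₀ (pow_pos hr n) hr, one_mul, ← h, pow_succ]
  exact mul_le_mul_of_nonneg_right (mono z i j) hr.le

lemma mono0 (c : ℝ) (i j n : ℕ) (h : i + j = n) :
    |c * (z.re ^ i * z.im ^ j) / ‖z‖ ^ n| ≤ |c| := by
  have hr := rpos hz
  rw [abs_div, abs_mul, abs_of_pos (pow_pos hr n), mul_div_assoc]
  calc |c| * (|z.re ^ i * z.im ^ j| / ‖z‖ ^ n) ≤ |c| * 1 := by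
        refine mul_le_mul_of_nonneg_left ?_ (abs_nonneg c)
        rw [div_le_one (pow_pos hr n), ← h]
        exact mono z i j
    _ = |c| := mul_one _

lemma G1_le {a k : ℝ} (ha : 0 < a) (ha1 : a < 1) : |G1 a k z| ≤ (1 + |k|) * (1 / ‖z‖) := by
  have h1 := mono1 hz (a - 1) 1 0 2 rfl
  have h2 := mono1 hz k 1 2 4 rfl
  have e : G1 a k z = (a - 1) * (z.re ^ 1 * z.im ^ 0) / ‖z‖ ^ 2
      + k * (z.re ^ 1 * z.im ^ 2) / ‖z‖ ^ 4 := by
    unfold G1; rw [NN hz]; ring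
  rw [e]
  have h3 : |a - 1| ≤ 1 := abs_le.2 ⟨by linarith, by linarith⟩
  have hr := one_div_pos.2 (rpos hz)
  calc _ ≤ _ := abs_add_le _ _
    _ ≤ |a - 1| * (1 / ‖z‖) + |k| * (1 / ‖z‖) := add_le_add h1 h2
    _ ≤ (1 + |k|) * (1 / ‖z‖) := by nlinarith

lemma G2_le {a k : ℝ} (ha : 0 < a) (ha1 : a < 1) : |G2 a k z| ≤ (1 + |k|) * (1 / ‖z‖) := by
  have h1 := mono1 hz (a - 1) 0 1 2 rfl
  have h2 := mono1 hz k 2 1 4 rfl
  have e : G2 a k z = (a - 1) * (z.re ^ 0 * z.im ^ 1) / ‖z‖ ^ 2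
      - k * (z.re ^ 2 * z.im ^ 1) / ‖z‖ ^ 4 := by
    unfold G2; rw [NN hz]; ring
  rw [e]
  have h3 : |a - 1| ≤ 1 := abs_le.2 ⟨by linarith, by linarith⟩
  have hr := one_div_pos.2 (rpos hz)
  calc _ ≤ _ := abs_sub _ _
    _ ≤ |a - 1| * (1 / ‖z‖) + |k| * (1 / ‖z‖) := add_le_add h1 h2
    _ ≤ (1 + |k|) * (1 / ‖z‖) := by nlinarith

omit hz in
lemma abs4 {a b c d A B C E : ℝ} (h1 : |a| ≤ A) (h2 : |b| ≤ B) (h3 : |c| ≤ C) (h4 : |d| ≤ E) :
    |a + b + c + d| ≤ A + B + C + E := by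
  rw [abs_le] at *
  constructor <;> linarith [h1.1, h1.2, h2.1, h2.2, h3.1, h3.2, h4.1, h4.2]

omit hz in
lemma abs2 {a b A B : ℝ} (h1 : |a| ≤ A) (h2 : |b| ≤ B) : |a + b| ≤ A + B := by
  rw [abs_le] at *
  constructor <;> linarith [h1.1, h1.2, h2.1, h2.2]

lemma Qa : |z.im / Complex.normSq z - 2 * z.re ^ 2 * z.im / (Complex.normSq z) ^ 2|
    ≤ 3 * (1 / ‖z‖) := by
  have e : z.im / Complex.normSq z - 2 * z.re ^ 2 * z.im / (Complex.normSq z) ^ 2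
      = 1 * (z.re ^ 0 * z.im ^ 1) / ‖z‖ ^ 2 + (-2) * (z.re ^ 2 * z.im ^ 1) / ‖z‖ ^ 4 := by
    rw [NN hz]; ring
  rw [e]
  have := abs2 (mono1 hz 1 0 1 2 rfl) (mono1 hz (-2) 2 1 4 rfl)
  norm_num at this ⊢
  linarith

lemma Qb : |z.re / Complex.normSq z - 2 * z.re * z.im ^ 2 / (Complex.normSq z) ^ 2|
    ≤ 3 * (1 / ‖z‖) := by
  have e : z.re / Complex.normSq z - 2 * z.re * z.im ^ 2 / (Complex.normSq z) ^ 2
      = 1 * (z.re ^ 1 * z.im ^ 0) / ‖z‖ ^ 2 + (-2) * (z.re ^ 1 * z.im ^ 2) / ‖z‖ ^ 4 := by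
    rw [NN hz]; ring
  rw [e]
  have := abs2 (mono1 hz 1 1 0 2 rfl) (mono1 hz (-2) 1 2 4 rfl)
  norm_num at this ⊢
  linarith

lemma Qc : |(3 * z.re ^ 2 * z.im - z.im ^ 3) / (Complex.normSq z) ^ 2
      - 4 * z.re * (z.re * z.im * (z.re ^ 2 - z.im ^ 2)) / (Complex.normSq z) ^ 3|
    ≤ 12 * (1 / ‖z‖) := by
  have e : (3 * z.re ^ 2 * z.im - z.im ^ 3) / (Complex.normSq z) ^ 2
      - 4 * z.re * (z.re * z.im * (z.re ^ 2 - z.im ^ 2)) / (Complex.normSq z) ^ 3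
      = 3 * (z.re ^ 2 * z.im ^ 1) / ‖z‖ ^ 4 + (-1) * (z.re ^ 0 * z.im ^ 3) / ‖z‖ ^ 4
      + (-4) * (z.re ^ 4 * z.im ^ 1) / ‖z‖ ^ 6 + 4 * (z.re ^ 2 * z.im ^ 3) / ‖z‖ ^ 6 := by
    rw [NN hz]; ring
  rw [e]
  have := abs4 (mono1 hz 3 2 1 4 rfl) (mono1 hz (-1) 0 3 4 rfl) (mono1 hz (-4) 4 1 6 rfl)
    (mono1 hz 4 2 3 6 rfl)
  norm_num at this ⊢
  linarith

lemma Qd : |(z.re ^ 3 - 3 * z.re * z.im ^ 2) / (Complex.normSq z) ^ 2
      - 4 * z.im * (z.re * z.im * (z.re ^ 2 - z.im ^ 2)) / (Complex.normSq z) ^ 3|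
    ≤ 12 * (1 / ‖z‖) := by
  have e : (z.re ^ 3 - 3 * z.re * z.im ^ 2) / (Complex.normSq z) ^ 2
      - 4 * z.im * (z.re * z.im * (z.re ^ 2 - z.im ^ 2)) / (Complex.normSq z) ^ 3
      = 1 * (z.re ^ 3 * z.im ^ 0) / ‖z‖ ^ 4 + (-3) * (z.re ^ 1 * z.im ^ 2) / ‖z‖ ^ 4
      + (-4) * (z.re ^ 3 * z.im ^ 2) / ‖z‖ ^ 6 + 4 * (z.re ^ 1 * z.im ^ 4) / ‖z‖ ^ 6 := by
    rw [NN hz]; ring
  rw [e]
  have := abs4 (mono1 hz 1 3 0 4 rfl) (mono1 hz (-3) 1 2 4 rfl) (mono1 hz (-4) 3 2 6 rfl)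
    (mono1 hz 4 1 4 6 rfl)
  norm_num at this ⊢
  linarith

omit hz in
lemma comb {c d A B X Y : ℝ} (hA : |A| ≤ X) (hB : |B| ≤ Y) :
    |c * A + d * B| ≤ |c| * X + |d| * Y := by
  refine abs2 ?_ ?_
  · rw [abs_mul]; exact mul_le_mul_of_nonneg_left hA (abs_nonneg _)
  · rw [abs_mul]; exact mul_le_mul_of_nonneg_left hB (abs_nonneg _)

lemma S1_le (k : ℝ) : |S1 k z| ≤ (3 * |k| + 2 * k ^ 2) * (1 / ‖z‖) := by
  have h := comb (c := k) (d := k ^ 2 / 8) (Qa hz) (Qc hz)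
  have h2 : |k ^ 2 / 8| = k ^ 2 / 8 := abs_of_nonneg (by positivity)
  rw [h2] at h
  have hr := one_div_pos.2 (rpos hz)
  unfold S1
  nlinarith [mul_nonneg (sq_nonneg k) hr.le]

lemma S2_le (k : ℝ) : |S2 k z| ≤ (3 * |k| + 2 * k ^ 2) * (1 / ‖z‖) := by
  have h := comb (c := k) (d := k ^ 2 / 8) (Qb hz) (Qd hz)
  have h2 : |k ^ 2 / 8| = k ^ 2 / 8 := abs_of_nonneg (by positivity)
  rw [h2] at h
  have hr := one_div_pos.2 (rpos hz)
  unfold S2
  nlinarith [mul_nonneg (sq_nonneg k) hr.le]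

lemma q1_le (k : ℝ) : |k * z.re * z.im / Complex.normSq z| ≤ |k| := by
  have e : k * z.re * z.im / Complex.normSq z = k * (z.re ^ 1 * z.im ^ 1) / ‖z‖ ^ 2 := by
    rw [NN hz]; ring
  rw [e]
  exact mono0 hz k 1 1 2 rfl

lemma q2_le (k : ℝ) :
    |(k ^ 2 / 8) * z.re * z.im * (z.re ^ 2 - z.im ^ 2) / (Complex.normSq z) ^ 2| ≤ k ^ 2 := by
  have e : (k ^ 2 / 8) * z.re * z.im * (z.re ^ 2 - z.im ^ 2) / (Complex.normSq z) ^ 2
      = (k ^ 2 / 8) * (z.re ^ 3 * z.im ^ 1) / ‖z‖ ^ 4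
        + (-(k ^ 2 / 8)) * (z.re ^ 1 * z.im ^ 3) / ‖z‖ ^ 4 := by
    rw [NN hz]; ring
  rw [e]
  have h := abs2 (mono0 hz (k ^ 2 / 8) 3 1 4 rfl) (mono0 hz (-(k ^ 2 / 8)) 1 3 4 rfl)
  rw [abs_neg, abs_of_nonneg (by positivity : 0 ≤ k ^ 2 / 8)] at h
  nlinarith [sq_nonneg k]

lemma sf_le (k : ℝ) : |sf k z| ≤ |k| + k ^ 2 := abs2 (q1_le hz k) (q2_le hz k)

lemma mf_pos (a k : ℝ) : 0 < mf a k z := by
  unfold mf
  have := gf_pos a k hz
  have : 0 < 1 + z.re ^ 2 * (gf a k z) ^ 2 := by positivity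
  positivity

lemma xm_le (a k : ℝ) : |z.re| * mf a k z ≤ 1 := by
  unfold mf
  have hg := gf_pos a k hz
  have hp : 0 < 1 + z.re ^ 2 * (gf a k z) ^ 2 := by positivity
  rw [← mul_div_assoc, div_le_one (Real.sqrt_pos.2 hp)]
  apply Real.le_sqrt_of_sq_le
  rw [mul_pow, sq_abs]
  linarith

lemma mf_le_gf (a k : ℝ) : mf a k z ≤ gf a k z := by
  unfold mf
  have hg := gf_pos a k hz
  have hp : 0 < 1 + z.re ^ 2 * (gf a k z) ^ 2 := by positivity
  apply div_le_self hg.le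
  rw [Real.one_le_sqrt]
  nlinarith [mul_nonneg (sq_nonneg z.re) (sq_nonneg (gf a k z))]

lemma gf_le (a k : ℝ) : gf a k z ≤ Real.exp |k| * ‖z‖ ^ (a - 1) := by
  unfold gf
  have hr := rpos hz
  rw [NN hz, ← Real.rpow_natCast ‖z‖ 2, ← Real.rpow_mul hr.le, mul_comm]
  have e1 : ((2 : ℕ) : ℝ) * ((a - 1) / 2) = a - 1 := by push_cast; ring
  rw [e1]
  refine mul_le_mul_of_nonneg_right (Real.exp_le_exp.2 ?_) (by positivity)
  rw [Real.rpow_natCast]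
  have h := le_of_abs_le (mono0 hz (-(k / 2)) 0 2 2 rfl)
  have h3 : |(-(k / 2))| = |k| / 2 := by rw [abs_neg, abs_div, abs_two]
  rw [h3, pow_zero, one_mul] at h
  linarith [abs_nonneg k]

lemma xm2 (a k : ℝ) : z.re ^ 2 * (mf a k z) ^ 2 ≤ 1 := by
  have h := xm_le hz a k
  have h0 : 0 ≤ |z.re| * mf a k z := mul_nonneg (abs_nonneg _) (mf_pos hz a k).le
  calc z.re ^ 2 * (mf a k z) ^ 2 = (|z.re| * mf a k z) ^ 2 := by rw [mul_pow, sq_abs]
    _ ≤ 1 := pow_le_one₀ h0 h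

lemma xm2' (a k : ℝ) : |1 - z.re ^ 2 * (mf a k z) ^ 2| ≤ 1 := by
  have h := xm2 hz a k
  have h2 : 0 ≤ z.re ^ 2 * (mf a k z) ^ 2 := by positivity
  rw [abs_le]; constructor <;> linarith

/-- `r |M1| ≤ (2+|k|) T`. -/
lemma M1_le {a k : ℝ} (ha : 0 < a) (ha1 : a < 1) :
    ‖z‖ * |M1 a k z| ≤ (2 + |k|) * tt ‖z‖ (mf a k z) := by
  have hr := rpos hz
  have hm := mf_pos hz a k
  have hG := G1_le hz (k := k) ha ha1
  have h1 : |(1 - z.re ^ 2 * (mf a k z) ^ 2) * G1 a k z| ≤ (1 + |k|) * (1 / ‖z‖) := by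
    rw [abs_mul]
    calc _ ≤ 1 * |G1 a k z| := mul_le_mul_of_nonneg_right (xm2' hz a k) (abs_nonneg _)
      _ ≤ _ := by rw [one_mul]; exact hG
  have h2 : |-(z.re * (mf a k z) ^ 2)| ≤ mf a k z := by
    rw [abs_neg, abs_mul, abs_of_pos (pow_pos hm 2), pow_two, ← mul_assoc]
    calc _ ≤ 1 * mf a k z := mul_le_mul_of_nonneg_right (xm_le hz a k) hm.le
      _ = _ := one_mul _
  have h3 : |M1 a k z| ≤ mf a k z * ((1 + |k|) * (1 / ‖z‖) + mf a k z) := by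
    unfold M1
    rw [abs_mul, abs_of_pos hm, sub_eq_add_neg]
    exact mul_le_mul_of_nonneg_left (abs2 h1 h2) hm.le
  have h4 : ‖z‖ * |M1 a k z| ≤ (1 + |k|) * mf a k z + ‖z‖ * (mf a k z) ^ 2 := by
    calc _ ≤ ‖z‖ * (mf a k z * ((1 + |k|) * (1 / ‖z‖) + mf a k z)) :=
          mul_le_mul_of_nonneg_left h3 hr.le
      _ = _ := by field_simp
  have t2 := tt_ge2 hr hm.le
  have t3 := tt_ge3 hr hm.le
  nlinarith [abs_nonneg k, mul_le_mul_of_nonneg_left t2 (by positivity : 0 ≤ 1 + |k|)]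

lemma M2_le {a k : ℝ} (ha : 0 < a) (ha1 : a < 1) :
    ‖z‖ * |M2 a k z| ≤ (2 + |k|) * tt ‖z‖ (mf a k z) := by
  have hr := rpos hz
  have hm := mf_pos hz a k
  have hG := G2_le hz (k := k) ha ha1
  have h1 : |(1 - z.re ^ 2 * (mf a k z) ^ 2) * G2 a k z| ≤ (1 + |k|) * (1 / ‖z‖) := by
    rw [abs_mul]
    calc _ ≤ 1 * |G2 a k z| := mul_le_mul_of_nonneg_right (xm2' hz a k) (abs_nonneg _)
      _ ≤ _ := by rw [one_mul]; exact hG
  have h3 : |M2 a k z| ≤ mf a k z * ((1 + |k|) * (1 / ‖z‖)) := by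
    unfold M2
    rw [abs_mul, abs_of_pos hm]
    exact mul_le_mul_of_nonneg_left h1 hm.le
  have h4 : ‖z‖ * |M2 a k z| ≤ (1 + |k|) * mf a k z := by
    calc _ ≤ ‖z‖ * (mf a k z * ((1 + |k|) * (1 / ‖z‖))) :=
          mul_le_mul_of_nonneg_left h3 hr.le
      _ = _ := by field_simp
  have t2 := tt_ge2 hr hm.le
  have t0 := tt_nonneg hr hm.le
  nlinarith [abs_nonneg k, mul_le_mul_of_nonneg_left t2 (by positivity : 0 ≤ 1 + |k|)]

/-- the common bound for the second part of the gradient of `Pf`. -/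
lemma part2 {a k : ℝ} (A B C : ℝ) (hA : |A| ≤ ‖z‖)
    (hB : ‖z‖ * |B| ≤ (2 + |k|) * tt ‖z‖ (mf a k z))
    (hC : |C| ≤ (3 * |k| + 2 * k ^ 2) * (1 / ‖z‖)) :
    |A * (mf a k z) ^ 2 + 2 * z.re * z.im * mf a k z * B
      - C * z.re ^ 2 * (mf a k z) ^ 2 - sf k z * (2 * z.re ^ 2 * mf a k z * B)|
      ≤ (5 + 5 * |k| + 2 * k ^ 2 + 2 * (|k| + k ^ 2) * (2 + |k|)) * tt ‖z‖ (mf a k z) := by
  have hr := rpos hz
  have hm := mf_pos hz a k
  set m := mf a k z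
  set T := tt ‖z‖ m
  have t1 : 1 / ‖z‖ ≤ T := tt_ge1 hr hm.le
  have t2 : m ≤ T := tt_ge2 hr hm.le
  have t3 : ‖z‖ * m ^ 2 ≤ T := tt_ge3 hr hm.le
  have hT : 0 ≤ T := tt_nonneg hr hm.le
  have hxm : |z.re| * m ≤ 1 := xm_le hz a k
  have hk := abs_nonneg k
  have b1 : |A * m ^ 2| ≤ T := by
    rw [abs_mul, abs_of_pos (pow_pos hm 2)]
    exact le_trans (mul_le_mul_of_nonneg_right hA (sq_nonneg m)) t3
  have b2 : |2 * z.re * z.im * m * B| ≤ 2 * ((2 + |k|) * T) := by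
    have : |2 * z.re * z.im * m * B| = 2 * ((|z.re| * m) * (|z.im| * |B|)) := by
      rw [abs_mul, abs_mul, abs_mul, abs_mul, abs_of_pos hm, abs_of_pos (by norm_num : (0:ℝ) < 2)]
      ring
    rw [this]
    have h1 : |z.im| * |B| ≤ ‖z‖ * |B| := mul_le_mul_of_nonneg_right (hy z) (abs_nonneg _)
    have h2 : (|z.re| * m) * (|z.im| * |B|) ≤ 1 * (|z.im| * |B|) :=
      mul_le_mul_of_nonneg_right hxm (by positivity)
    linarith
  have b3 : |-(C * z.re ^ 2 * m ^ 2)| ≤ (3 * |k| + 2 * k ^ 2) * T := by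
    rw [abs_neg, mul_assoc, abs_mul, abs_of_nonneg (by positivity : 0 ≤ z.re ^ 2 * m ^ 2)]
    calc |C| * (z.re ^ 2 * m ^ 2) ≤ |C| * 1 :=
          mul_le_mul_of_nonneg_left (xm2 hz a k) (abs_nonneg _)
      _ ≤ (3 * |k| + 2 * k ^ 2) * (1 / ‖z‖) := by rw [mul_one]; exact hC
      _ ≤ _ := mul_le_mul_of_nonneg_left t1 (by positivity)
  have b4 : |-(sf k z * (2 * z.re ^ 2 * m * B))| ≤ 2 * (|k| + k ^ 2) * ((2 + |k|) * T) := by
    have : |-(sf k z * (2 * z.re ^ 2 * m * B))| = 2 * |sf k z| * ((|z.re| * m) * (|z.re| * |B|)) := by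
      rw [abs_neg, abs_mul, abs_mul, abs_mul, abs_mul, abs_of_pos hm,
        abs_of_pos (by norm_num : (0:ℝ) < 2), abs_pow]
      ring
    rw [this]
    have h1 : |z.re| * |B| ≤ ‖z‖ * |B| := mul_le_mul_of_nonneg_right (hx z) (abs_nonneg _)
    have h2 : (|z.re| * m) * (|z.re| * |B|) ≤ 1 * (|z.re| * |B|) :=
      mul_le_mul_of_nonneg_right hxm (by positivity)
    have h3 : (|z.re| * m) * (|z.re| * |B|) ≤ (2 + |k|) * T := by linarith
    have h4 : 2 * |sf k z| ≤ 2 * (|k| + k ^ 2) := by linarith [sf_le hz k]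
    exact mul_le_mul h4 h3 (by positivity) (by positivity)
  have := abs4 b1 b2 b3 b4
  have e : A * m ^ 2 + 2 * z.re * z.im * m * B - C * z.re ^ 2 * m ^ 2
      - sf k z * (2 * z.re ^ 2 * m * B) = A * m ^ 2 + 2 * z.re * z.im * m * B
        + -(C * z.re ^ 2 * m ^ 2) + -(sf k z * (2 * z.re ^ 2 * m * B)) := by ring
  rw [e]
  refine le_trans this (le_of_eq ?_)
  ring

lemma P1_le {a k : ℝ} (ha : 0 < a) (ha1 : a < 1) : |P1 a k z| ≤
    ((1 / a) * (6 * |k| + 2 * k ^ 2) + (3 / a) * (2 * (|k| + k ^ 2)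
      + (5 + 5 * |k| + 2 * k ^ 2 + 2 * (|k| + k ^ 2) * (2 + |k|)))) * tt ‖z‖ (mf a k z) := by
  have hr := rpos hz
  have hm := mf_pos hz a k
  have t1 : 1 / ‖z‖ ≤ tt ‖z‖ (mf a k z) := tt_ge1 hr hm.le
  have t2 : mf a k z ≤ tt ‖z‖ (mf a k z) := tt_ge2 hr hm.le
  have hT : 0 ≤ tt ‖z‖ (mf a k z) := tt_nonneg hr hm.le
  have h := comb (c := 2 * k) (d := k ^ 2 / 8) (Qa hz) (Qc hz)
  have hk8 : |k ^ 2 / 8| = k ^ 2 / 8 := abs_of_nonneg (by positivity)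
  have h2k : |2 * k| = 2 * |k| := by rw [abs_mul, abs_two]
  rw [hk8, h2k] at h
  have p2 := part2 hz (a := a) (k := k) z.im (M1 a k z) (S1 k z) (hy z) (M1_le hz ha ha1) (S1_le hz k)
  have p3 : |-(sf k z * (2 * z.re * (mf a k z) ^ 2))| ≤ 2 * (|k| + k ^ 2) * tt ‖z‖ (mf a k z) := by
    have : |-(sf k z * (2 * z.re * (mf a k z) ^ 2))|
        = 2 * |sf k z| * ((|z.re| * mf a k z) * mf a k z) := by
      rw [abs_neg, abs_mul, abs_mul, abs_mul, abs_pow, abs_of_pos hm,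
        abs_of_pos (by norm_num : (0:ℝ) < 2)]
      ring
    rw [this]
    have h1 : (|z.re| * mf a k z) * mf a k z ≤ 1 * mf a k z :=
      mul_le_mul_of_nonneg_right (xm_le hz a k) hm.le
    have h4 : 2 * |sf k z| ≤ 2 * (|k| + k ^ 2) := by linarith [sf_le hz k]
    exact mul_le_mul h4 (by linarith) (by positivity) (by positivity)
  have p4 := abs2 p2 p3
  have e : P1 a k z = (1 / a) * ((2 * k) * (z.im / Complex.normSq z
      - 2 * z.re ^ 2 * z.im / (Complex.normSq z) ^ 2)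
    + (k ^ 2 / 8) * ((3 * z.re ^ 2 * z.im - z.im ^ 3) / (Complex.normSq z) ^ 2
      - 4 * z.re * (z.re * z.im * (z.re ^ 2 - z.im ^ 2)) / (Complex.normSq z) ^ 3))
     + (3 / a) * ((z.im * (mf a k z) ^ 2 + 2 * z.re * z.im * mf a k z * M1 a k z
      - S1 k z * z.re ^ 2 * (mf a k z) ^ 2 - sf k z * (2 * z.re ^ 2 * mf a k z * M1 a k z))
      + -(sf k z * (2 * z.re * (mf a k z) ^ 2))) := by
    unfold P1; ring
  rw [e]
  have h5 := comb (c := 1 / a) (d := 3 / a) h p4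
  rw [abs_of_pos (by positivity : 0 < 1 / a), abs_of_pos (by positivity : 0 < 3 / a)] at h5
  refine le_trans h5 ?_
  have h6 : 2 * |k| * (3 * (1 / ‖z‖)) + k ^ 2 / 8 * (12 * (1 / ‖z‖))
      ≤ (6 * |k| + 2 * k ^ 2) * tt ‖z‖ (mf a k z) := by
    have e1 : 2 * |k| * (3 * (1 / ‖z‖)) + k ^ 2 / 8 * (12 * (1 / ‖z‖))
      = (6 * |k| + k ^ 2 * (3 / 2)) * (1 / ‖z‖) := by ring
    rw [e1]
    have : 6 * |k| + k ^ 2 * (3 / 2) ≤ 6 * |k| + 2 * k ^ 2 := by nlinarith [sq_nonneg k]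
    exact mul_le_mul this t1 (by positivity) (by positivity)
  have h7 := mul_le_mul_of_nonneg_left h6 (by positivity : 0 ≤ 1 / a)
  have e8 : ((1 / a) * (6 * |k| + 2 * k ^ 2) + (3 / a) * (2 * (|k| + k ^ 2)
      + (5 + 5 * |k| + 2 * k ^ 2 + 2 * (|k| + k ^ 2) * (2 + |k|)))) * tt ‖z‖ (mf a k z)
      = 1 / a * ((6 * |k| + 2 * k ^ 2) * tt ‖z‖ (mf a k z))
        + 3 / a * ((5 + 5 * |k| + 2 * k ^ 2 + 2 * (|k| + k ^ 2) * (2 + |k|)) * tt ‖z‖ (mf a k z)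
        + 2 * (|k| + k ^ 2) * tt ‖z‖ (mf a k z)) := by ring
  rw [e8]
  linarith

lemma P2_le {a k : ℝ} (ha : 0 < a) (ha1 : a < 1) : |P2 a k z| ≤
    ((1 / a) * (6 * |k| + 2 * k ^ 2) + (3 / a) * (2 * (|k| + k ^ 2)
      + (5 + 5 * |k| + 2 * k ^ 2 + 2 * (|k| + k ^ 2) * (2 + |k|)))) * tt ‖z‖ (mf a k z) := by
  have hr := rpos hz
  have hm := mf_pos hz a k
  have t1 : 1 / ‖z‖ ≤ tt ‖z‖ (mf a k z) := tt_ge1 hr hm.le
  have hT : 0 ≤ tt ‖z‖ (mf a k z) := tt_nonneg hr hm.le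
  have h := comb (c := 2 * k) (d := k ^ 2 / 8) (Qb hz) (Qd hz)
  have hk8 : |k ^ 2 / 8| = k ^ 2 / 8 := abs_of_nonneg (by positivity)
  have h2k : |2 * k| = 2 * |k| := by rw [abs_mul, abs_two]
  rw [hk8, h2k] at h
  have p2 := part2 hz (a := a) (k := k) z.re (M2 a k z) (S2 k z) (hx z) (M2_le hz ha ha1) (S2_le hz k)
  have e : P2 a k z = (1 / a) * ((2 * k) * (z.re / Complex.normSq z
      - 2 * z.re * z.im ^ 2 / (Complex.normSq z) ^ 2)
    + (k ^ 2 / 8) * ((z.re ^ 3 - 3 * z.re * z.im ^ 2) / (Complex.normSq z) ^ 2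
      - 4 * z.im * (z.re * z.im * (z.re ^ 2 - z.im ^ 2)) / (Complex.normSq z) ^ 3))
     + (3 / a) * (z.re * (mf a k z) ^ 2 + 2 * z.re * z.im * mf a k z * M2 a k z
      - S2 k z * z.re ^ 2 * (mf a k z) ^ 2 - sf k z * (2 * z.re ^ 2 * mf a k z * M2 a k z)) := by
    unfold P2; ring
  rw [e]
  have h5 := comb (c := 1 / a) (d := 3 / a) h p2
  rw [abs_of_pos (by positivity : 0 < 1 / a), abs_of_pos (by positivity : 0 < 3 / a)] at h5
  refine le_trans h5 ?_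
  have h6 : 2 * |k| * (3 * (1 / ‖z‖)) + k ^ 2 / 8 * (12 * (1 / ‖z‖))
      ≤ (6 * |k| + 2 * k ^ 2) * tt ‖z‖ (mf a k z) := by
    have e1 : 2 * |k| * (3 * (1 / ‖z‖)) + k ^ 2 / 8 * (12 * (1 / ‖z‖))
      = (6 * |k| + k ^ 2 * (3 / 2)) * (1 / ‖z‖) := by ring
    rw [e1]
    have : 6 * |k| + k ^ 2 * (3 / 2) ≤ 6 * |k| + 2 * k ^ 2 := by nlinarith [sq_nonneg k]
    exact mul_le_mul this t1 (by positivity) (by positivity)
  have h7 := mul_le_mul_of_nonneg_left h6 (by positivity : 0 ≤ 1 / a)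
  have h9 : 0 ≤ 3 / a * (2 * (|k| + k ^ 2) * tt ‖z‖ (mf a k z)) := by positivity
  have e8 : ((1 / a) * (6 * |k| + 2 * k ^ 2) + (3 / a) * (2 * (|k| + k ^ 2)
      + (5 + 5 * |k| + 2 * k ^ 2 + 2 * (|k| + k ^ 2) * (2 + |k|)))) * tt ‖z‖ (mf a k z)
      = 1 / a * ((6 * |k| + 2 * k ^ 2) * tt ‖z‖ (mf a k z))
        + 3 / a * ((5 + 5 * |k| + 2 * k ^ 2 + 2 * (|k| + k ^ 2) * (2 + |k|)) * tt ‖z‖ (mf a k z))
        + 3 / a * (2 * (|k| + k ^ 2) * tt ‖z‖ (mf a k z)) := by ring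
  rw [e8]
  linarith

/-- the size functional is bounded by the required one. -/
lemma tt_le (a k : ℝ) : tt ‖z‖ (mf a k z)
    ≤ (1 + Real.exp |k| + (Real.exp |k|) ^ 2) * (‖z‖⁻¹ + ‖z‖ ^ (2 * a - 1)) := by
  have hr := rpos hz
  have hm := mf_pos hz a k
  have hg : mf a k z ≤ Real.exp |k| * ‖z‖ ^ (a - 1) := le_trans (mf_le_gf hz a k) (gf_le hz a k)
  set E := Real.exp |k|
  have hE : 0 < E := Real.exp_pos _
  set ρ := ‖z‖ ^ (a - 1)
  have hρ : 0 < ρ := Real.rpow_pos_of_pos hr _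
  have e1 : ‖z‖ ^ (2 * a - 1) = ‖z‖ * ρ ^ 2 := by
    have : ρ ^ 2 = ‖z‖ ^ ((a - 1) * 2) := by
      rw [← Real.rpow_natCast, ← Real.rpow_mul hr.le]; norm_num
    rw [this]
    nth_rewrite 2 [← Real.rpow_one ‖z‖]
    rw [← Real.rpow_add hr]; congr 1; ring
  rw [e1]
  have h2 : ρ ≤ ‖z‖⁻¹ + ‖z‖ * ρ ^ 2 := by
    have h3 : 0 ≤ ‖z‖⁻¹ * (1 - ‖z‖ * ρ) ^ 2 := by positivity
    have h4 : ‖z‖⁻¹ * (1 - ‖z‖ * ρ) ^ 2 = ‖z‖⁻¹ - 2 * ρ + ‖z‖ * ρ ^ 2 := by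
      field_simp
      ring
    linarith
  have h5 : ‖z‖ * (mf a k z) ^ 2 ≤ E ^ 2 * (‖z‖ * ρ ^ 2) := by
    calc ‖z‖ * (mf a k z) ^ 2 ≤ ‖z‖ * (E * ρ) ^ 2 := by gcongr
      _ = _ := by ring
  have h6 : 0 ≤ ‖z‖ * ρ ^ 2 := by positivity
  have h7 : 0 ≤ ‖z‖⁻¹ := by positivity
  unfold tt
  rw [one_div]
  have h8 : E * ρ ≤ E * (‖z‖⁻¹ + ‖z‖ * ρ ^ 2) := mul_le_mul_of_nonneg_left h2 hE.le
  nlinarith [mul_nonneg hE.le h7, mul_nonneg (sq_nonneg E) h7]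

lemma rm_le (a k : ℝ) : ‖z‖ * mf a k z ≤ Real.exp |k| * (1 + ‖z‖ ^ (2 * a)) := by
  have hr := rpos hz
  have hg : mf a k z ≤ Real.exp |k| * ‖z‖ ^ (a - 1) := le_trans (mf_le_gf hz a k) (gf_le hz a k)
  have e1 : ‖z‖ ^ (2 * a) = (‖z‖ * ‖z‖ ^ (a - 1)) ^ 2 := by
    have : ‖z‖ * ‖z‖ ^ (a - 1) = ‖z‖ ^ a := by
      nth_rewrite 1 [← Real.rpow_one ‖z‖]
      rw [← Real.rpow_add hr]; congr 1; ring
    rw [this, ← Real.rpow_natCast, ← Real.rpow_mul hr.le]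
    congr 1
    push_cast; ring
  rw [e1]
  set w := ‖z‖ * ‖z‖ ^ (a - 1)
  calc ‖z‖ * mf a k z ≤ ‖z‖ * (Real.exp |k| * ‖z‖ ^ (a - 1)) := mul_le_mul_of_nonneg_left hg hr.le
    _ = Real.exp |k| * w := by ring
    _ ≤ Real.exp |k| * (1 + w ^ 2) := by
      refine mul_le_mul_of_nonneg_left ?_ (Real.exp_pos _).le
      nlinarith [sq_nonneg (w - 1)]

end

lemma fd_norm {f : ℂ → ℝ} {z : ℂ} {A B : ℝ} (h : D f z A B) : ‖fderiv ℝ f z‖ ≤ |A| + |B| := by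
  have h' : HasFDerivAt f (A • Complex.reCLM + B • Complex.imCLM) z := h
  rw [h'.fderiv]
  refine ContinuousLinearMap.opNorm_le_bound _ (by positivity) fun v => ?_
  simp only [add_apply, smul_apply, Complex.reCLM_apply, Complex.imCLM_apply, smul_eq_mul,
    Real.norm_eq_abs]
  have h1 : |A * v.re| ≤ |A| * ‖v‖ := by
    rw [abs_mul]; exact mul_le_mul_of_nonneg_left (Complex.abs_re_le_norm v) (abs_nonneg _)
  have h2 : |B * v.im| ≤ |B| * ‖v‖ := by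
    rw [abs_mul]; exact mul_le_mul_of_nonneg_left (Complex.abs_im_le_norm v) (abs_nonneg _)
  calc _ ≤ _ := abs2 h1 h2
    _ = _ := by ring

theorem main : S_BD := by
  intro a k ha ha1 h
  have zero_or : ∀ z : ℂ, z = 0 ∨ z ≠ 0 := fun z => em _
  set E := Real.exp |k| with hE
  have hE0 : 0 < E := Real.exp_pos _
  have hk := abs_nonneg k
  set CP := ((1 / a) * (6 * |k| + 2 * k ^ 2) + (3 / a) * (2 * (|k| + k ^ 2)
      + (5 + 5 * |k| + 2 * k ^ 2 + 2 * (|k| + k ^ 2) * (2 + |k|)))) with hCP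
  have hCP0 : 0 ≤ CP := by positivity
  set CT := (1 + E + E ^ 2) with hCT
  have hCT0 : 0 < CT := by positivity
  have W1 : ∀ z : ℂ, |Wf a k z| ≤ 1 := by
    intro z
    rcases zero_or z with rfl | hz
    · simp [Wf]
    · unfold Wf
      rw [abs_mul, abs_of_pos (mf_pos hz a k)]
      exact xm_le hz a k
  have hJ : ∀ z : ℂ, 0 ≤ ‖z‖⁻¹ + ‖z‖ ^ (2 * a - 1) := fun z => by positivity
  have hJ0 : ∀ z : ℂ, 0 ≤ ‖z‖ ^ (2 * a) := fun z => by positivity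
  -- gradient bounds
  have gW : ∀ z : ℂ, z ≠ 0 → |mf a k z + z.re * M1 a k z| + |z.re * M2 a k z|
      ≤ (5 + 2 * |k|) * tt ‖z‖ (mf a k z) := by
    intro z hz
    have hr := rpos hz
    have hm := mf_pos hz a k
    have t2 := tt_ge2 hr hm.le
    have m1 := M1_le hz (k := k) ha ha1
    have m2 := M2_le hz (k := k) ha ha1
    have b1 : |z.re * M1 a k z| ≤ ‖z‖ * |M1 a k z| := by
      rw [abs_mul]; exact mul_le_mul_of_nonneg_right (hx z) (abs_nonneg _)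
    have b2 : |z.re * M2 a k z| ≤ ‖z‖ * |M2 a k z| := by
      rw [abs_mul]; exact mul_le_mul_of_nonneg_right (hx z) (abs_nonneg _)
    have b0 : |mf a k z| ≤ tt ‖z‖ (mf a k z) := by rw [abs_of_pos hm]; exact t2
    have := abs2 b0 b1
    nlinarith
  have gP : ∀ z : ℂ, z ≠ 0 → |P1 a k z| + |P2 a k z| ≤ 2 * CP * tt ‖z‖ (mf a k z) := by
    intro z hz
    have h1 := P1_le hz (k := k) ha ha1
    have h2 := P2_le hz (k := k) ha ha1
    linarith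
  have gX : ∀ z : ℂ, z ≠ 0 → |X1 a k z| + |X2 a k z|
      ≤ (2 * CP + (5 + 2 * |k|)) * tt ‖z‖ (mf a k z) := by
    intro z hz
    have e1 := ident1 a k hz ha.ne'
    have e2 := ident2 a k hz ha.ne'
    have e0 : a ^ 2 - (1 - k - k ^ 2 / 8) = 0 := by linarith
    rw [e0, mul_zero] at e1 e2
    have e1' : X1 a k z = Wf a k z * P1 a k z + -(z.re * M2 a k z) := by linarith
    have e2' : X2 a k z = Wf a k z * P2 a k z + (mf a k z + z.re * M1 a k z) := by linarith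
    have w := W1 z
    have b1 : |Wf a k z * P1 a k z| ≤ |P1 a k z| := by
      rw [abs_mul]; exact mul_le_of_le_one_left (abs_nonneg _) w
    have b2 : |Wf a k z * P2 a k z| ≤ |P2 a k z| := by
      rw [abs_mul]; exact mul_le_of_le_one_left (abs_nonneg _) w
    have c1 : |X1 a k z| ≤ |P1 a k z| + |z.re * M2 a k z| := by
      rw [e1']; exact abs2 b1 (by rw [abs_neg])
    have c2 : |X2 a k z| ≤ |P2 a k z| + |mf a k z + z.re * M1 a k z| := by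
      rw [e2']; exact abs2 b2 le_rfl
    have := gW z hz
    have := gP z hz
    nlinarith
  have fin : ∀ (C : ℝ), 0 ≤ C → ∀ z : ℂ, z ≠ 0 → ∀ (F : ℂ → ℝ) (A B : ℝ), D F z A B →
      |A| + |B| ≤ C * tt ‖z‖ (mf a k z) →
      ‖fderiv ℝ F z‖ ≤ (C * CT) * (‖z‖⁻¹ + ‖z‖ ^ (2 * a - 1)) := by
    intro C hC z hz F A B hD hAB
    have h1 := tt_le hz a k
    calc _ ≤ _ := fd_norm hD
      _ ≤ _ := hAB
      _ ≤ C * (CT * (‖z‖⁻¹ + ‖z‖ ^ (2 * a - 1))) := mul_le_mul_of_nonneg_left h1 hC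
      _ = _ := by ring
  refine ⟨⟨by simp [Wf], fun z hz => cd_Wf a k hz, ?_⟩, ⟨by simp [Pf, sf], fun z hz => cd_Pf a k hz, ?_⟩,
    ⟨by simp [Xf, sf], fun z hz => cd_Xf a k hz, ?_⟩, W1⟩
  · refine ⟨1 + (5 + 2 * |k|) * CT, by positivity, fun z => ?_, fun z hz => ?_⟩
    · have := W1 z
      have h1 : (1:ℝ) * 1 ≤ (1 + (5 + 2 * |k|) * CT) * (1 + ‖z‖ ^ (2 * a)) := by
        have h2 : 0 ≤ (5 + 2 * |k|) * CT := by positivity
        exact mul_le_mul (by linarith) (by linarith [hJ0 z]) (by norm_num) (by linarith)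
      linarith
    · have h1 := fin (5 + 2 * |k|) (by positivity) z hz _ _ _ (D_Wf a k hz) (gW z hz)
      have := hJ z
      nlinarith
  · refine ⟨(1 / a) * (2 * |k| + k ^ 2) + (3 / a) * (E + (|k| + k ^ 2)) + 1 + (2 * CP) * CT,
      by positivity, fun z => ?_, fun z hz => ?_⟩
    · rcases zero_or z with rfl | hz
      · have : Pf a k 0 = 0 := by simp [Pf, sf]
        rw [this, abs_zero]
        have := hJ0 0
        positivity
      · have hr := rpos hz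
        have hm := mf_pos hz a k
        have q1 := q1_le hz (2 * k)
        have q2 := q2_le hz k
        have h2k : |2 * k| = 2 * |k| := by rw [abs_mul, abs_two]
        rw [h2k] at q1
        have r1 : |z.re * z.im * (mf a k z) ^ 2| ≤ E * (1 + ‖z‖ ^ (2 * a)) := by
          have : |z.re * z.im * (mf a k z) ^ 2| = (|z.re| * mf a k z) * (|z.im| * mf a k z) := by
            rw [abs_mul, abs_mul, abs_of_pos (pow_pos hm 2)]; ring
          rw [this]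
          have h1 : |z.im| * mf a k z ≤ ‖z‖ * mf a k z := mul_le_mul_of_nonneg_right (hy z) hm.le
          have h2 := rm_le hz a k
          calc _ ≤ 1 * (|z.im| * mf a k z) :=
                mul_le_mul_of_nonneg_right (xm_le hz a k) (by positivity)
            _ ≤ _ := by linarith
        have r2 : |-(sf k z * z.re ^ 2 * (mf a k z) ^ 2)| ≤ |k| + k ^ 2 := by
          rw [abs_neg, mul_assoc, abs_mul, abs_of_nonneg (by positivity : 0 ≤ z.re ^ 2 * mf a k z ^ 2)]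
          calc _ ≤ |sf k z| * 1 := mul_le_mul_of_nonneg_left (xm2 hz a k) (abs_nonneg _)
            _ ≤ _ := by rw [mul_one]; exact sf_le hz k
        have r3 := comb (c := 1 / a) (d := 3 / a) (abs2 q1 q2) (abs2 r1 r2)
        rw [abs_of_pos (by positivity : 0 < 1 / a), abs_of_pos (by positivity : 0 < 3 / a)] at r3
        have e : Pf a k z = 1 / a * (2 * k * z.re * z.im / Complex.normSq z
            + k ^ 2 / 8 * z.re * z.im * (z.re ^ 2 - z.im ^ 2) / Complex.normSq z ^ 2)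
            + 3 / a * (z.re * z.im * mf a k z ^ 2 + -(sf k z * z.re ^ 2 * mf a k z ^ 2)) := by
          unfold Pf; ring
        rw [e]
        refine le_trans r3 ?_
        set w := ‖z‖ ^ (2 * a)
        have hw : 0 ≤ w := hJ0 z
        have x1 : 0 ≤ 1 / a * (2 * |k| + k ^ 2) * w := by positivity
        have x2 : 0 ≤ 3 / a * (|k| + k ^ 2) * w := by positivity
        have x3 : 0 ≤ (1 + (2 * CP) * CT) * (1 + w) := by positivity
        have e9 : ((1 / a) * (2 * |k| + k ^ 2) + (3 / a) * (E + (|k| + k ^ 2)) + 1 + (2 * CP) * CT)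
            * (1 + w) = (1 / a * (2 * |k| + k ^ 2) + 3 / a * (E * (1 + w) + (|k| + k ^ 2)))
              + 1 / a * (2 * |k| + k ^ 2) * w + 3 / a * (|k| + k ^ 2) * w
              + (1 + (2 * CP) * CT) * (1 + w) := by ring
        rw [e9]
        linarith
    · have h1 := fin (2 * CP) (by positivity) z hz _ _ _ (D_Pf a k hz) (gP z hz)
      refine le_trans h1 (mul_le_mul_of_nonneg_right ?_ (hJ z))
      have : 0 ≤ (1 / a) * (2 * |k| + k ^ 2) + (3 / a) * (E + (|k| + k ^ 2)) + 1 := by positivity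
      linarith
  · refine ⟨(2 / a) * ((1 + (|k| + k ^ 2)) * E) + (1 / a) * ((1 + |k|) * E) + 1
        + (2 * CP + (5 + 2 * |k|)) * CT,
      by positivity, fun z => ?_, fun z hz => ?_⟩
    · rcases zero_or z with rfl | hz
      · have : Xf a k 0 = 0 := by simp [Xf, sf]
        rw [this, abs_zero]
        have := hJ0 0
        positivity
      · have hr := rpos hz
        have hm := mf_pos hz a k
        have h2 := rm_le hz a k
        have s0 := sf_le hz k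
        have r1 : |(z.im - sf k z * z.re) * z.re ^ 2 * (mf a k z) ^ 3|
            ≤ (1 + (|k| + k ^ 2)) * (E * (1 + ‖z‖ ^ (2 * a))) := by
          have : |(z.im - sf k z * z.re) * z.re ^ 2 * (mf a k z) ^ 3|
              = |z.im - sf k z * z.re| * mf a k z * (z.re ^ 2 * (mf a k z) ^ 2) := by
            rw [abs_mul, abs_mul, abs_of_pos (pow_pos hm 3), abs_of_nonneg (sq_nonneg z.re)]; ring
          rw [this]
          have h3 : |z.im - sf k z * z.re| ≤ (1 + (|k| + k ^ 2)) * ‖z‖ := by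
            have h4 : |sf k z * z.re| ≤ (|k| + k ^ 2) * ‖z‖ := by
              rw [abs_mul]; exact mul_le_mul s0 (hx z) (abs_nonneg _) (by positivity)
            calc _ ≤ |z.im| + |sf k z * z.re| := abs_sub _ _
              _ ≤ _ := by linarith [hy z]
          have h5 : |z.im - sf k z * z.re| * mf a k z ≤ (1 + (|k| + k ^ 2)) * (‖z‖ * mf a k z) := by
            calc _ ≤ (1 + (|k| + k ^ 2)) * ‖z‖ * mf a k z := mul_le_mul_of_nonneg_right h3 hm.le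
              _ = _ := by ring
          calc _ ≤ |z.im - sf k z * z.re| * mf a k z * 1 :=
                mul_le_mul_of_nonneg_left (xm2 hz a k) (by positivity)
            _ ≤ (1 + (|k| + k ^ 2)) * (‖z‖ * mf a k z) := by rw [mul_one]; exact h5
            _ ≤ _ := mul_le_mul_of_nonneg_left h2 (by positivity)
        have r2 : |(z.im + k * z.re ^ 2 * z.im / Complex.normSq z) * mf a k z|
            ≤ (1 + |k|) * (E * (1 + ‖z‖ ^ (2 * a))) := by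
          have h3 : |k * z.re ^ 2 * z.im / Complex.normSq z| ≤ |k| * ‖z‖ := by
            have e : k * z.re ^ 2 * z.im / Complex.normSq z
                = (k * (z.re ^ 2 * z.im ^ 0) / ‖z‖ ^ 2) * z.im := by
              rw [NN hz]; ring
            rw [e, abs_mul]
            exact mul_le_mul (mono0 hz k 2 0 2 rfl) (hy z) (abs_nonneg _) hk
          have h4 : |z.im + k * z.re ^ 2 * z.im / Complex.normSq z| ≤ (1 + |k|) * ‖z‖ := by
            have := abs2 (hy z) h3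
            linarith
          rw [abs_mul, abs_of_pos hm]
          calc _ ≤ (1 + |k|) * ‖z‖ * mf a k z := mul_le_mul_of_nonneg_right h4 hm.le
            _ = (1 + |k|) * (‖z‖ * mf a k z) := by ring
            _ ≤ _ := mul_le_mul_of_nonneg_left h2 (by positivity)
        have r3 := comb (c := 2 / a) (d := 1 / a) r1 r2
        rw [abs_of_pos (by positivity : 0 < 1 / a), abs_of_pos (by positivity : 0 < 2 / a)] at r3
        have e : Xf a k z = 2 / a * ((z.im - sf k z * z.re) * z.re ^ 2 * mf a k z ^ 3)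
            + 1 / a * ((z.im + k * z.re ^ 2 * z.im / Complex.normSq z) * mf a k z) := by
          unfold Xf; ring
        rw [e]
        refine le_trans r3 ?_
        set w := ‖z‖ ^ (2 * a)
        have hw : 0 ≤ w := hJ0 z
        have x3 : 0 ≤ (1 + (2 * CP + (5 + 2 * |k|)) * CT) * (1 + w) := by positivity
        have e9 : ((2 / a) * ((1 + (|k| + k ^ 2)) * E) + (1 / a) * ((1 + |k|) * E) + 1
            + (2 * CP + (5 + 2 * |k|)) * CT) * (1 + w)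
            = (2 / a * ((1 + (|k| + k ^ 2)) * (E * (1 + w))) + 1 / a * ((1 + |k|) * (E * (1 + w))))
              + (1 + (2 * CP + (5 + 2 * |k|)) * CT) * (1 + w) := by ring
        rw [e9]
        linarith
    · have h1 := fin (2 * CP + (5 + 2 * |k|)) (by positivity) z hz _ _ _ (D_Xf a k hz) (gX z hz)
      refine le_trans h1 (mul_le_mul_of_nonneg_right ?_ (hJ z))
      have : 0 ≤ (2 / a) * ((1 + (|k| + k ^ 2)) * E) + (1 / a) * ((1 + |k|) * E) + 1 := by positivity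
      linarith

end

end Pool.Agent.Helper28.ND.BD
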