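import Mathlib

/-!
# MP_0c2f33_an: definitions and the statements of the parts of the swarm ND.
-/

namespace Pool.Agent.Helper28.ND
open MeasureTheory Set Filter Topology
open scoped ENNReal NNReal

noncomputable section

/-! ## The objects of the problem -/

/-- The unit cube, a fundamental domain of the torus. -/
def Q (d : ℕ) : Set (Fin d → ℝ) := Set.pi Set.univ (fun _ => Set.Ioc (0 : ℝ) 1)

/-- Periodicity with respect to the integer lattice. -/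
def Per {d : ℕ} {E : Type} (f : (Fin d → ℝ) → E) : Prop :=
  ∀ (x : Fin d → ℝ) (k : Fin d → ℤ), f (fun i => x i + (k i : ℝ)) = f x

/-- The derivative in the direction `i`. -/
def pd {d : ℕ} (i : Fin d) (f : (Fin d → ℝ) → ℝ) (x : Fin d → ℝ) : ℝ :=
  fderiv ℝ f x (Pi.single i 1)

/-- The Laplacian. -/
def lap {d : ℕ} (f : (Fin d → ℝ) → ℝ) (x : Fin d → ℝ) : ℝ := ∑ i, pd i (pd i f) x

/-- The time derivative. -/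
def dt {d : ℕ} (f : ℝ → (Fin d → ℝ) → ℝ) (t : ℝ) (x : Fin d → ℝ) : ℝ :=
  deriv (fun s => f s x) t

/-- Uncurrying. -/
def U {d : ℕ} {E : Type} (f : ℝ → (Fin d → ℝ) → E) : ℝ × (Fin d → ℝ) → E := fun z => f z.1 z.2

/-- Smooth functions of time and space, periodic in space. -/
structure SmoothPer {d : ℕ} (f : ℝ → (Fin d → ℝ) → ℝ) : Prop where
  smooth : ContDiff ℝ (⊤ : ℕ∞) (U f)
  per : ∀ t, Per (f t)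

/-- Test functions on `[0,T) × torus`. -/
def IsTest {d : ℕ} (T : ℝ) (f : ℝ → (Fin d → ℝ) → ℝ) : Prop :=
  SmoothPer f ∧ ∃ S, S < T ∧ ∀ t, S ≤ t → ∀ x, f t x = 0

/-- Test functions on `(0,T) × torus`. -/
def IsTest0 {d : ℕ} (T : ℝ) (f : ℝ → (Fin d → ℝ) → ℝ) : Prop :=
  SmoothPer f ∧ ∃ e, 0 < e ∧ ∀ t, (t ≤ e ∨ T - e ≤ t) → ∀ x, f t x = 0

/-- `b` is a divergence-free field in `L^2(0,T; L^p)`. -/
structure Drift (d : ℕ) (T : ℝ) (p : ℝ≥0∞) (b : ℝ → (Fin d → ℝ) → (Fin d → ℝ)) : Prop where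
  meas : Measurable (U b)
  per : ∀ t, Per (b t)
  norm : ∫⁻ t in Ioo 0 T, (eLpNorm (b t) p (volume.restrict (Q d))) ^ 2 < ⊤
  div : ∀ f : ℝ → (Fin d → ℝ) → ℝ, IsTest0 T f →
    ∫ t in Ioo 0 T, ∫ x in Q d, ∑ i, b t x i * pd i (f t) x = 0

/-- `u` is in `L^∞(0,T; L^q)` and is a distributional solution with drift `b` and datum `u0`. -/
structure Sol (d : ℕ) (T : ℝ) (q : ℝ≥0∞) (b : ℝ → (Fin d → ℝ) → (Fin d → ℝ))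
    (u0 : (Fin d → ℝ) → ℝ) (u : ℝ → (Fin d → ℝ) → ℝ) : Prop where
  meas : Measurable (U u)
  per : ∀ t, Per (u t)
  bound : ∃ C : ℝ≥0, ∀ᵐ t ∂(volume.restrict (Ioo 0 T)),
    eLpNorm (u t) q (volume.restrict (Q d)) ≤ C
  meas0 : Measurable u0
  per0 : Per u0
  bound0 : eLpNorm u0 q (volume.restrict (Q d)) < ⊤
  eqn : ∀ f : ℝ → (Fin d → ℝ) → ℝ, IsTest T f →
    (∫ t in Ioo 0 T, ∫ x in Q d, u t x * (dt f t x + (∑ i, b t x i * pd i (f t) x)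
      + lap (f t) x)) + ∫ x in Q d, u0 x * f 0 x = 0

/-- `u` is in `L^2(0,T; H^1)`. -/
def Parabolic (d : ℕ) (T : ℝ) (u : ℝ → (Fin d → ℝ) → ℝ) : Prop :=
  (∫⁻ t in Ioo 0 T, ∫⁻ x in Q d, ENNReal.ofReal ((u t x) ^ 2)) < ⊤ ∧
  ∃ G : ℝ → (Fin d → ℝ) → (Fin d → ℝ), Measurable (U G) ∧
    (∫⁻ t in Ioo 0 T, ∫⁻ x in Q d, ENNReal.ofReal (∑ i, (G t x i) ^ 2)) < ⊤ ∧
    ∀ (i : Fin d) (f : ℝ → (Fin d → ℝ) → ℝ), IsTest0 T f →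
      ∫ t in Ioo 0 T, ∫ x in Q d, u t x * pd i (f t) x
        = - ∫ t in Ioo 0 T, ∫ x in Q d, G t x i * f t x

/-- The final statement. -/
def S_RESULT : Prop :=
  (∀ (d : ℕ) (T : ℝ) (p q : ℝ≥0∞), 2 ≤ d → 0 < T → 1 ≤ p → 1 ≤ q → p < 2 →
    ∃ (b : ℝ → (Fin d → ℝ) → (Fin d → ℝ)) (u0 : (Fin d → ℝ) → ℝ) (u : ℝ → (Fin d → ℝ) → ℝ),
      Drift d T p b ∧ Sol d T q b u0 u ∧ ¬ Parabolic d T u) ∧
  (∀ (d : ℕ) (T : ℝ) (p q : ℝ≥0∞), 0 < T → 2 ≤ q → 2 * p⁻¹ + q⁻¹ ≤ 1 →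
    ∀ (b : ℝ → (Fin d → ℝ) → (Fin d → ℝ)) (u0 : (Fin d → ℝ) → ℝ) (u : ℝ → (Fin d → ℝ) → ℝ),
      Drift d T p b → Sol d T q b u0 u → Parabolic d T u)

/-! ## N: the explicit non-parabolic solution for `p < 2` -/

/-- `|ζ|^(a-1) exp(-(κ/2) sin²θ)`. -/
def gf (a k : ℝ) (z : ℂ) : ℝ :=
  (Complex.normSq z) ^ ((a - 1) / 2) * Real.exp (-(k / 2) * z.im ^ 2 / Complex.normSq z)

def mf (a k : ℝ) (z : ℂ) : ℝ := gf a k z / Real.sqrt (1 + z.re ^ 2 * (gf a k z) ^ 2)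

/-- The solution in the `ζ`-plane; `|Wf| ≤ 1`. -/
def Wf (a k : ℝ) (z : ℂ) : ℝ := z.re * mf a k z

def sf (k : ℝ) (z : ℂ) : ℝ :=
  k * z.re * z.im / Complex.normSq z
    + (k ^ 2 / 8) * z.re * z.im * (z.re ^ 2 - z.im ^ 2) / (Complex.normSq z) ^ 2

/-- The stream function in the `ζ`-plane. -/
def Pf (a k : ℝ) (z : ℂ) : ℝ :=
  (1 / a) * (2 * k * z.re * z.im / Complex.normSq z
    + (k ^ 2 / 8) * z.re * z.im * (z.re ^ 2 - z.im ^ 2) / (Complex.normSq z) ^ 2)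
  + (3 / a) * (z.re * z.im * (mf a k z) ^ 2 - sf k z * z.re ^ 2 * (mf a k z) ^ 2)

/-- The potential of `b w - ∇ w`. -/
def Xf (a k : ℝ) (z : ℂ) : ℝ :=
  (2 / a) * (z.im - sf k z * z.re) * z.re ^ 2 * (mf a k z) ^ 3
  + (1 / a) * (z.im + k * z.re ^ 2 * z.im / Complex.normSq z) * mf a k z

/-- N1 (ID): the first-order identity (checked numerically), for `a² = 1 - κ - κ²/8`. -/
def S_ID : Prop := ∀ a k : ℝ, 0 < a → a < 1 → a ^ 2 = 1 - k - k ^ 2 / 8 → ∀ z : ℂ, z ≠ 0 →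
  ContDiffAt ℝ (⊤ : ℕ∞) (Wf a k) z ∧ ContDiffAt ℝ (⊤ : ℕ∞) (Pf a k) z ∧
  ContDiffAt ℝ (⊤ : ℕ∞) (Xf a k) z ∧
  ∀ v : ℂ, fderiv ℝ (Xf a k) z v
    = Wf a k z * fderiv ℝ (Pf a k) z v - fderiv ℝ (Wf a k) z (Complex.I * v)

/-- A function on the punctured `ζ`-plane with the bounds that we need. -/
structure Good (a : ℝ) (Y : ℂ → ℝ) : Prop where
  zero : Y 0 = 0
  smooth : ∀ z : ℂ, z ≠ 0 → ContDiffAt ℝ (⊤ : ℕ∞) Y z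
  bd : ∃ C : ℝ, 0 < C ∧ (∀ z : ℂ, |Y z| ≤ C * (1 + ‖z‖ ^ (2 * a))) ∧
    ∀ z : ℂ, z ≠ 0 → ‖fderiv ℝ Y z‖ ≤ C * (‖z‖⁻¹ + ‖z‖ ^ (2 * a - 1))

/-- N2 (BD): the three functions are `Good` and `|Wf| ≤ 1`. -/
def S_BD : Prop := ∀ a k : ℝ, 0 < a → a < 1 → a ^ 2 = 1 - k - k ^ 2 / 8 →
  Good a (Wf a k) ∧ Good a (Pf a k) ∧ Good a (Xf a k) ∧ ∀ z : ℂ, |Wf a k z| ≤ 1

/-- The square lattice. -/
def Lat : PeriodPair where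
  ω₁ := 1
  ω₂ := Complex.I
  indep := by
    rw [LinearIndependent.pair_iff]
    intro s t h
    have h1 := congrArg Complex.re h
    have h2 := congrArg Complex.im h
    simp at h1 h2
    exact ⟨h1, h2⟩

/-- The Weierstrass function of the square lattice (value `0` at the lattice points). -/
def wp : ℂ → ℂ := PeriodPair.weierstrassP Lat

/-- The bad set: lattice points and zeros. -/
def Bad : Set ℂ := {z | wp z = 0}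

/-- The fundamental square in `ℂ`. -/
def Sq : Set ℂ := {z | z.re ∈ Ioc (0 : ℝ) 1 ∧ z.im ∈ Ioc (0 : ℝ) 1}

/-- N3 (WPF): basic facts on `wp`. -/
def S_WPF : Prop :=
  (∀ z, wp (z + 1) = wp z) ∧ (∀ z, wp (z + Complex.I) = wp z) ∧
  IsClosed Bad ∧ Bad.Countable ∧ (∀ z, z ∉ Bad → AnalyticAt ℂ wp z) ∧
  Measurable wp ∧
  Tendsto (fun z : ℂ => z ^ 2 * wp z) (𝓝[≠] 0) (𝓝 1)

/-- N4 (WPI): integrability.  Near every point `z0` one has `wp z = (z-z0)^n h(z)` with `n ≥ -2`,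
`h` analytic, `h z0 ≠ 0`, hence `‖wp'‖(‖wp‖⁻¹ + ‖wp‖^(2a-1)) ≤ C |z-z0|^(-1-4a)`. -/
def S_WPI : Prop := ∀ a s : ℝ, 0 < a → 1 ≤ s → (1 + 4 * a) * s < 2 →
  (∫⁻ z in Sq, ENNReal.ofReal ((‖deriv wp z‖ * (‖wp z‖⁻¹ + ‖wp z‖ ^ (2 * a - 1))) ^ s)) < ⊤ ∧
  (∫⁻ z in Sq, ENNReal.ofReal (1 + ‖wp z‖ ^ (2 * a))) < ⊤

/-- The projection of the `d`-dimensional space to the plane of the coordinates `0` and `1`. -/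
def prj {d : ℕ} (hd : 2 ≤ d) (x : Fin d → ℝ) : ℂ :=
  ⟨x ⟨0, by omega⟩, x ⟨1, by omega⟩⟩

def i0 {d : ℕ} (hd : 2 ≤ d) : Fin d := ⟨0, by omega⟩
def i1 {d : ℕ} (hd : 2 ≤ d) : Fin d := ⟨1, by omega⟩

/-- The composition with `wp` and the projection. -/
def cp {d : ℕ} (hd : 2 ≤ d) (Y : ℂ → ℝ) (x : Fin d → ℝ) : ℝ := Y (wp (prj hd x))

/-- N4b (PRJ): Fubini for functions of the first two coordinates. -/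
def S_PRJ : Prop := ∀ (d : ℕ) (hd : 2 ≤ d) (F : ℂ → ℝ≥0∞), Measurable F →
  ∫⁻ x in Q d, F (prj hd x) = ∫⁻ z in Sq, F z

/-- N5 (IBPW): for a `Good` function `Y` the composition is in `W^{1,1}` of the torus: it is
measurable, periodic, smooth off a closed null set, and integration by parts holds
(cut off with `θ(n‖wp‖²) θ(n/‖wp‖²)`, dominated convergence). -/
def S_IBPW : Prop := ∀ (a : ℝ), 0 < a → a < 1 / 4 → ∀ (Y : ℂ → ℝ), Good a Y →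
  ∀ (d : ℕ) (hd : 2 ≤ d),
    Measurable (cp hd Y) ∧ Per (cp hd Y) ∧ IntegrableOn (cp hd Y) (Q d) ∧
    (∀ i : Fin d, IntegrableOn (pd i (cp hd Y)) (Q d)) ∧
    (∀ (i : Fin d) (f : (Fin d → ℝ) → ℝ), ContDiff ℝ 1 f → Per f →
      ∫ x in Q d, pd i (cp hd Y) x * f x = - ∫ x in Q d, cp hd Y x * pd i f x)

/-- N6 (LPB): `∇ (cp Y)` is in `L^s`. -/
def S_LPB : Prop := ∀ (a : ℝ), 0 < a → a < 1 / 4 → ∀ (Y : ℂ → ℝ), Good a Y →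
  ∀ (d : ℕ) (hd : 2 ≤ d) (s : ℝ), 1 ≤ s → (1 + 4 * a) * s < 2 → ∀ i : Fin d,
    MemLp (pd i (cp hd Y)) (ENNReal.ofReal s) (volume.restrict (Q d))

/-- N7 (CURL): the rotated gradient of `cp Y` is divergence free. -/
def S_CURL : Prop := ∀ (a : ℝ), 0 < a → a < 1 / 4 → ∀ (Y : ℂ → ℝ), Good a Y →
  ∀ (d : ℕ) (hd : 2 ≤ d) (f : (Fin d → ℝ) → ℝ), ContDiff ℝ 2 f → Per f →
    ∫ x in Q d, (pd (i0 hd) (cp hd Y) x * pd (i1 hd) f x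
      - pd (i1 hd) (cp hd Y) x * pd (i0 hd) f x) = 0

/-- N8 (CHAIN): the identity after composition, off the bad set. -/
def S_CHAIN : Prop := ∀ (a k : ℝ), 0 < a → a < 1 → a ^ 2 = 1 - k - k ^ 2 / 8 →
  ∀ (d : ℕ) (hd : 2 ≤ d) (x : Fin d → ℝ), prj hd x ∉ Bad →
    pd (i0 hd) (cp hd (Xf a k)) x = cp hd (Wf a k) x * pd (i0 hd) (cp hd (Pf a k)) x
        - pd (i1 hd) (cp hd (Wf a k)) x ∧
    pd (i1 hd) (cp hd (Xf a k)) x = cp hd (Wf a k) x * pd (i1 hd) (cp hd (Pf a k)) x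
        + pd (i0 hd) (cp hd (Wf a k)) x

/-- The static drift. -/
def bN (a k : ℝ) {d : ℕ} (hd : 2 ≤ d) (_t : ℝ) (x : Fin d → ℝ) : Fin d → ℝ := fun i =>
  if i = i0 hd then - pd (i1 hd) (cp hd (Pf a k)) x
  else if i = i1 hd then pd (i0 hd) (cp hd (Pf a k)) x else 0

/-- N9 (NDR): the drift is admissible. -/
def S_NDR : Prop := ∀ (a k : ℝ), 0 < a → a < 1 / 4 → a ^ 2 = 1 - k - k ^ 2 / 8 →
  ∀ (d : ℕ) (hd : 2 ≤ d) (T : ℝ) (s : ℝ), 0 < T → 1 ≤ s → (1 + 4 * a) * s < 2 →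
    Drift d T (ENNReal.ofReal s) (bN a k hd)

/-- N10 (NSO): `cp Wf` is a static solution (bounded by `1`). -/
def S_NSO : Prop := ∀ (a k : ℝ), 0 < a → a < 1 / 4 → a ^ 2 = 1 - k - k ^ 2 / 8 →
  ∀ (d : ℕ) (hd : 2 ≤ d) (T : ℝ) (q : ℝ≥0∞), 0 < T →
    Sol d T q (bN a k hd) (cp hd (Wf a k)) (fun _ => cp hd (Wf a k))

/-- N11 (INF): the Dirichlet integral is infinite (segments from `(s,0)` to `(0,s)`: `Wf (wp z)`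
tends to `1` along the positive real axis and to `-1` along the positive imaginary axis). -/
def S_INF : Prop := ∀ (a k : ℝ), 0 < a → a < 1 / 4 → a ^ 2 = 1 - k - k ^ 2 / 8 →
  ∀ (d : ℕ) (hd : 2 ≤ d),
    ∫⁻ x in Q d, ENNReal.ofReal ((pd (i0 hd) (cp hd (Wf a k)) x) ^ 2
      + (pd (i1 hd) (cp hd (Wf a k)) x) ^ 2) = ⊤

/-- N11b (FUND): the fundamental lemma with periodic test functions. -/
def S_FUND : Prop := ∀ (d : ℕ) (T : ℝ) (g : ℝ → (Fin d → ℝ) → ℝ), 0 < T → Measurable (U g) →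
  (∫⁻ t in Ioo 0 T, ∫⁻ x in Q d, ‖g t x‖ₑ) < ⊤ →
  (∀ f : ℝ → (Fin d → ℝ) → ℝ, IsTest0 T f → ∫ t in Ioo 0 T, ∫ x in Q d, g t x * f t x = 0) →
  ∀ᵐ t ∂(volume.restrict (Ioo 0 T)), ∀ᵐ x ∂(volume.restrict (Q d)), g t x = 0

/-- N12 (NPA): not parabolic. -/
def S_NPA : Prop := ∀ (a k : ℝ), 0 < a → a < 1 / 4 → a ^ 2 = 1 - k - k ^ 2 / 8 →
  ∀ (d : ℕ) (hd : 2 ≤ d) (T : ℝ), 0 < T → ¬ Parabolic d T (fun _ => cp hd (Wf a k))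

/-- N13 (NFIN): the first half of the result. -/
def S_NFIN : Prop :=
  ∀ (d : ℕ) (T : ℝ) (p q : ℝ≥0∞), 2 ≤ d → 0 < T → 1 ≤ p → 1 ≤ q → p < 2 →
    ∃ (b : ℝ → (Fin d → ℝ) → (Fin d → ℝ)) (u0 : (Fin d → ℝ) → ℝ) (u : ℝ → (Fin d → ℝ) → ℝ),
      Drift d T p b ∧ Sol d T q b u0 u ∧ ¬ Parabolic d T u

/-! ## P: parabolicity for `2/p + 1/q ≤ 1` -/

/-- P1 (IBP). -/
def S_IBP : Prop := ∀ (d : ℕ) (G : (Fin d → ℝ) → ℝ), ContDiff ℝ 1 G → Per G →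
  ∀ i, ∫ x in Q d, pd i G x = 0

/-- Standard Gaussian measure. -/
def gam (d : ℕ) : Measure (Fin d → ℝ) :=
  Measure.pi (fun _ => ProbabilityTheory.gaussianReal 0 1)

/-- P2 (STEIN). -/
def S_STEIN : Prop := ∀ (d : ℕ) (f : (Fin d → ℝ) → ℝ), ContDiff ℝ 1 f →
  (∃ B : ℝ, ∀ x, |f x| ≤ B ∧ ‖fderiv ℝ f x‖ ≤ B) →
  ∀ i, ∫ z, z i * f z ∂(gam d) = ∫ z, pd i f z ∂(gam d)

/-- Smooth compactly supported functions on `(0,∞) × ℝ^d`. -/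
structure CC {d : ℕ} (f : ℝ → (Fin d → ℝ) → ℝ) : Prop where
  smooth : ContDiff ℝ (⊤ : ℕ∞) (U f)
  supp : HasCompactSupport (U f)
  pos : ∀ t, t ≤ 0 → ∀ x, f t x = 0

/-- P3 (HEAT): the backward heat flow identity (differentiate `r ↦ ∫ f(t-r, x-√(2r) z) dγ(z)` and
use STEIN). -/
def S_HEAT : Prop := ∀ (d : ℕ) (f : ℝ → (Fin d → ℝ) → ℝ), CC f →
  ∀ (R : ℝ), 0 < R → ∀ (t : ℝ), t < R → ∀ x : Fin d → ℝ,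
    ∫ r in Ioo 0 R, ∫ z, (lap (f (t - r)) (x - Real.sqrt (2 * r) • z)
      - dt f (t - r) (x - Real.sqrt (2 * r) • z)) ∂(gam d) = - f t x

/-- The heat potential of `F` (`F = 0` for times outside `(0,S)`). -/
def Phi {d : ℕ} (S : ℝ) (F : ℝ → (Fin d → ℝ) → ℝ) (t : ℝ) (x : Fin d → ℝ) : ℝ :=
  ∫ r in Ioo 0 S, ∫ z, F (t + r) (x + Real.sqrt (2 * r) • z) ∂(gam d)

/-- Its gradient. -/
def Vel {d : ℕ} (S : ℝ) (F : ℝ → (Fin d → ℝ) → ℝ) (i : Fin d) (t : ℝ) (x : Fin d → ℝ) : ℝ :=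
  ∫ r in Ioo 0 S, ∫ z, (z i / Real.sqrt (2 * r)) * F (t + r) (x + Real.sqrt (2 * r) • z) ∂(gam d)

/-- Admissible sources. -/
structure Src {d : ℕ} (S : ℝ) (F : ℝ → (Fin d → ℝ) → ℝ) : Prop where
  meas : Measurable (U F)
  per : ∀ t, Per (F t)
  bdd : ∃ B : ℝ, ∀ t x, |F t x| ≤ B
  supp : ∀ t, (t ≤ 0 ∨ S ≤ t) → ∀ x, F t x = 0

/-- Bounded measurable functions, periodic in space. -/
structure BMP {d : ℕ} (F : ℝ → (Fin d → ℝ) → ℝ) : Prop where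
  meas : Measurable (U F)
  per : ∀ t, Per (F t)
  bdd : ∃ B : ℝ, ∀ t x, |F t x| ≤ B

/-- P4 (KB): basic properties of the potentials. -/
def S_KB : Prop := ∀ (d : ℕ) (S : ℝ) (F : ℝ → (Fin d → ℝ) → ℝ), 0 < S → Src S F →
  BMP (Phi S F) ∧ (∀ i, BMP (Vel S F i)) ∧
  (∀ t, S ≤ t → ∀ x, Phi S F t x = 0 ∧ ∀ i, Vel S F i t x = 0) ∧
  (∀ B t1 : ℝ, (∀ᵐ z : ℝ × (Fin d → ℝ), |U F z| ≤ B) → (∀ t, t1 ≤ t → ∀ x, F t x = 0) →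
    ∀ i, ∀ t, t ≤ t1 → ∀ x, |Vel S F i t x| ≤ 2 * B * Real.sqrt (t1 - t))

/-- P5 (WEQ): the weak equations (Fubini, HEAT, STEIN). -/
def S_WEQ : Prop := ∀ (d : ℕ) (S : ℝ) (F : ℝ → (Fin d → ℝ) → ℝ), 0 < S → Src S F →
  ∀ f : ℝ → (Fin d → ℝ) → ℝ, CC f →
    (∫ z : ℝ × (Fin d → ℝ), U (Phi S F) z * (lap (f z.1) z.2 - dt f z.1 z.2)
      = - ∫ z : ℝ × (Fin d → ℝ), U F z * U f z) ∧
    ∀ i, ∫ z : ℝ × (Fin d → ℝ), U (Phi S F) z * pd i (f z.1) z.2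
      = - ∫ z : ℝ × (Fin d → ℝ), U (Vel S F i) z * U f z

/-- The mollifier. -/
def bmp (d n : ℕ) : ContDiffBump (0 : ℝ × (Fin d → ℝ)) where
  rIn := 1 / (8 * ((n : ℝ) + 1))
  rOut := 1 / (4 * ((n : ℝ) + 1))
  rIn_pos := by positivity
  rIn_lt_rOut := by
    apply one_div_lt_one_div_of_lt <;> nlinarith [Nat.cast_nonneg (α := ℝ) n]

def mol {d : ℕ} (n : ℕ) (D : ℝ → (Fin d → ℝ) → ℝ) (t : ℝ) (x : Fin d → ℝ) : ℝ :=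
  ∫ w : ℝ × (Fin d → ℝ), (bmp d n).normed volume w * D (t - w.1) (x - w.2)

/-- P6 (MOLG): general properties of the mollification. -/
def S_MOLG : Prop := ∀ (d : ℕ) (D : ℝ → (Fin d → ℝ) → ℝ), BMP D →
  (∀ n, SmoothPer (mol n D)) ∧
  (∀ B : ℝ, (∀ᵐ z : ℝ × (Fin d → ℝ), 0 < z.1 → |U D z| ≤ B) → ∀ (n : ℕ) t x,
    1 / (4 * ((n : ℝ) + 1)) < t → |mol n D t x| ≤ B) ∧
  (∀ᵐ z : ℝ × (Fin d → ℝ), Tendsto (fun n => U (mol n D) z) atTop (𝓝 (U D z))) ∧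
  (∀ S : ℝ, (∀ t, S ≤ t → ∀ x, D t x = 0) → ∀ (n : ℕ) t, S + 1 / (4 * ((n : ℝ) + 1)) ≤ t →
    ∀ x, mol n D t x = 0)

/-- P7 (MOLD): derivatives of mollifications from weak equations. -/
def S_MOLD : Prop := ∀ (d : ℕ) (D F : ℝ → (Fin d → ℝ) → ℝ), BMP D → BMP F →
  ((∀ f : ℝ → (Fin d → ℝ) → ℝ, CC f →
    ∫ z : ℝ × (Fin d → ℝ), U D z * (lap (f z.1) z.2 - dt f z.1 z.2)
      = - ∫ z : ℝ × (Fin d → ℝ), U F z * U f z) →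
    ∀ (n : ℕ) t x, 1 / (4 * ((n : ℝ) + 1)) < t →
      dt (mol n D) t x + lap (mol n D t) x = - mol n F t x) ∧
  (∀ i : Fin d, (∀ f : ℝ → (Fin d → ℝ) → ℝ, CC f →
    ∫ z : ℝ × (Fin d → ℝ), U D z * pd i (f z.1) z.2
      = - ∫ z : ℝ × (Fin d → ℝ), U F z * U f z) →
    ∀ (n : ℕ) t x, 1 / (4 * ((n : ℝ) + 1)) < t → pd i (mol n D t) x = mol n F t x)

/-- P8 (ENER): the energy identity for smooth functions. -/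
def S_ENER : Prop := ∀ (d : ℕ) (f : ℝ → (Fin d → ℝ) → ℝ) (g M : ℝ → ℝ), SmoothPer f →
  ContDiff ℝ 2 g → ContDiff ℝ 1 M → ∀ t1 t2 : ℝ, t1 ≤ t2 →
    (∫ x in Q d, g (f t2 x - M t2)) - ∫ x in Q d, g (f t1 x - M t1)
      = ∫ t in Ioc t1 t2, ∫ x in Q d, (deriv g (f t x - M t) * (dt f t x + lap (f t) x - deriv M t)
          + deriv (deriv g) (f t x - M t) * ∑ i, (pd i (f t) x) ^ 2)

/-- P9 (UNIQ): uniqueness for the backward heat equation. -/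
def S_UNIQ : Prop := ∀ (d : ℕ) (S : ℝ) (D : ℝ → (Fin d → ℝ) → ℝ), BMP D →
  (∀ t, S ≤ t → ∀ x, D t x = 0) →
  (∀ f : ℝ → (Fin d → ℝ) → ℝ, CC f →
    ∫ z : ℝ × (Fin d → ℝ), U D z * (lap (f z.1) z.2 - dt f z.1 z.2) = 0) →
  ∀ᵐ z : ℝ × (Fin d → ℝ), 0 < z.1 → U D z = 0

/-- P10 (CUT): cutting off in time. -/
def S_CUT : Prop := ∀ (d : ℕ) (S : ℝ) (F : ℝ → (Fin d → ℝ) → ℝ) (c : ℝ → ℝ), 0 < S → Src S F →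
  ContDiff ℝ (⊤ : ℕ∞) c → (∃ B, ∀ t, |c t| ≤ B ∧ |deriv c t| ≤ B) → (∀ t, t ≤ 0 → deriv c t = 0) →
  Src S (fun t x => c t * F t x - deriv c t * Phi S F t x) ∧
  ∀ᵐ z : ℝ × (Fin d → ℝ), 0 < z.1 →
    c z.1 * Phi S F z.1 z.2
      = Phi S (fun t x => c t * F t x - deriv c t * Phi S F t x) z.1 z.2 ∧
    ∀ i, c z.1 * Vel S F i z.1 z.2
      = Vel S (fun t x => c t * F t x - deriv c t * Phi S F t x) i z.1 z.2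

/-- The source of the dual problem. -/
def FF {d : ℕ} (c : ℝ → (Fin d → ℝ) → (Fin d → ℝ)) (h : ℝ → (Fin d → ℝ) → ℝ)
    (v : ℝ → (Fin d → ℝ) → (Fin d → ℝ)) (t : ℝ) (x : Fin d → ℝ) : ℝ :=
  (∑ i, c t x i * v t x i) + h t x

/-- Data of the dual problem: drift `c` bounded by `K`, right-hand side `h` bounded by `H`, both
zero for times outside `(1,S)`; `v` is the gradient of the solution `Phi S (FF c h v)`. -/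
structure Dat (d : ℕ) (S K H : ℝ) (c : ℝ → (Fin d → ℝ) → (Fin d → ℝ))
    (h : ℝ → (Fin d → ℝ) → ℝ) : Prop where
  measc : Measurable (U c)
  perc : ∀ t, Per (c t)
  bc : ∀ t x i, |c t x i| ≤ K
  sc : ∀ t, (t ≤ 1 ∨ S ≤ t) → ∀ x i, c t x i = 0
  meash : Measurable (U h)
  perh : ∀ t, Per (h t)
  bh : ∀ t x, |h t x| ≤ H
  sh : ∀ t, (t ≤ 1 ∨ S ≤ t) → ∀ x, h t x = 0

structure Dual (d : ℕ) (S K H : ℝ) (c : ℝ → (Fin d → ℝ) → (Fin d → ℝ))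
    (h : ℝ → (Fin d → ℝ) → ℝ) (v : ℝ → (Fin d → ℝ) → (Fin d → ℝ)) : Prop where
  dat : Dat d S K H c h
  measv : Measurable (U v)
  perv : ∀ t, Per (v t)
  bv : ∃ B : ℝ, ∀ t x i, |v t x i| ≤ B
  eq : ∀ t x i, v t x i = Vel S (FF c h v) i t x

/-- P11 (PIC): existence (Picard iteration with the weight `exp(-λ t)`). -/
def S_PIC : Prop := ∀ (d : ℕ) (S K H : ℝ) (c : ℝ → (Fin d → ℝ) → (Fin d → ℝ))
  (h : ℝ → (Fin d → ℝ) → ℝ), 1 < S → Dat d S K H c h → ∃ v, Dual d S K H c h v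

/-- P12 (MAX): the maximum principle. -/
def S_MAX : Prop := ∀ (d : ℕ) (S K H : ℝ) (c : ℝ → (Fin d → ℝ) → (Fin d → ℝ))
  (h : ℝ → (Fin d → ℝ) → ℝ) (v : ℝ → (Fin d → ℝ) → (Fin d → ℝ)), 1 < S → Dual d S K H c h v →
  ∀ᵐ z : ℝ × (Fin d → ℝ), 0 < z.1 → |Phi S (FF c h v) z.1 z.2| ≤ H * (S + 1)

/-- P13 (GRAD): the gradient bound. -/
def S_GRAD : Prop := ∀ (d : ℕ) (S H : ℝ), 1 < S → 0 ≤ H → ∃ C : ℝ, 0 ≤ C ∧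
  ∀ (K : ℝ) (c : ℝ → (Fin d → ℝ) → (Fin d → ℝ))
  (h : ℝ → (Fin d → ℝ) → ℝ) (v : ℝ → (Fin d → ℝ) → (Fin d → ℝ)), 1 ≤ K → Dual d S K H c h v →
  ∀ᵐ z : ℝ × (Fin d → ℝ), 0 < z.1 → ∀ i, |v z.1 z.2 i| ≤ C * K

/-- P14 (INTG): integrability from the norms. -/
def S_INTG : Prop := ∀ (d : ℕ) (T : ℝ) (p q : ℝ≥0∞) (b : ℝ → (Fin d → ℝ) → (Fin d → ℝ))
  (u0 : (Fin d → ℝ) → ℝ) (u : ℝ → (Fin d → ℝ) → ℝ), 0 < T → 2 ≤ q → 2 * p⁻¹ + q⁻¹ ≤ 1 →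
  Drift d T p b → Sol d T q b u0 u →
  (∫⁻ t in Ioo 0 T, ∫⁻ x in Q d, ‖u t x‖ₑ * ‖b t x‖ₑ) < ⊤ ∧
  (∫⁻ t in Ioo 0 T, ∫⁻ x in Q d, ‖u t x‖ₑ * ‖b t x‖ₑ ^ 2) < ⊤ ∧
  (∫⁻ t in Ioo 0 T, ∫⁻ x in Q d, ‖b t x‖ₑ ^ 2) < ⊤ ∧
  (∫⁻ t in Ioo 0 T, ∫⁻ x in Q d, ENNReal.ofReal ((u t x) ^ 2)) < ⊤ ∧
  (∫⁻ x in Q d, ENNReal.ofReal ((u0 x) ^ 2)) < ⊤

/-- P15 (TAIL): the key tail estimate: `K |u| |b| 1_{|b|>K} ≤ |u| |b|² 1_{|b|>K}` and dominated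
convergence (INTG: `∬ |u| |b|² ≤ ∫ ‖u‖_q ‖b‖_p²` because `2 q' ≤ p`). -/
def S_TAIL : Prop := ∀ (d : ℕ) (T : ℝ) (p q : ℝ≥0∞) (b : ℝ → (Fin d → ℝ) → (Fin d → ℝ))
  (u0 : (Fin d → ℝ) → ℝ) (u : ℝ → (Fin d → ℝ) → ℝ), 0 < T → 2 ≤ q → 2 * p⁻¹ + q⁻¹ ≤ 1 →
  Drift d T p b → Sol d T q b u0 u →
  Tendsto (fun K : ℕ => (K : ℝ≥0∞) * ∫⁻ t in Ioo 0 T, ∫⁻ x in Q d,
    (if (K : ℝ) < ‖b t x‖ then ‖u t x‖ₑ * ‖b t x‖ₑ else 0)) atTop (𝓝 0)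

/-- P16 (DIV2): the divergence condition for test functions which need not vanish near `t = 0`. -/
def S_DIV2 : Prop := ∀ (d : ℕ) (T : ℝ) (p : ℝ≥0∞) (b : ℝ → (Fin d → ℝ) → (Fin d → ℝ)), 0 < T →
  Drift d T p b → (∫⁻ t in Ioo 0 T, ∫⁻ x in Q d, ‖b t x‖ₑ ^ 2) < ⊤ →
  ∀ f : ℝ → (Fin d → ℝ) → ℝ, IsTest T f →
    ∫ t in Ioo 0 T, ∫ x in Q d, ∑ i, b t x i * pd i (f t) x = 0

/-- P17 (KEY1): the mollified dual solution as a test function. -/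
def S_KEY1 : Prop := ∀ (d : ℕ) (T : ℝ) (p q : ℝ≥0∞) (b : ℝ → (Fin d → ℝ) → (Fin d → ℝ))
  (u0 : (Fin d → ℝ) → ℝ) (u : ℝ → (Fin d → ℝ) → ℝ), 0 < T → 2 ≤ q → 2 * p⁻¹ + q⁻¹ ≤ 1 →
  Drift d T p b → Sol d T q b u0 u →
  ∀ (S K H : ℝ) (c : ℝ → (Fin d → ℝ) → (Fin d → ℝ)) (h : ℝ → (Fin d → ℝ) → ℝ)
    (v : ℝ → (Fin d → ℝ) → (Fin d → ℝ)), 1 < S → S < 1 + T → Dual d S K H c h v →
  ∀ L : ℝ, 0 ≤ L → (∀ᶠ n : ℕ in atTop, ∫ x in Q d, (mol n (Phi S (FF c h v)) 1 x) ^ 2 ≤ L) →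
    |∫ t in Ioo 0 T, ∫ x in Q d, u t x * (- FF c h v (t + 1) x
      + ∑ i, b t x i * v (t + 1) x i)| ≤ Real.sqrt (∫ x in Q d, (u0 x) ^ 2) * Real.sqrt L

/-- P18 (KEY2): the energy inequality for the dual solution. -/
def S_KEY2 : Prop := ∀ (d : ℕ) (S K H : ℝ) (c : ℝ → (Fin d → ℝ) → (Fin d → ℝ))
  (h : ℝ → (Fin d → ℝ) → ℝ) (v : ℝ → (Fin d → ℝ) → (Fin d → ℝ)), 1 < S → Dual d S K H c h v →
  ∀ e : ℝ, 0 < e → ∀ᶠ n : ℕ in atTop, ∫ x in Q d, (mol n (Phi S (FF c h v)) 1 x) ^ 2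
    ≤ 2 * (∫ t in Ioo 1 S, ∫ x in Q d, (FF c h v t x * Phi S (FF c h v) t x
        - ∑ i, (v t x i) ^ 2)) + e

/-- P19 (KEY3): the drift does no work; and integration by parts against smooth functions. -/
def S_KEY3 : Prop := ∀ (d : ℕ) (T : ℝ) (p : ℝ≥0∞) (b : ℝ → (Fin d → ℝ) → (Fin d → ℝ)), 0 < T →
  Drift d T p b → (∫⁻ t in Ioo 0 T, ∫⁻ x in Q d, ‖b t x‖ₑ ^ 2) < ⊤ →
  ∀ (S K H : ℝ) (c : ℝ → (Fin d → ℝ) → (Fin d → ℝ)) (h : ℝ → (Fin d → ℝ) → ℝ)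
    (v : ℝ → (Fin d → ℝ) → (Fin d → ℝ)), 1 < S → S < 1 + T → Dual d S K H c h v →
  (∫ t in Ioo 0 T, ∫ x in Q d, (∑ i, b t x i * v (t + 1) x i) * Phi S (FF c h v) (t + 1) x = 0) ∧
  ∀ (f : ℝ → (Fin d → ℝ) → ℝ) (i : Fin d), SmoothPer f →
    ∫ t in Ioo 1 S, ∫ x in Q d, pd i (f t) x * Phi S (FF c h v) t x
      = - ∫ t in Ioo 1 S, ∫ x in Q d, f t x * v t x i

/-- P20 (KEY): the estimate for a fixed level `K`. -/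
def S_KEY : Prop := ∀ (d : ℕ) (T : ℝ) (p q : ℝ≥0∞) (b : ℝ → (Fin d → ℝ) → (Fin d → ℝ))
  (u0 : (Fin d → ℝ) → ℝ) (u : ℝ → (Fin d → ℝ) → ℝ), 0 < T → 2 ≤ q → 2 * p⁻¹ + q⁻¹ ≤ 1 →
  Drift d T p b → Sol d T q b u0 u →
  ∀ (f : ℝ → (Fin d → ℝ) → ℝ) (i : Fin d), IsTest0 T f → ∃ C : ℝ, 0 ≤ C ∧ ∀ K : ℕ, 1 ≤ K →
    |∫ t in Ioo 0 T, ∫ x in Q d, u t x * pd i (f t) x|
      ≤ C * ((K : ℝ≥0∞) * ∫⁻ t in Ioo 0 T, ∫⁻ x in Q d,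
          (if (K : ℝ) < ‖b t x‖ then ‖u t x‖ₑ * ‖b t x‖ₑ else 0)).toReal
        + Real.sqrt (∫ x in Q d, (u0 x) ^ 2)
          * (C * Real.sqrt (∫⁻ t in Ioo 0 T, ∫⁻ x in Q d,
              (if (K : ℝ) < ‖b t x‖ then ‖b t x‖ₑ ^ 2 else 0)).toReal
            + Real.sqrt (∫ t in Ioo 0 T, ∫ x in Q d, (f t x) ^ 2))

/-- P21 (EST): the a priori estimate. -/
def S_EST : Prop := ∀ (d : ℕ) (T : ℝ) (p q : ℝ≥0∞) (b : ℝ → (Fin d → ℝ) → (Fin d → ℝ))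
  (u0 : (Fin d → ℝ) → ℝ) (u : ℝ → (Fin d → ℝ) → ℝ), 0 < T → 2 ≤ q → 2 * p⁻¹ + q⁻¹ ≤ 1 →
  Drift d T p b → Sol d T q b u0 u →
  ∀ (f : ℝ → (Fin d → ℝ) → ℝ) (i : Fin d), IsTest0 T f →
    |∫ t in Ioo 0 T, ∫ x in Q d, u t x * pd i (f t) x|
      ≤ Real.sqrt (∫ x in Q d, (u0 x) ^ 2) * Real.sqrt (∫ t in Ioo 0 T, ∫ x in Q d, (f t x) ^ 2)

/-- P22 (RIESZ). -/
def S_RIESZ : Prop := ∀ (d : ℕ) (T : ℝ) (u : ℝ → (Fin d → ℝ) → ℝ), 0 < T →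
  Measurable (U u) → (∀ t, Per (u t)) →
  (∫⁻ t in Ioo 0 T, ∫⁻ x in Q d, ENNReal.ofReal ((u t x) ^ 2)) < ⊤ →
  (∃ C : ℝ, ∀ (f : ℝ → (Fin d → ℝ) → ℝ) (i : Fin d), IsTest0 T f →
    |∫ t in Ioo 0 T, ∫ x in Q d, u t x * pd i (f t) x|
      ≤ C * Real.sqrt (∫ t in Ioo 0 T, ∫ x in Q d, (f t x) ^ 2)) →
  Parabolic d T u

/-- P23 (PFIN): the second half of the result. -/
def S_PFIN : Prop :=
  ∀ (d : ℕ) (T : ℝ) (p q : ℝ≥0∞), 0 < T → 2 ≤ q → 2 * p⁻¹ + q⁻¹ ≤ 1 →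
    ∀ (b : ℝ → (Fin d → ℝ) → (Fin d → ℝ)) (u0 : (Fin d → ℝ) → ℝ) (u : ℝ → (Fin d → ℝ) → ℝ),
      Drift d T p b → Sol d T q b u0 u → Parabolic d T u

end

end Pool.Agent.Helper28.ND
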