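import Pool.Agent.Helper28.ND.Spec2

/-!
# MP_0c2f33_an, second swarm: explicit test functions (B parts).
-/

namespace Pool.Agent.Helper28.ND
open MeasureTheory Set Filter Topology
open scoped ENNReal NNReal

noncomputable section

/-- The concave profile: `2y - 2y³ + y⁴` for `y ≤ 1`, then `1`. -/
def Gp (y : ℝ) : ℝ := if y ≤ 1 then 2 * y - 2 * y ^ 3 + y ^ 4 else 1

/-- The smooth step. -/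
def Sg (y : ℝ) : ℝ := if y ≤ 0 then 0 else if y ≤ 1 then 10 * y ^ 3 - 15 * y ^ 4 + 6 * y ^ 5 else 1

/-- The cube of the positive part. -/
def jj (y : ℝ) : ℝ := (max y 0) ^ 3

/-- B1 (GP): one-variable facts. -/
def S_GP : Prop :=
  ContDiff ℝ 2 Gp ∧ ContDiff ℝ 2 Sg ∧ ContDiff ℝ 2 jj ∧
  (Gp 0 = 0 ∧ (∀ y, 1 ≤ y → Gp y = 1) ∧ (∀ y, 0 ≤ y → 0 ≤ Gp y ∧ Gp y ≤ 1 ∧ Gp y ≤ 2 * y) ∧
    (∀ y, 0 ≤ y → y ≤ 1 → y ≤ Gp y) ∧ (∀ y z, 0 ≤ y → y ≤ z → Gp y ≤ Gp z) ∧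
    (∀ l y, 1 ≤ l → 0 ≤ y → Gp (l * y) ≤ l * Gp y) ∧
    (∀ y, 0 ≤ y → 0 ≤ deriv Gp y ∧ -12 * Gp y ≤ deriv (deriv Gp) y ∧
      deriv (deriv Gp) y / 9 + y / 2 * deriv Gp y ≤ 0)) ∧
  ((∀ y, y ≤ 0 → Sg y = 0) ∧ (∀ y, 1 ≤ y → Sg y = 1) ∧ (∀ y, 0 ≤ Sg y ∧ Sg y ≤ 1) ∧
    (∀ y, 0 ≤ deriv Sg y ∧ -12 * Sg y ≤ deriv (deriv Sg) y)) ∧
  ((∀ y, y ≤ 0 → jj y = 0 ∧ deriv jj y = 0 ∧ deriv (deriv jj) y = 0) ∧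
    (∀ y, 0 ≤ jj y ∧ 0 ≤ deriv jj y ∧ 0 ≤ deriv (deriv jj) y) ∧ (∀ y z, y ≤ z → jj y ≤ jj z) ∧
    (∀ y, y ≤ 1 → jj y ≤ 1))

/-- Test functions on the quarter cell, only on a time interval around `[s,t]`. -/
structure T4L (s t : ℝ) (g : ℝ → (Fin 2 → ℝ) → ℝ) : Prop where
  smooth : ∃ δ : ℝ, 0 < δ ∧ ContDiffOn ℝ 2 (U g) (Ioo (s - δ) (t + δ) ×ˢ univ)
  per : ∀ t x, g t ![x 0, x 1 + 1] = g t x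
  wall : ∀ t x, x 0 = 0 → g t x = 0
  flat : ∀ t x, 1 / 8 ≤ x 0 → g t x = g t ![1 / 8, x 1]

/-- The situation of all lemmas: a symmetric solution which is nonnegative in the quarter cell. -/
structure Sit (T : ℝ) (b : ℝ → (Fin 2 → ℝ) → (Fin 2 → ℝ)) (f : ℝ → (Fin 2 → ℝ) → ℝ)
    (u : ℝ → (Fin 2 → ℝ) → ℝ) (v : ℝ → (Fin 2 → ℝ) → (Fin 2 → ℝ)) : Prop where
  hT : 0 < T
  sol : FSol 2 T b f u v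
  su : ∀ t, Sym (u t)
  sf : ∀ t, Sym (f t)
  sb : ∀ t, SymB (b t)
  fp : ∀ t x, 0 ≤ x 0 → x 0 ≤ 1 / 4 → 0 ≤ f t x
  up : ∀ t x, t ≤ T → 0 ≤ x 0 → x 0 ≤ 1 / 4 → 0 ≤ u t x

/-- B2 (SUB): subsolutions give lower bounds (multiply by a smooth time cutoff, then TESTQ). -/
def S_SUB : Prop := ∀ (T : ℝ) (b : ℝ → (Fin 2 → ℝ) → (Fin 2 → ℝ)) (f : ℝ → (Fin 2 → ℝ) → ℝ)
  (u : ℝ → (Fin 2 → ℝ) → ℝ) (v : ℝ → (Fin 2 → ℝ) → (Fin 2 → ℝ)), Sit T b f u v →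
  ∀ (s t : ℝ) (g : ℝ → (Fin 2 → ℝ) → ℝ), 0 ≤ s → s ≤ t → t ≤ T → T4L s t g →
    ((∀ r x, s < r → r < t → x ∈ Q4 → 0 ≤ dt g r x + (∑ i, b r x i * pd i (g r) x) + lap (g r) x) →
      (∫ x in Q4, u s x * g s x) + (∫ r in Ioc s t, ∫ x in Q4, f r x * g r x)
        ≤ ∫ x in Q4, u t x * g t x) ∧
    ((∀ r x, s < r → r < t → x ∈ Q4 → dt g r x + (∑ i, b r x i * pd i (g r) x) + lap (g r) x ≤ 0) →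
      ∫ x in Q4, u t x * g t x
        ≤ (∫ x in Q4, u s x * g s x) + (∫ r in Ioc s t, ∫ x in Q4, f r x * g r x))

/-- `R = √(24 ρ)`. -/
def RR (ρ : ℝ) : ℝ := Real.sqrt (24 * ρ)

/-- B3 (RE1): mass bounds in a phase without drift and source.  Supersolution
`Gp (x0/(3√(t+ε-r)))`, `ε → 0`. -/
def S_RE1 : Prop := ∀ (T : ℝ) (b : ℝ → (Fin 2 → ℝ) → (Fin 2 → ℝ)) (f : ℝ → (Fin 2 → ℝ) → ℝ)
  (u : ℝ → (Fin 2 → ℝ) → ℝ) (v : ℝ → (Fin 2 → ℝ) → (Fin 2 → ℝ)), Sit T b f u v →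
  ∀ (s t : ℝ), 0 ≤ s → s < t → t ≤ T → RR (t - s) ≤ 1 / 8 →
  (∀ r x, s < r → r < t → f r x = 0 ∧ ∀ i, b r x i = 0) →
  (∫ x in Q4, u t x ≤ 2 * ∫ x in Q4, u s x * Gp (x 0 / RR (t - s))) ∧
  (∫ x in Q4, u ((s + t) / 2) x ≤ 3 * ∫ x in Q4, u s x * Gp (x 0 / RR (t - s)))

/-- B4 (RE2): lower bound for the far mass, with the subsolution
`exp(-12 (t-r)/R²) Gp (x0/R) - (3/10) Gp (x0/(3√(t-r+R²/900)))`. -/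
def S_RE2 : Prop := ∀ (T : ℝ) (b : ℝ → (Fin 2 → ℝ) → (Fin 2 → ℝ)) (f : ℝ → (Fin 2 → ℝ) → ℝ)
  (u : ℝ → (Fin 2 → ℝ) → ℝ) (v : ℝ → (Fin 2 → ℝ) → (Fin 2 → ℝ)), Sit T b f u v →
  ∀ (s t : ℝ), 0 ≤ s → s < t → t ≤ T → RR (t - s) ≤ 1 / 8 →
  (∀ r x, s < r → r < t → f r x = 0 ∧ ∀ i, b r x i = 0) →
  (1 / 10) * ∫ x in Q4, u s x * Gp (x 0 / RR (t - s))
    ≤ ∫ x in Q4, (if 15 / 100 * RR (t - s) ≤ x 0 then u t x else 0)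

/-- B5 (INJ): the weight `exp(-12 (t-r)/R²) Gp (x0/R)` in a phase without drift, with source. -/
def S_INJ : Prop := ∀ (T : ℝ) (b : ℝ → (Fin 2 → ℝ) → (Fin 2 → ℝ)) (f : ℝ → (Fin 2 → ℝ) → ℝ)
  (u : ℝ → (Fin 2 → ℝ) → ℝ) (v : ℝ → (Fin 2 → ℝ) → (Fin 2 → ℝ)), Sit T b f u v →
  ∀ (s t R : ℝ), 0 ≤ s → s ≤ t → t ≤ T → 0 < R → R ≤ 1 / 8 →
  (∀ r x, s < r → r < t → ∀ i, b r x i = 0) →
  Real.exp (-(12 * (t - s) / R ^ 2)) * ((∫ x in Q4, u s x * Gp (x 0 / R))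
      + ∫ r in Ioc s t, ∫ x in Q4, f r x * Gp (x 0 / R))
    ≤ ∫ x in Q4, u t x * Gp (x 0 / R)

/-- The near test function of the creation stage. -/
def psiA (r σ l A : ℝ) (x : Fin 2 → ℝ) : ℝ :=
  A - Real.exp (-σ * (x 0 - l)) - 2 * (1 - Real.cos (2 * Real.pi * x 1 / r)) - 4 * (x 0 / r) ^ 2

/-- The increments of `A` in a waiting phase and in a pulse of length `L`. -/
def aW (r L : ℝ) : ℝ := L * (2 * (2 * Real.pi / r) ^ 2 + 8 / r ^ 2)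
def aP (r L v : ℝ) : ℝ := aW r L + 4 * v * L / r

/-- B6 (WST): waiting phase. -/
def S_WST : Prop := ∀ (T : ℝ) (b : ℝ → (Fin 2 → ℝ) → (Fin 2 → ℝ)) (f : ℝ → (Fin 2 → ℝ) → ℝ)
  (u : ℝ → (Fin 2 → ℝ) → ℝ) (v : ℝ → (Fin 2 → ℝ) → (Fin 2 → ℝ)), Sit T b f u v →
  ∀ (n : ℕ) (s L σ l A y0 w : ℝ), 8 ≤ n → 0 ≤ s → 0 < L → s + L ≤ T → 0 < σ → 0 < y0 → 0 < w →
  (∀ r x, s < r → r < s + L → x ∈ Q4 → y0 ≤ x 0 → ∀ i, b r x i = 0) →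
  (y0 ≤ l - σ * L → 0 ≤ A → A + aW (1 / (n : ℝ)) L ≤ 1 →
    ∫ x in Q4, u s x * jj (psiA (1 / (n : ℝ)) σ l A x)
      ≤ ∫ x in Q4, u (s + L) x * jj (psiA (1 / (n : ℝ)) σ (l - σ * L) (A + aW (1 / (n : ℝ)) L) x)) ∧
  (y0 ≤ l → l + w ≤ 1 / 8 → Real.exp (-(12 * L / w ^ 2)) * ∫ x in Q4, u s x * Sg ((x 0 - l) / w)
      ≤ ∫ x in Q4, u (s + L) x * Sg ((x 0 - l) / w))

/-- B7 (PST): pulse. -/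
def S_PST : Prop := ∀ (T : ℝ) (b : ℝ → (Fin 2 → ℝ) → (Fin 2 → ℝ)) (f : ℝ → (Fin 2 → ℝ) → ℝ)
  (u : ℝ → (Fin 2 → ℝ) → ℝ) (v : ℝ → (Fin 2 → ℝ) → (Fin 2 → ℝ)), Sit T b f u v →
  ∀ (n : ℕ) (s L σ l A y0 w V : ℝ), 8 ≤ n → 0 ≤ s → 0 < L → s + L ≤ T → 0 < σ → 0 < y0 → 0 < w →
  0 < V →
  (∀ r x, s < r → r < s + L → x ∈ Q4 → y0 ≤ x 0 → |b r x 0| ≤ V) →
  (∀ r x, s < r → r < s + L → x ∈ Q4 → y0 ≤ x 0 → x 0 ≤ 1 / (n : ℝ) / 2 →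
    b r x 0 = V * Real.cos (2 * Real.pi * x 1 / (1 / (n : ℝ))) ∧ b r x 1 = 0) →
  (σ ≤ V / 2 → y0 ≤ l → 0 ≤ A → A + aP (1 / (n : ℝ)) L V ≤ 1 →
    ∫ x in Q4, u s x * jj (psiA (1 / (n : ℝ)) σ l A x)
      ≤ ∫ x in Q4, u (s + L) x
          * jj (psiA (1 / (n : ℝ)) σ (l + (V / 2 - σ) * L) (A + aP (1 / (n : ℝ)) L V) x)) ∧
  (y0 ≤ l - V * L → l + w ≤ 1 / 8 →
    Real.exp (-(12 * L / w ^ 2)) * ∫ x in Q4, u s x * Sg ((x 0 - l) / w)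
      ≤ ∫ x in Q4, u (s + L) x * Sg ((x 0 - (l - V * L)) / w))

/-- B8 (CRE): the creation stage: `m` pulses of length `L` separated by waiting phases of
length `L`.  Here `r = 1/n`, the deeper levels live in `x 0 ≤ r/N`. -/
def S_CRE : Prop := ∀ (T : ℝ) (b : ℝ → (Fin 2 → ℝ) → (Fin 2 → ℝ)) (f : ℝ → (Fin 2 → ℝ) → ℝ)
  (u : ℝ → (Fin 2 → ℝ) → ℝ) (v : ℝ → (Fin 2 → ℝ) → (Fin 2 → ℝ)), Sit T b f u v →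
  ∀ (n N M m : ℕ) (t0 r L V R : ℝ), 160 ≤ n → r = 1 / (n : ℝ) → 12 ∣ N → 1 ≤ M → 24576 * M ≤ N →
  L = 16 * (r / N) ^ 2 → V = (r / (64 * M)) / L → 1 ≤ m → m ≤ M → M ≤ 2 * m →
  0 ≤ t0 → t0 + (2 * m - 1) * L ≤ T → 0 < R → R ≤ 20 * r →
  (∀ t x, t0 < t → t < t0 + (2 * m - 1) * L → f t x = 0) →
  (∀ i : ℕ, i < m → ∀ t x, t0 + 2 * i * L < t → t < t0 + (2 * i + 1) * L → x ∈ Q4 → r / N ≤ x 0 →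
    |b t x 0| ≤ V ∧
    (x 0 ≤ r / 2 → b t x 0 = V * Real.cos (2 * Real.pi * x 1 / r) ∧ b t x 1 = 0)) →
  (∀ i : ℕ, i + 1 < m → ∀ t x, t0 + (2 * i + 1) * L < t → t < t0 + (2 * i + 2) * L → x ∈ Q4 →
    r / N ≤ x 0 → ∀ j, b t x j = 0) →
  (∀ x, u t0 ![x 0, x 1 + r / N] = u t0 x) →
  (1 / 10 ^ 6) * ∫ x in Q4, (if 24 / 10 * (r / N) ≤ x 0 then u t0 x else 0)
    ≤ ∫ x in Q4, u (t0 + (2 * m - 1) * L) x * Gp (x 0 / R)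

/-- The cutoff profile of the drift: `1` on `[1/N, 1/2]`, zero for `y ≤ 1/(2N)` and `y ≥ 1`. -/
def eta (N : ℕ) (y : ℝ) : ℝ :=
  Real.smoothTransition (2 * N * y - 1) * Real.smoothTransition (2 - 2 * y)

/-- signed distance to the nearest wall -/
def sd (y : ℝ) : ℝ := y - (round (2 * y) : ℝ) / 2

/-- the first factor of the drift -/
def chi (r : ℝ) (N : ℕ) (y : ℝ) : ℝ := eta N (sd y / r) - eta N (-(sd y / r))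

/-- The elementary drift at scale `r`. -/
def bet (r : ℝ) (N : ℕ) (x : Fin 2 → ℝ) : Fin 2 → ℝ :=
  ![chi r N (x 0) * Real.cos (2 * Real.pi * x 1 / r),
    -(r / (2 * Real.pi)) * deriv (chi r N) (x 0) * Real.sin (2 * Real.pi * x 1 / r)]

/-- B9 (BETA): properties of the elementary drift. -/
def S_BETA : Prop := ∀ N : ℕ, 2 ≤ N → ∃ C : ℝ, 1 ≤ C ∧ ∀ n : ℕ, 8 ≤ n →
  Continuous (bet (1 / (n : ℝ)) N) ∧ Per (bet (1 / (n : ℝ)) N) ∧ SymB (bet (1 / (n : ℝ)) N) ∧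
  (∀ x, |bet (1 / (n : ℝ)) N x 0| ≤ 1 ∧ |bet (1 / (n : ℝ)) N x 1| ≤ C) ∧
  (∀ x, bet (1 / (n : ℝ)) N ![x 0, x 1 + 1 / (n : ℝ)] = bet (1 / (n : ℝ)) N x) ∧
  (∀ x, 1 / (n : ℝ) ≤ |sd (x 0)| → bet (1 / (n : ℝ)) N x = 0) ∧
  (∀ x, x ∈ Q4 → 1 / (n : ℝ) / N ≤ x 0 → x 0 ≤ 1 / (n : ℝ) / 2 →
    bet (1 / (n : ℝ)) N x 0 = Real.cos (2 * Real.pi * x 1 / (1 / (n : ℝ))) ∧
    bet (1 / (n : ℝ)) N x 1 = 0) ∧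
  (∀ ζ : (Fin 2 → ℝ) → ℝ, ContDiff ℝ 1 ζ → Per ζ →
    ∫ x in Q 2, ∑ i, bet (1 / (n : ℝ)) N x i * pd i ζ x = 0) ∧
  volume {x : Fin 2 → ℝ | x ∈ Q 2 ∧ |sd (x 0)| < 1 / (n : ℝ)} ≤ ENNReal.ofReal (4 / (n : ℝ))

/-- B10 (SIT): a forward solution with symmetric data is a situation. -/
def S_SIT : Prop := ∀ (T : ℝ) (b : ℝ → (Fin 2 → ℝ) → (Fin 2 → ℝ)) (f : ℝ → (Fin 2 → ℝ) → ℝ)
  (u : ℝ → (Fin 2 → ℝ) → ℝ) (v : ℝ → (Fin 2 → ℝ) → (Fin 2 → ℝ)), 0 < T → FSol 2 T b f u v →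
  (∀ t, Sym (f t)) → (∀ t, SymB (b t)) → (∀ t x, 0 ≤ x 0 → x 0 ≤ 1 / 4 → 0 ≤ f t x) →
  Sit T b f u v

end

end Pool.Agent.Helper28.ND
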